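import Mathlib
import Pool.Agent.Lib.H80Min
import Pool.Agent.Lib.H80Match

/-!
Colour-critical graphs and the components of the complement (helper66).
-/

set_option autoImplicit false

namespace Pool.Agent.H66.HW

open SimpleGraph Finset Pool.Agent.Lib.H80

variable {V : Type*}

/-- If every vertex can be isolated, then there is a colouring with at most one singleton class in
every component of the complement. -/
theorem gallai_comp [Fintype V] {G : SimpleGraph V} {m : ℕ} (hm : ¬ G.Colorable m)
    (hcol : G.Colorable (m + 1))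
    (hcrit : ∀ a, ∃ P : V → Fin (m + 1), Proper G P ∧ a ∈ Sing P) :
    ∃ c : V → Fin (m + 1), Proper G c ∧
      ∀ x ∈ Sing c, ∀ y ∈ Sing c, Gᶜ.Reachable x y → x = y := by
  classical
  -- a colouring with the least number of singleton classes
  have hex : ∃ s, ∃ c : V → Fin (m + 1), Proper G c ∧ (Sing c).card = s := by
    obtain ⟨C⟩ := hcol
    exact ⟨_, C, fun u v huv => C.valid huv, rfl⟩
  obtain ⟨s, ⟨c0, hc0, hcs0⟩, hmin⟩ : ∃ s, (∃ c : V → Fin (m + 1), Proper G c ∧ (Sing c).card = s) ∧
      ∀ c : V → Fin (m + 1), Proper G c → s ≤ (Sing c).card := by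
    refine ⟨Nat.find hex, Nat.find_spec hex, fun c hc => Nat.find_min' hex ⟨c, hc, rfl⟩⟩
  refine ⟨c0, hc0, ?_⟩
  have ex : ∀ c P : V → Fin (m + 1), Proper G c → (Sing c).card = s → Proper G P → ∀ x ∈ Sing c,
      ∃ z ∈ Sing P, (x ∈ Sing P → z = x) ∧
        (∃ c' : V → Fin (m + 1), Proper G c' ∧ Sing c' = insert z ((Sing c).erase x)) ∧
        (∃ P' : V → Fin (m + 1), Proper G P' ∧
          (Sing P' = (Sing P).erase z ∨ Sing P' = insert x ((Sing P).erase z)) ∧
          ∀ u v, c u = c v → P u = P v → P' u = P' v) := fun c P hc hcs hP x hx =>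
    exchange hm hmin (Fintype.card (V × V)) c P hc hcs hP (by omega) x hx
  -- the set of vertices isolated by some minimum colouring
  let D : V → Prop := fun v => ∃ c : V → Fin (m + 1), Proper G c ∧ (Sing c).card = s ∧ v ∈ Sing c
  have hDclosed : ∀ x a, D x → Gᶜ.Adj x a → D a := by
    rintro x a ⟨c, hc, hcs, hx⟩ hxa
    by_contra ha
    -- a colouring isolating `a` with few singleton classes
    have hexa : ∃ t, ∃ P : V → Fin (m + 1), Proper G P ∧ a ∈ Sing P ∧ (Sing P).card = t := by
      obtain ⟨P, hP, haP⟩ := hcrit a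
      exact ⟨_, P, hP, haP, rfl⟩
    obtain ⟨P, hP, haP, hPt⟩ := Nat.find_spec hexa
    have hPmin : ∀ Q : V → Fin (m + 1), Proper G Q → a ∈ Sing Q → (Sing P).card ≤ (Sing Q).card := by
      intro Q hQ haQ
      rw [hPt]
      exact Nat.find_min' hexa ⟨Q, hQ, haQ, rfl⟩
    obtain ⟨z, hzP, -, ⟨c', hc', hSc'⟩, ⟨P', hP', hSP', -⟩⟩ := ex c P hc hcs hP x hx
    have hza : z ≠ a := by
      rintro rfl
      apply ha
      refine ⟨c', hc', ?_, by rw [hSc']; exact Finset.mem_insert_self _ _⟩
      apply le_antisymm _ (hmin c' hc')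
      rw [hSc']
      refine (Finset.card_insert_le _ _).trans ?_
      rw [Finset.card_erase_of_mem hx]
      have : 0 < (Sing c).card := Finset.card_pos.2 ⟨x, hx⟩
      omega
    rcases hSP' with hSP' | hSP'
    · have h1 := hPmin P' hP' (by rw [hSP']; exact Finset.mem_erase.2 ⟨hza.symm, haP⟩)
      rw [hSP', Finset.card_erase_of_mem hzP] at h1
      have : 0 < (Sing P).card := Finset.card_pos.2 ⟨z, hzP⟩
      omega
    · have h1 : a ∈ Sing P' := by
        rw [hSP']
        exact Finset.mem_insert_of_mem (Finset.mem_erase.2 ⟨hza.symm, haP⟩)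
      have h2 : x ∈ Sing P' := by
        rw [hSP']
        exact Finset.mem_insert_self _ _
      exact hxa.2 (adj_of_sing hm hP' h2 h1 hxa.1)
  -- the parallel relation
  let par : V → V → Prop := fun x y => ∀ c : V → Fin (m + 1), Proper G c → (Sing c).card = s →
    x ∈ Sing c → y ∈ Sing c → x = y
  have hpartrans : ∀ x y z, D y → par x y → par y z → par x z := by
    intro x y z hDy hxy hyz P hP hPs hxP hzP
    by_contra hne
    obtain ⟨c, hc, hcs, hyc⟩ := hDy
    obtain ⟨z', hz'P, -, -, ⟨P', hP', hSP', -⟩⟩ := ex c P hc hcs hP y hyc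
    have hpos : 0 < (Sing P).card := Finset.card_pos.2 ⟨z', hz'P⟩
    rcases hSP' with hSP' | hSP'
    · have h1 := hmin P' hP'
      rw [hSP', Finset.card_erase_of_mem hz'P] at h1
      omega
    · have hcard : (Sing P').card = s := by
        apply le_antisymm _ (hmin P' hP')
        rw [hSP']
        refine (Finset.card_insert_le _ _).trans ?_
        rw [Finset.card_erase_of_mem hz'P]
        omega
      have hy' : y ∈ Sing P' := by rw [hSP']; exact Finset.mem_insert_self _ _
      by_cases hx' : z' = x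
      · have hz : z ∈ Sing P' := by
          rw [hSP']
          refine Finset.mem_insert_of_mem (Finset.mem_erase.2 ⟨?_, hzP⟩)
          rintro rfl
          exact hne hx'.symm
        have := hyz P' hP' hcard hy' hz
        subst this
        exact hne (hxy P hP hPs hxP hzP)
      · have hx : x ∈ Sing P' := by
          rw [hSP']
          exact Finset.mem_insert_of_mem (Finset.mem_erase.2 ⟨fun h => hx' h.symm, hxP⟩)
        have := hxy P' hP' hcard hx hy'
        subst this
        exact hne (hyz P hP hPs hxP hzP)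
  have hparadj : ∀ x y, Gᶜ.Adj x y → par x y := by
    intro x y hxy c hc _ hx hy
    by_contra hne
    exact hxy.2 (adj_of_sing hm hc hx hy hne)
  have hparreach : ∀ x y, Gᶜ.Reachable x y → D x → par x y := by
    rintro x y ⟨w⟩
    induction w with
    | nil => exact fun _ _ _ _ _ _ => rfl
    | cons h _ ih =>
      intro hD
      have hDb := hDclosed _ _ hD h
      exact hpartrans _ _ _ hDb (hparadj _ _ h) (ih hDb)
  intro x hx y hy hxy
  exact hparreach x y hxy ⟨c0, hc0, hcs0, hx⟩ c0 hc0 hcs0 hx hy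

/-- A colouring with few singleton classes gives a large matching of the complement. -/
lemma exists_matching [Fintype V] [DecidableEq V] (G : SimpleGraph V) (A : Finset V) {C : Type*}
    (c : ↥(A : Set V) → C) (hc : Proper (G.induce (A : Set V)) c) :
    ∃ P : Finset (V × V), IsM (fun u v => ¬ G.Adj u v) P ∧
      A.card ≤ (Sing c).card + 4 * P.card := by
  classical
  have hne : (univ.filter (fun P : Finset (V × V) => IsM (fun u v => ¬ G.Adj u v) P ∧
      ∀ p ∈ P, p.1 ∈ A ∧ p.2 ∈ A)).Nonempty := by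
    refine ⟨∅, ?_⟩
    simp [IsM]
  obtain ⟨P, hP, hPmax⟩ := Finset.exists_max_image _ (fun P : Finset (V × V) => P.card) hne
  simp only [Finset.mem_filter, Finset.mem_univ, true_and] at hP hPmax
  obtain ⟨hPM, hPA⟩ := hP
  refine ⟨P, hPM, ?_⟩
  have hmax : ∀ u v, u ∈ A → v ∈ A → u ∉ cov P → v ∉ cov P → u ≠ v → G.Adj u v := by
    intro u v huA hvA hu hv huv
    by_contra hadj
    obtain ⟨h1, h2⟩ := hPM.insert_pair hu hv huv hadj
    have := hPmax _ ⟨h1, by
      intro p hp
      rcases Finset.mem_insert.1 hp with rfl | hp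
      · exact ⟨huA, hvA⟩
      · exact hPA p hp⟩
    omega
  have hcov := hPM.card_cov
  set U : Finset ↥(A : Set V) := univ.filter (fun x => x ∉ Sing c ∧ x.1 ∉ cov P) with hU
  set C' : Finset ↥(A : Set V) := univ.filter (fun x => x.1 ∈ cov P) with hC'
  have hC'card : C'.card ≤ (cov P).card := by
    apply Finset.card_le_card_of_injOn Subtype.val
    · intro x hx
      rw [Finset.mem_coe, hC', Finset.mem_filter] at hx
      exact hx.2
    · exact Subtype.val_injective.injOn
  have hUcard : U.card ≤ C'.card := by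
    have hex : ∀ x : ↥(A : Set V), ∃ y : ↥(A : Set V), x ∉ Sing c → (c y = c x ∧ y ≠ x) := by
      intro x
      by_cases hx : x ∈ Sing c
      · exact ⟨x, fun h => absurd hx h⟩
      · have hx' := hx
        rw [mem_sing] at hx'
        push Not at hx'
        obtain ⟨y, hy, hyx⟩ := hx'
        exact ⟨y, fun _ => ⟨hy, hyx⟩⟩
    choose g hg using hex
    have hdiff : ∀ x y : ↥(A : Set V), x.1 ∉ cov P → y.1 ∉ cov P → x ≠ y → c x ≠ c y := by
      intro x y hx hy hxy
      exact hc x y (hmax x.1 y.1 x.2 y.2 hx hy (fun h => hxy (Subtype.ext h)))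
    apply Finset.card_le_card_of_injOn g
    · intro x hx
      rw [Finset.mem_coe, hU, Finset.mem_filter] at hx
      obtain ⟨-, hxS, hxc⟩ := hx
      rw [Finset.mem_coe, hC', Finset.mem_filter]
      refine ⟨Finset.mem_univ _, ?_⟩
      by_contra hgc
      exact hdiff _ _ hgc hxc (hg x hxS).2 (hg x hxS).1
    · intro x hx y hy hxy
      rw [Finset.mem_coe, hU, Finset.mem_filter] at hx hy
      obtain ⟨-, hxS, hxc⟩ := hx
      obtain ⟨-, hyS, hyc⟩ := hy
      by_contra hne
      apply hdiff x y hxc hyc hne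
      rw [← (hg x hxS).1, ← (hg y hyS).1, hxy]
  have hall : (univ : Finset ↥(A : Set V)) ⊆ Sing c ∪ (U ∪ C') := by
    intro x _
    rw [Finset.mem_union, Finset.mem_union, hU, hC', Finset.mem_filter, Finset.mem_filter]
    by_cases h1 : x ∈ Sing c
    · exact Or.inl h1
    · by_cases h2 : x.1 ∈ cov P
      · exact Or.inr (Or.inr ⟨Finset.mem_univ _, h2⟩)
      · exact Or.inr (Or.inl ⟨Finset.mem_univ _, h1, h2⟩)
  have h1 := Finset.card_le_card hall
  have h2 := Finset.card_union_le (Sing c) (U ∪ C')
  have h3 := Finset.card_union_le U C'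
  have h4 : (univ : Finset ↥(A : Set V)).card = A.card := by
    rw [Finset.card_univ]
    simp
  omega

/-- The structure of a vertex-critical induced subgraph. -/
theorem struct [Fintype V] [DecidableEq V] (G : SimpleGraph V) (k : ℕ) (hk : ¬ G.Colorable k) :
    ∃ (A : Finset V) (u : V → V), (∀ v ∈ A, u v ∈ A) ∧ (∀ v ∈ A, u (u v) = u v) ∧
      (∀ v ∈ A, ∀ w ∈ A, v ≠ w → ¬ G.Adj v w → u v = u w) ∧
      2 * (k + 1) ≤ A.card + (A.image u).card ∧ ¬ ColOn G (A : Set V) k ∧
      ∃ P : Finset (V × V), IsM (fun u v => ¬ G.Adj u v) P ∧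
        A.card ≤ (A.image u).card + 4 * P.card := by
  classical
  have hne : (univ.filter (fun A : Finset V => ¬ ColOn G (A : Set V) k)).Nonempty := by
    refine ⟨univ, ?_⟩
    rw [Finset.mem_filter]
    refine ⟨Finset.mem_univ _, ?_⟩
    rw [Finset.coe_univ, colOn_univ]
    exact hk
  obtain ⟨A, hA, hAmin⟩ := Finset.exists_min_image _ (fun A : Finset V => A.card) hne
  simp only [Finset.mem_filter, Finset.mem_univ, true_and] at hA hAmin
  set G' := G.induce (A : Set V) with hG'
  have hm : ¬ G'.Colorable k := fun h => hA (colOn_iff_induce.2 h)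
  have hcrit : ∀ a : ↥(A : Set V), ∃ P : ↥(A : Set V) → Fin (k + 1), Proper G' P ∧ a ∈ Sing P := by
    intro a
    have h1 : ColOn G ((A.erase a.1 : Finset V) : Set V) k := by
      by_contra hc
      have h2 := hAmin _ hc
      have h3 := Finset.card_erase_lt_of_mem (s := A) (a := a.1) a.2
      omega
    obtain ⟨c, c1, c2⟩ := h1
    have hmem : ∀ x : ↥(A : Set V), x ≠ a → x.1 ∈ ((A.erase a.1 : Finset V) : Set V) := by
      intro x hx
      rw [Finset.mem_coe, Finset.mem_erase]
      exact ⟨fun h => hx (Subtype.ext h), x.2⟩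
    refine ⟨fun v => if h : v = a then Fin.last k else
      ⟨c v.1, Nat.lt_succ_of_lt (c1 v.1 (hmem v h))⟩, ?_, ?_⟩
    · intro u v huv h
      by_cases hu : u = a <;> by_cases hv : v = a
      · subst hu; subst hv
        exact huv.ne rfl
      · simp only [hu, hv, dif_pos, dif_neg, not_false_eq_true, Fin.ext_iff, Fin.val_last] at h
        have := c1 v.1 (hmem v hv)
        omega
      · simp only [hu, hv, dif_pos, dif_neg, not_false_eq_true, Fin.ext_iff, Fin.val_last] at h
        have := c1 u.1 (hmem u hu)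
        omega
      · simp only [hu, hv, dif_neg, not_false_eq_true, Fin.ext_iff] at h
        exact c2 u.1 (hmem u hu) v.1 (hmem v hv) huv h
    · rw [mem_sing]
      intro w hw
      by_contra hwa
      simp only [hwa, dif_pos, dif_neg, not_false_eq_true, Fin.ext_iff, Fin.val_last] at hw
      have := c1 w.1 (hmem w hwa)
      omega
  have hne' : Nonempty ↥(A : Set V) := by
    by_contra hempty
    rw [not_nonempty_iff] at hempty
    exact hm ⟨SimpleGraph.Coloring.mk (fun v => isEmptyElim v) (fun {v} => isEmptyElim v)⟩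
  have hcol : G'.Colorable (k + 1) := by
    obtain ⟨a0⟩ := hne'
    obtain ⟨P, hP, -⟩ := hcrit a0
    exact ⟨SimpleGraph.Coloring.mk P (fun {u v} huv => hP u v huv)⟩
  obtain ⟨c, hc, hcs⟩ := gallai_comp hm hcol hcrit
  have hcard := card_of_sing hm hc
  -- representatives
  let rep : ↥(A : Set V) → ↥(A : Set V) := fun x => (G'ᶜ.connectedComponentMk x).out
  have hrep_mk : ∀ x, G'ᶜ.connectedComponentMk (rep x) = G'ᶜ.connectedComponentMk x := fun x =>
    Quot.out_eq _
  have hrep_rep : ∀ x, rep (rep x) = rep x := by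
    intro x
    show (G'ᶜ.connectedComponentMk (rep x)).out = (G'ᶜ.connectedComponentMk x).out
    rw [hrep_mk]
  have hrep_eq : ∀ x y, rep x = rep y → G'ᶜ.Reachable x y := by
    intro x y h
    rw [← SimpleGraph.ConnectedComponent.eq, ← hrep_mk x, ← hrep_mk y, h]
  have hrep_adj : ∀ x y, G'ᶜ.Reachable x y → rep x = rep y := by
    intro x y h
    show (G'ᶜ.connectedComponentMk x).out = (G'ᶜ.connectedComponentMk y).out
    rw [SimpleGraph.ConnectedComponent.eq.2 h]
  let u : V → V := fun v => if h : v ∈ A then (rep ⟨v, h⟩).1 else v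
  have hu : ∀ v (h : v ∈ A), u v = (rep ⟨v, h⟩).1 := by
    intro v h
    simp only [u, h, dif_pos]
  have hu' : ∀ x : ↥(A : Set V), u x.1 = (rep x).1 := fun x => hu x.1 x.2
  have hSle : (Sing c).card ≤ (A.image u).card := by
    apply Finset.card_le_card_of_injOn (fun x : ↥(A : Set V) => u x.1)
    · intro x _
      rw [Finset.coe_image]
      exact ⟨x.1, x.2, rfl⟩
    · intro x hx y hy h
      simp only [hu'] at h
      exact hcs x hx y hy (hrep_eq x y (Subtype.ext h))
  obtain ⟨P, hP, hPc⟩ := exists_matching G A c hc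
  refine ⟨A, u, ?_, ?_, ?_, ?_, hA, P, hP, by omega⟩
  · intro v hv
    rw [hu v hv]
    exact (rep ⟨v, hv⟩).2
  · intro v hv
    rw [hu v hv, hu' (rep ⟨v, hv⟩), hrep_rep]
  · intro v hv w hw hvw hadj
    rw [hu v hv, hu w hw]
    congr 1
    apply hrep_adj
    apply SimpleGraph.Adj.reachable
    rw [SimpleGraph.compl_adj]
    refine ⟨fun h => hvw (congrArg Subtype.val h), ?_⟩
    intro h
    exact hadj h
  · have h1 : Fintype.card ↥(A : Set V) = A.card := by simp
    rw [h1] at hcard
    exact hcard.trans (Nat.add_le_add_left hSle _)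

end Pool.Agent.H66.HW
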