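import Mathlib
import Pool.Agent.H66.HW.Comp

/-!
Vertex-critical induced subgraphs with representatives of least degree in the complement (helper66).
-/

set_option autoImplicit false

namespace Pool.Agent.H66.HW

open SimpleGraph Finset Pool.Agent.Lib.H80

variable {V : Type*}

/-- The structure of a vertex-critical induced subgraph. -/
theorem struct_min [Fintype V] [DecidableEq V] (G : SimpleGraph V) (k : ℕ)
    (A : Finset V) (hA : ¬ ColOn G (A : Set V) k)
    (hAmin : ∀ B : Finset V, ¬ ColOn G (B : Set V) k → A.card ≤ B.card) :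
    ∃ (u : V → V), (∀ v ∈ A, u v ∈ A) ∧ (∀ v ∈ A, u (u v) = u v) ∧
      (∀ v ∈ A, ∀ w ∈ A, v ≠ w → ¬ G.Adj v w → u v = u w) ∧
      2 * (k + 1) ≤ A.card + (A.image u).card := by
  classical
  set G' := G.induce (A : Set V) with hG'
  have hm : ¬ G'.Colorable k := fun h => hA (colOn_iff_induce.2 h)
  have hcrit : ∀ a : ↥(A : Set V), ∃ P : ↥(A : Set V) → Fin (k + 1), Proper G' P ∧ a ∈ Sing P := by
    intro a
    have h1 : ColOn G ((A.erase a.1 : Finset V) : Set V) k := by
      by_contra hc
      have h2 := hAmin _ hc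
      have h3 := Finset.card_erase_lt_of_mem (s := A) (a := a.1) a.2
      omega
    obtain ⟨c, c1, c2⟩ := h1
    have hmem : ∀ x : ↥(A : Set V), x ≠ a → x.1 ∈ ((A.erase a.1 : Finset V) : Set V) := by
      intro x hx
      rw [Finset.mem_coe, Finset.mem_erase]
      exact ⟨fun h => hx (Subtype.ext h), x.2⟩
    refine ⟨fun v => if h : v = a then Fin.last k else
      ⟨c v.1, Nat.lt_succ_of_lt (c1 v.1 (hmem v h))⟩, ?_, ?_⟩
    · intro u v huv h
      by_cases hu : u = a <;> by_cases hv : v = a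
      · subst hu; subst hv
        exact huv.ne rfl
      · simp only [hu, hv, dif_pos, dif_neg, not_false_eq_true, Fin.ext_iff, Fin.val_last] at h
        have := c1 v.1 (hmem v hv)
        omega
      · simp only [hu, hv, dif_pos, dif_neg, not_false_eq_true, Fin.ext_iff, Fin.val_last] at h
        have := c1 u.1 (hmem u hu)
        omega
      · simp only [hu, hv, dif_neg, not_false_eq_true, Fin.ext_iff] at h
        exact c2 u.1 (hmem u hu) v.1 (hmem v hv) huv h
    · rw [mem_sing]
      intro w hw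
      by_contra hwa
      simp only [hwa, dif_pos, dif_neg, not_false_eq_true, Fin.ext_iff, Fin.val_last] at hw
      have := c1 w.1 (hmem w hwa)
      omega
  have hne' : Nonempty ↥(A : Set V) := by
    by_contra hempty
    rw [not_nonempty_iff] at hempty
    exact hm ⟨SimpleGraph.Coloring.mk (fun v => isEmptyElim v) (fun {v} => isEmptyElim v)⟩
  have hcol : G'.Colorable (k + 1) := by
    obtain ⟨a0⟩ := hne'
    obtain ⟨P, hP, -⟩ := hcrit a0
    exact ⟨SimpleGraph.Coloring.mk P (fun {u v} huv => hP u v huv)⟩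
  obtain ⟨c, hc, hcs⟩ := gallai_comp hm hcol hcrit
  have hcard := card_of_sing hm hc
  -- representatives
  let rep : ↥(A : Set V) → ↥(A : Set V) := fun x => (G'ᶜ.connectedComponentMk x).out
  have hrep_mk : ∀ x, G'ᶜ.connectedComponentMk (rep x) = G'ᶜ.connectedComponentMk x := fun x =>
    Quot.out_eq _
  have hrep_rep : ∀ x, rep (rep x) = rep x := by
    intro x
    show (G'ᶜ.connectedComponentMk (rep x)).out = (G'ᶜ.connectedComponentMk x).out
    rw [hrep_mk]
  have hrep_eq : ∀ x y, rep x = rep y → G'ᶜ.Reachable x y := by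
    intro x y h
    rw [← SimpleGraph.ConnectedComponent.eq, ← hrep_mk x, ← hrep_mk y, h]
  have hrep_adj : ∀ x y, G'ᶜ.Reachable x y → rep x = rep y := by
    intro x y h
    show (G'ᶜ.connectedComponentMk x).out = (G'ᶜ.connectedComponentMk y).out
    rw [SimpleGraph.ConnectedComponent.eq.2 h]
  let u : V → V := fun v => if h : v ∈ A then (rep ⟨v, h⟩).1 else v
  have hu : ∀ v (h : v ∈ A), u v = (rep ⟨v, h⟩).1 := by
    intro v h
    simp only [u, h, dif_pos]
  have hu' : ∀ x : ↥(A : Set V), u x.1 = (rep x).1 := fun x => hu x.1 x.2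
  have hSle : (Sing c).card ≤ (A.image u).card := by
    apply Finset.card_le_card_of_injOn (fun x : ↥(A : Set V) => u x.1)
    · intro x _
      rw [Finset.coe_image]
      exact ⟨x.1, x.2, rfl⟩
    · intro x hx y hy h
      simp only [hu'] at h
      exact hcs x hx y hy (hrep_eq x y (Subtype.ext h))
  refine ⟨u, ?_, ?_, ?_, ?_⟩
  · intro v hv
    rw [hu v hv]
    exact (rep ⟨v, hv⟩).2
  · intro v hv
    rw [hu v hv, hu' (rep ⟨v, hv⟩), hrep_rep]
  · intro v hv w hw hvw hadj
    rw [hu v hv, hu w hw]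
    congr 1
    apply hrep_adj
    apply SimpleGraph.Adj.reachable
    rw [SimpleGraph.compl_adj]
    refine ⟨fun h => hvw (congrArg Subtype.val h), ?_⟩
    intro h
    exact hadj h
  · have h1 : Fintype.card ↥(A : Set V) = A.card := by simp
    rw [h1] at hcard
    exact hcard.trans (Nat.add_le_add_left hSle _)

/-- Every vertex of a critical subgraph has many neighbours. -/
lemma min_deg [Fintype V] [DecidableEq V] (G : SimpleGraph V) (k : ℕ)
    (A : Finset V) (hA : ¬ ColOn G (A : Set V) k)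
    (hAmin : ∀ B : Finset V, ¬ ColOn G (B : Set V) k → A.card ≤ B.card) (v : V) (hv : v ∈ A) :
    ∃ N : Finset V, k ≤ N.card ∧ ∀ w ∈ N, w ∈ A ∧ G.Adj v w := by
  classical
  refine ⟨A.filter (fun w => G.Adj v w), ?_, fun w hw => Finset.mem_filter.1 hw⟩
  by_contra hcon
  push Not at hcon
  have h1 : ColOn G ((A.erase v : Finset V) : Set V) k := by
    by_contra hc
    have h2 := hAmin _ hc
    have h3 := Finset.card_erase_lt_of_mem hv
    omega
  obtain ⟨c, c1, c2⟩ := h1
  have hex : ∃ a ∈ Finset.range k, a ∉ (A.filter (fun w => G.Adj v w)).image c := by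
    by_contra hno
    push Not at hno
    have h2 : (Finset.range k).card ≤ ((A.filter (fun w => G.Adj v w)).image c).card :=
      Finset.card_le_card hno
    rw [Finset.card_range] at h2
    have h3 := Finset.card_image_le (s := A.filter (fun w => G.Adj v w)) (f := c)
    omega
  obtain ⟨a, ha, hac⟩ := hex
  rw [Finset.mem_range] at ha
  apply hA
  have hmem : ∀ x ∈ (A : Set V), x ≠ v → x ∈ ((A.erase v : Finset V) : Set V) := by
    intro x hx hxv
    rw [Finset.mem_coe, Finset.mem_erase]
    exact ⟨hxv, hx⟩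
  have hfree : ∀ w ∈ A, G.Adj v w → c w ≠ a := by
    intro w hw hvw h
    exact hac (Finset.mem_image.2 ⟨w, Finset.mem_filter.2 ⟨hw, hvw⟩, h⟩)
  refine ⟨fun x => if x = v then a else c x, ?_, ?_⟩
  · intro x hx
    by_cases hxv : x = v
    · simp only [hxv, if_true]
      exact ha
    · simp only [hxv, if_false]
      exact c1 x (hmem x hx hxv)
  · intro x hx y hy hxy
    by_cases hxv : x = v <;> by_cases hyv : y = v
    · exact absurd (hxv.trans hyv.symm) hxy.ne
    · simp only [hxv, hyv, if_true, if_false]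
      subst hxv
      exact (hfree y hy hxy).symm
    · simp only [hxv, hyv, if_true, if_false]
      subst hyv
      exact hfree x hx hxy.symm
    · simp only [hxv, hyv, if_false]
      exact c2 x (hmem x hx hxv) y (hmem y hy hyv) hxy

/-- The structure of a vertex-critical induced subgraph, with representatives of least degree. -/
theorem struct2 [Fintype V] [DecidableEq V] (G : SimpleGraph V) (k : ℕ) (hk : ¬ G.Colorable k)
    (f : Finset V → V → ℕ) :
    ∃ (A : Finset V) (u : V → V), (∀ v ∈ A, u v ∈ A) ∧ (∀ v ∈ A, u (u v) = u v) ∧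
      (∀ v ∈ A, ∀ w ∈ A, v ≠ w → ¬ G.Adj v w → u v = u w) ∧
      2 * (k + 1) ≤ A.card + (A.image u).card ∧ ¬ ColOn G (A : Set V) k ∧
      (∀ v ∈ A, ∃ N : Finset V, k ≤ N.card ∧ ∀ w ∈ N, w ∈ A ∧ G.Adj v w) ∧
      (∀ v ∈ A, f A (u v) ≤ f A v) := by
  classical
  have hne : (univ.filter (fun A : Finset V => ¬ ColOn G (A : Set V) k)).Nonempty := by
    refine ⟨univ, ?_⟩
    rw [Finset.mem_filter]
    refine ⟨Finset.mem_univ _, ?_⟩
    rw [Finset.coe_univ, colOn_univ]
    exact hk
  obtain ⟨A, hA, hAmin⟩ := Finset.exists_min_image _ (fun A : Finset V => A.card) hne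
  simp only [Finset.mem_filter, Finset.mem_univ, true_and] at hA hAmin
  obtain ⟨u, hu1, hu2, hu3, hcard⟩ := struct_min G k A hA hAmin
  -- the vertex of least degree of a class
  have hex : ∀ c : V, ∃ m : V, (∃ v ∈ A, u v = c) →
      (m ∈ A ∧ u m = c ∧ ∀ w ∈ A, u w = c → f A m ≤ f A w) := by
    intro c
    by_cases h : ∃ v ∈ A, u v = c
    · obtain ⟨v, hv, hvc⟩ := h
      obtain ⟨m, hm, hmin⟩ := Finset.exists_min_image (A.filter (fun w => u w = c)) (f A)
        ⟨v, Finset.mem_filter.2 ⟨hv, hvc⟩⟩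
      rw [Finset.mem_filter] at hm
      exact ⟨m, fun _ => ⟨hm.1, hm.2, fun w hw hwc => hmin w (Finset.mem_filter.2 ⟨hw, hwc⟩)⟩⟩
    · exact ⟨c, fun h' => absurd h' h⟩
  choose m hm using hex
  have hm' : ∀ v ∈ A, m (u v) ∈ A ∧ u (m (u v)) = u v ∧ ∀ w ∈ A, u w = u v →
      f A (m (u v)) ≤ f A w := fun v hv => hm (u v) ⟨v, hv, rfl⟩
  refine ⟨A, fun v => m (u v), ?_, ?_, ?_, ?_, hA, ?_, ?_⟩
  · exact fun v hv => (hm' v hv).1
  · intro v hv
    show m (u (m (u v))) = m (u v)
    rw [(hm' v hv).2.1]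
  · intro v hv w hw hvw hadj
    show m (u v) = m (u w)
    rw [hu3 v hv w hw hvw hadj]
  · refine hcard.trans (Nat.add_le_add_left ?_ _)
    apply Finset.card_le_card_of_injOn m
    · intro c hc
      rw [Finset.mem_coe, Finset.mem_image] at hc
      obtain ⟨v, hv, rfl⟩ := hc
      rw [Finset.coe_image]
      exact ⟨v, hv, rfl⟩
    · intro c hc c' hc' h
      rw [Finset.mem_coe, Finset.mem_image] at hc hc'
      obtain ⟨v, hv, rfl⟩ := hc
      obtain ⟨v', hv', rfl⟩ := hc'
      rw [← (hm' v hv).2.1, ← (hm' v' hv').2.1, h]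
  · exact fun v hv => min_deg G k A hA hAmin v hv
  · exact fun v hv => (hm' v hv).2.2 v hv rfl

end Pool.Agent.H66.HW
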