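import Mathlib

/-!
A counting form of the lopsided local lemma, and its application to random permutations (helper66).
-/

set_option autoImplicit false

namespace Pool.Agent.H66.HW

open Finset

/-- The points avoiding all events indexed by `S`. -/
def avoid {Ω ι : Type*} [Fintype Ω] [DecidableEq Ω] (A : ι → Finset Ω) (S : Finset ι) :
    Finset Ω := univ.filter (fun ω => ∀ j ∈ S, ω ∉ A j)

lemma mem_avoid {Ω ι : Type*} [Fintype Ω] [DecidableEq Ω] {A : ι → Finset Ω} {S : Finset ι}
    {ω : Ω} : ω ∈ avoid A S ↔ ∀ j ∈ S, ω ∉ A j := by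
  simp [avoid]

lemma avoid_anti {Ω ι : Type*} [Fintype Ω] [DecidableEq Ω] (A : ι → Finset Ω) {S T : Finset ι}
    (h : S ⊆ T) : avoid A T ⊆ avoid A S := by
  intro ω hω
  rw [mem_avoid] at hω ⊢
  exact fun j hj => hω j (h hj)

/-- The main estimate of the local lemma. -/
theorem lll_step {Ω ι : Type*} [Fintype Ω] [DecidableEq Ω] [DecidableEq ι]
    (A : ι → Finset Ω) (B : Finset ι) (N : ι → ι → Prop) [DecidableRel N] (p : ι → ℝ)
    (hp : ∀ i, 0 ≤ p i)
    (hsum : ∀ i ∈ B, ∑ j ∈ B.filter (fun j => N i j), p j ≤ 1 / 4)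
    (hA : ∀ i ∈ B, ∀ S ⊆ B, (∀ j ∈ S, ¬ N i j) →
      ((A i ∩ avoid A S).card : ℝ) ≤ p i * ((avoid A S).card : ℝ)) :
    ∀ n : ℕ, ∀ S ⊆ B, S.card = n → ∀ i ∈ B,
      ((A i ∩ avoid A S).card : ℝ) ≤ 2 * p i * ((avoid A S).card : ℝ) := by
  intro n
  induction n using Nat.strong_induction_on with
  | _ n ih =>
    intro S hS hn i hi
    set S1 := S.filter (fun j => N i j) with hS1
    set S2 := S.filter (fun j => ¬ N i j) with hS2
    have hS2B : S2 ⊆ B := (Finset.filter_subset _ _).trans hS
    have h2 := hA i hi S2 hS2B (fun j hj => (Finset.mem_filter.1 hj).2)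
    have hcard2 : (0 : ℝ) ≤ ((avoid A S2).card : ℝ) := Nat.cast_nonneg _
    by_cases hemp : S1 = ∅
    · have hSS : S2 = S := by
        rw [hS2]
        apply Finset.filter_true_of_mem
        intro j hj hNj
        have : j ∈ S1 := Finset.mem_filter.2 ⟨hj, hNj⟩
        rw [hemp] at this
        simp at this
      rw [hSS] at h2 hcard2
      have := mul_nonneg (hp i) hcard2
      linarith
    · have hlt : S2.card < n := by
        rw [← hn]
        apply Finset.card_lt_card
        refine ⟨Finset.filter_subset _ _, ?_⟩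
        intro hsub
        obtain ⟨j, hj⟩ := Finset.nonempty_iff_ne_empty.2 hemp
        have h1 := Finset.mem_filter.1 hj
        exact (Finset.mem_filter.1 (hsub h1.1)).2 h1.2
      -- lower bound for avoid S
      have hcover : avoid A S2 ⊆ avoid A S ∪ S1.biUnion (fun j => A j ∩ avoid A S2) := by
        intro ω hω
        by_cases h : ω ∈ avoid A S
        · exact Finset.mem_union_left _ h
        · apply Finset.mem_union_right
          rw [mem_avoid] at h
          push Not at h
          obtain ⟨j, hj, hωj⟩ := h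
          rw [Finset.mem_biUnion]
          refine ⟨j, ?_, Finset.mem_inter.2 ⟨hωj, hω⟩⟩
          rw [hS1, Finset.mem_filter]
          refine ⟨hj, ?_⟩
          by_contra hN
          exact (mem_avoid.1 hω) j (Finset.mem_filter.2 ⟨hj, hN⟩) hωj
      have hle : ((avoid A S2).card : ℝ) ≤ ((avoid A S).card : ℝ) +
          ∑ j ∈ S1, ((A j ∩ avoid A S2).card : ℝ) := by
        have h3 := (Finset.card_le_card hcover).trans ((Finset.card_union_le _ _).trans
          (Nat.add_le_add_left Finset.card_biUnion_le _))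
        exact_mod_cast h3
      have hbd : ∑ j ∈ S1, ((A j ∩ avoid A S2).card : ℝ) ≤
          2 * (∑ j ∈ S1, p j) * ((avoid A S2).card : ℝ) := by
        rw [Finset.mul_sum, Finset.sum_mul]
        apply Finset.sum_le_sum
        intro j hj
        exact ih S2.card hlt S2 hS2B rfl j (hS (Finset.mem_filter.1 hj).1)
      have hps : ∑ j ∈ S1, p j ≤ 1 / 4 := by
        refine le_trans ?_ (hsum i hi)
        apply Finset.sum_le_sum_of_subset_of_nonneg
        · intro j hj
          have h1 := Finset.mem_filter.1 hj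
          exact Finset.mem_filter.2 ⟨hS h1.1, h1.2⟩
        · intro j _ _
          exact hp j
      have hhalf : ((avoid A S2).card : ℝ) ≤ 2 * ((avoid A S).card : ℝ) := by
        have := mul_le_mul_of_nonneg_right hps hcard2
        nlinarith
      have hsub : ((A i ∩ avoid A S).card : ℝ) ≤ ((A i ∩ avoid A S2).card : ℝ) := by
        have : (A i ∩ avoid A S).card ≤ (A i ∩ avoid A S2).card := Finset.card_le_card
          (Finset.inter_subset_inter_left (avoid_anti A (Finset.filter_subset _ _)))
        exact_mod_cast this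
      have := mul_le_mul_of_nonneg_left hhalf (hp i)
      nlinarith

/-- The lopsided local lemma. -/
theorem lll {Ω ι : Type*} [Fintype Ω] [DecidableEq Ω] [Nonempty Ω] [DecidableEq ι]
    (A : ι → Finset Ω) (B : Finset ι) (N : ι → ι → Prop) [DecidableRel N] (p : ι → ℝ)
    (hp : ∀ i, 0 ≤ p i) (hN : ∀ i, N i i)
    (hsum : ∀ i ∈ B, ∑ j ∈ B.filter (fun j => N i j), p j ≤ 1 / 4)
    (hA : ∀ i ∈ B, ∀ S ⊆ B, (∀ j ∈ S, ¬ N i j) →
      ((A i ∩ avoid A S).card : ℝ) ≤ p i * ((avoid A S).card : ℝ)) :
    ∃ ω, ∀ i ∈ B, ω ∉ A i := by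
  have key : ∀ S : Finset ι, S ⊆ B → 0 < (avoid A S).card := by
    intro S
    induction S using Finset.induction_on with
    | empty =>
      intro _
      rw [Finset.card_pos]
      obtain ⟨ω⟩ := ‹Nonempty Ω›
      exact ⟨ω, by simp [mem_avoid]⟩
    | insert j S hj ih =>
      intro hS
      have hjB : j ∈ B := hS (Finset.mem_insert_self _ _)
      have hSB : S ⊆ B := (Finset.subset_insert _ _).trans hS
      have h1 := ih hSB
      have h2 := lll_step A B N p hp hsum hA S.card S hSB rfl j hjB
      have hpj : p j ≤ 1 / 4 := by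
        refine le_trans ?_ (hsum j hjB)
        exact Finset.single_le_sum (f := p) (fun i _ => hp i)
          (Finset.mem_filter.2 ⟨hjB, hN j⟩)
      have hcover : avoid A S ⊆ avoid A (insert j S) ∪ (A j ∩ avoid A S) := by
        intro ω hω
        by_cases h : ω ∈ A j
        · exact Finset.mem_union_right _ (Finset.mem_inter.2 ⟨h, hω⟩)
        · apply Finset.mem_union_left
          rw [mem_avoid]
          intro i hi
          rcases Finset.mem_insert.1 hi with rfl | hi
          · exact h
          · exact mem_avoid.1 hω i hi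
      have h3 : ((avoid A S).card : ℝ) ≤ ((avoid A (insert j S)).card : ℝ) +
          ((A j ∩ avoid A S).card : ℝ) := by
        have := (Finset.card_le_card hcover).trans (Finset.card_union_le _ _)
        exact_mod_cast this
      have h4 : (0 : ℝ) < ((avoid A S).card : ℝ) := by exact_mod_cast h1
      have h5 : (0 : ℝ) < ((avoid A (insert j S)).card : ℝ) := by
        have := mul_le_mul_of_nonneg_right hpj h4.le
        nlinarith
      exact_mod_cast h5
  obtain ⟨ω, hω⟩ := Finset.card_pos.1 (key B (Finset.Subset.refl _))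
  exact ⟨ω, mem_avoid.1 hω⟩

/-- Switching one value of a permutation. -/
lemma swap_count {α : Type*} [Fintype α] [DecidableEq α] (𝒜 : Finset (Equiv.Perm α)) (x y : α)
    (Z : Finset α) (h : ∀ z ∈ Z, ∀ π ∈ 𝒜, π x = y → Equiv.swap y z * π ∈ 𝒜) :
    Z.card * (𝒜.filter (fun π => π x = y)).card ≤ 𝒜.card := by
  rw [← Finset.card_product]
  apply Finset.card_le_card_of_injOn (fun q => Equiv.swap y q.1 * q.2)
  · intro q hq
    simp only [Finset.coe_product, Set.mem_prod, Finset.mem_coe, Finset.mem_filter] at hq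
    exact h q.1 hq.1 q.2 hq.2.1 hq.2.2
  · rintro ⟨z, π⟩ hq ⟨z', π'⟩ hq' heq
    simp only [Finset.coe_product, Set.mem_prod, Finset.mem_coe, Finset.mem_filter] at hq hq'
    simp only at heq
    have e1 := congrArg (fun σ : Equiv.Perm α => σ x) heq
    simp only [Equiv.Perm.coe_mul, Function.comp_apply, hq.2.2, hq'.2.2,
      Equiv.swap_apply_left] at e1
    subst e1
    have e2 := mul_left_cancel heq
    rw [e2]

end Pool.Agent.H66.HW
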