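import Mathlib
import Pool.Agent.H66.HW.LLL

/-!
A permutation avoiding a locally sparse family of prescribed values and pairs of values (helper66).
-/

set_option autoImplicit false

namespace Pool.Agent.H66.HW

open Finset

section

variable {α : Type*}

/-- The events: one prescribed value, or two. -/
abbrev Ev (α : Type*) : Type _ := (α × α) ⊕ ((α × α) × (α × α))

/-- The point `a` is one of the arguments of the event. -/
def tl (a : α) : Ev α → Prop
  | Sum.inl e => e.1 = a
  | Sum.inr e => e.1.1 = a ∨ e.2.1 = a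

/-- The point `b` is one of the values of the event. -/
def tr (b : α) : Ev α → Prop
  | Sum.inl e => e.2 = b
  | Sum.inr e => e.1.2 = b ∨ e.2.2 = b

/-- Two events touch. -/
def tch : Ev α → Ev α → Prop
  | Sum.inl e, f => tl e.1 f ∨ tr e.2 f
  | Sum.inr e, f => (tl e.1.1 f ∨ tr e.1.2 f) ∨ (tl e.2.1 f ∨ tr e.2.2 f)

/-- The permutations for which the event holds. -/
def evSet [Fintype α] [DecidableEq α] : Ev α → Finset (Equiv.Perm α)
  | Sum.inl e => univ.filter (fun π => π e.1 = e.2)
  | Sum.inr e => univ.filter (fun π => π e.1.1 = e.1.2 ∧ π e.2.1 = e.2.2)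

/-- The weights. -/
noncomputable def wt [Fintype α] : Ev α → ℝ
  | Sum.inl _ => 1 / (Fintype.card α : ℝ)
  | Sum.inr _ => 1 / ((Fintype.card α : ℝ) * ((Fintype.card α : ℝ) - 1))

lemma tch_self (e : Ev α) : tch e e := by
  rcases e with e | e
  · left; rfl
  · left; left; left; rfl

/-- Switching the value at `x` from `y` to `z` does not create an event away from `x` and `y`. -/
lemma swap_mem_avoid [Fintype α] [DecidableEq α] {S : Finset (Ev α)} {x y z : α}
    {π : Equiv.Perm α} (hπ : π ∈ avoid (evSet (α := α)) S) (hxy : π x = y)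
    (hl : ∀ e ∈ S, ¬ tl x e) (hr : ∀ e ∈ S, ¬ tr y e) :
    Equiv.swap y z * π ∈ avoid (evSet (α := α)) S := by
  have key : ∀ u v, u ≠ x → v ≠ y → (Equiv.swap y z * π) u = v → π u = v := by
    intro u v hu hv h
    rw [Equiv.Perm.coe_mul, Function.comp_apply] at h
    have hne : π u ≠ y := by
      intro h'
      exact hu (π.injective (h'.trans hxy.symm))
    by_cases hz : π u = z
    · rw [hz, Equiv.swap_apply_right] at h
      exact absurd h.symm hv
    · rwa [Equiv.swap_apply_of_ne_of_ne hne hz] at h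
  rw [mem_avoid] at hπ ⊢
  intro e he hmem
  have h1 := hl e he
  have h2 := hr e he
  have h3 := hπ e he
  rcases e with e | e
  · simp only [tl, tr, evSet, Finset.mem_filter, Finset.mem_univ, true_and] at h1 h2 h3 hmem
    exact h3 (key _ _ h1 h2 hmem)
  · simp only [tl, tr, evSet, Finset.mem_filter, Finset.mem_univ, true_and, not_or] at h1 h2 h3 hmem
    exact h3 ⟨key _ _ h1.1 h2.1 hmem.1, key _ _ h1.2 h2.2 hmem.2⟩

/-- The conditional probability of an event. -/
lemma ev_bound [Fintype α] [DecidableEq α] (hcard : 2 ≤ Fintype.card α) (e : Ev α)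
    (he : ∀ p, e = Sum.inr p → p.1.1 ≠ p.2.1 ∧ p.1.2 ≠ p.2.2)
    (S : Finset (Ev α)) (hS : ∀ f ∈ S, ¬ tch e f) :
    ((evSet e ∩ avoid (evSet (α := α)) S).card : ℝ) ≤
      wt e * ((avoid (evSet (α := α)) S).card : ℝ) := by
  have hm : (2 : ℝ) ≤ (Fintype.card α : ℝ) := by exact_mod_cast hcard
  rcases e with e | e
  · have h := swap_count (avoid (evSet (α := α)) S) e.1 e.2 univ (by
      intro z _ π hπ hxy
      exact swap_mem_avoid hπ hxy (fun f hf h => hS f hf (Or.inl h))
        (fun f hf h => hS f hf (Or.inr h)))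
    have heq : evSet (Sum.inl e) ∩ avoid (evSet (α := α)) S =
        (avoid (evSet (α := α)) S).filter (fun π => π e.1 = e.2) := by
      ext π
      simp only [evSet, Finset.mem_inter, Finset.mem_filter, Finset.mem_univ, true_and]
      exact and_comm
    rw [heq]
    rw [Finset.card_univ] at h
    have h' : (Fintype.card α : ℝ) *
        (((avoid (evSet (α := α)) S).filter (fun π => π e.1 = e.2)).card : ℝ) ≤
        ((avoid (evSet (α := α)) S).card : ℝ) := by exact_mod_cast h
    simp only [wt]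
    rw [one_div, inv_mul_eq_div, le_div_iff₀ (by linarith)]
    linarith
  · obtain ⟨hne1, hne2⟩ := he e rfl
    set 𝒜 := avoid (evSet (α := α)) S with h𝒜
    set 𝒜1 := 𝒜.filter (fun π => π e.2.1 = e.2.2) with h𝒜1
    have h1 := swap_count 𝒜 e.2.1 e.2.2 univ (by
      intro z _ π hπ hxy
      exact swap_mem_avoid hπ hxy (fun f hf h => hS f hf (Or.inr (Or.inl h)))
        (fun f hf h => hS f hf (Or.inr (Or.inr h))))
    have h2 := swap_count 𝒜1 e.1.1 e.1.2 (univ.erase e.2.2) (by
      intro z hz π hπ hxy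
      have hz' : z ≠ e.2.2 := (Finset.mem_erase.1 hz).1
      rw [h𝒜1, Finset.mem_filter] at hπ ⊢
      refine ⟨swap_mem_avoid hπ.1 hxy (fun f hf h => hS f hf (Or.inl (Or.inl h)))
        (fun f hf h => hS f hf (Or.inl (Or.inr h))), ?_⟩
      rw [Equiv.Perm.coe_mul, Function.comp_apply, hπ.2]
      exact Equiv.swap_apply_of_ne_of_ne hne2.symm hz'.symm)
    rw [Finset.card_univ] at h1
    rw [Finset.card_erase_of_mem (Finset.mem_univ _), Finset.card_univ] at h2
    have heq : evSet (Sum.inr e) ∩ 𝒜 = 𝒜1.filter (fun π => π e.1.1 = e.1.2) := by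
      ext π
      simp only [evSet, h𝒜1, Finset.mem_inter, Finset.mem_filter, Finset.mem_univ, true_and]
      tauto
    rw [heq]
    have h1' : (Fintype.card α : ℝ) * (𝒜1.card : ℝ) ≤ (𝒜.card : ℝ) := by exact_mod_cast h1
    have h2' : ((Fintype.card α : ℝ) - 1) *
        ((𝒜1.filter (fun π => π e.1.1 = e.1.2)).card : ℝ) ≤ (𝒜1.card : ℝ) := by
      have h3 : ((Fintype.card α - 1 : ℕ) : ℝ) = (Fintype.card α : ℝ) - 1 := by
        rw [Nat.cast_sub (by omega)]
        simp
      rw [← h3]
      exact_mod_cast h2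
    simp only [wt]
    have hpos : (0 : ℝ) < (Fintype.card α : ℝ) * ((Fintype.card α : ℝ) - 1) := by
      apply mul_pos <;> linarith
    rw [one_div, inv_mul_eq_div, le_div_iff₀ hpos]
    have h4 := mul_le_mul_of_nonneg_left h2' (by linarith : (0 : ℝ) ≤ (Fintype.card α : ℝ))
    nlinarith

lemma wt_nonneg [Fintype α] (hcard : 2 ≤ Fintype.card α) (e : Ev α) : 0 ≤ wt e := by
  have hm : (2 : ℝ) ≤ (Fintype.card α : ℝ) := by exact_mod_cast hcard
  rcases e with e | e
  · simp only [wt]
    positivity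
  · simp only [wt]
    apply div_nonneg zero_le_one
    apply mul_nonneg <;> linarith

/-- A permutation avoiding the single values in `B1` and the pairs of values in `B2`. -/
theorem perm_avoid [Fintype α] [DecidableEq α] (hcard : 2 ≤ Fintype.card α)
    (B1 : Finset (α × α)) (B2 : Finset ((α × α) × (α × α)))
    (h2 : ∀ e ∈ B2, e.1.1 ≠ e.2.1 ∧ e.1.2 ≠ e.2.2)
    (hleft : ∀ a, ((B1.filter (fun e => e.1 = a)).card : ℝ) * (1 / (Fintype.card α : ℝ)) +
      ((B2.filter (fun e => e.1.1 = a ∨ e.2.1 = a)).card : ℝ) *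
        (1 / ((Fintype.card α : ℝ) * ((Fintype.card α : ℝ) - 1))) ≤ 1 / 16)
    (hright : ∀ b, ((B1.filter (fun e => e.2 = b)).card : ℝ) * (1 / (Fintype.card α : ℝ)) +
      ((B2.filter (fun e => e.1.2 = b ∨ e.2.2 = b)).card : ℝ) *
        (1 / ((Fintype.card α : ℝ) * ((Fintype.card α : ℝ) - 1))) ≤ 1 / 16) :
    ∃ π : Equiv.Perm α, (∀ e ∈ B1, π e.1 ≠ e.2) ∧
      ∀ e ∈ B2, ¬ (π e.1.1 = e.1.2 ∧ π e.2.1 = e.2.2) := by
  classical
  set B : Finset (Ev α) := B1.disjSum B2 with hB
  let F : (Ev α → Prop) → ℝ := fun P => ∑ j ∈ B.filter (fun j => P j), wt j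
  have hl : ∀ a, F (fun j => tl a j) ≤ 1 / 16 := by
    intro a
    refine le_trans (le_of_eq ?_) (hleft a)
    simp only [F]
    rw [Finset.sum_filter, hB, Finset.sum_disjSum, ← Finset.sum_filter, ← Finset.sum_filter]
    simp only [tl, wt, Finset.sum_const, nsmul_eq_mul]
  have hr : ∀ b, F (fun j => tr b j) ≤ 1 / 16 := by
    intro b
    refine le_trans (le_of_eq ?_) (hright b)
    simp only [F]
    rw [Finset.sum_filter, hB, Finset.sum_disjSum, ← Finset.sum_filter, ← Finset.sum_filter]
    simp only [tr, wt, Finset.sum_const, nsmul_eq_mul]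
  have hor : ∀ (P Q : Ev α → Prop), F (fun j => P j ∨ Q j) ≤ F P + F Q := by
    intro P Q
    have h1 : B.filter (fun j => P j ∨ Q j) = B.filter P ∪ B.filter Q := by
      ext j
      simp only [Finset.mem_filter, Finset.mem_union]
      tauto
    simp only [F]
    rw [h1]
    have := Finset.sum_union_inter (s₁ := B.filter P) (s₂ := B.filter Q) (f := wt)
    have h0 : 0 ≤ ∑ j ∈ B.filter P ∩ B.filter Q, wt j :=
      Finset.sum_nonneg (fun j _ => wt_nonneg hcard j)
    linarith
  have hne : Nonempty (Equiv.Perm α) := ⟨1⟩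
  obtain ⟨π, hπ⟩ := lll (evSet (α := α)) B (fun i j => tch i j) wt (wt_nonneg hcard) tch_self (by
      intro i hi
      have hF : F (fun j => tch i j) ≤ 1 / 4 := by
        rcases i with e | e
        · have h := hor (fun j => tl e.1 j) (fun j => tr e.2 j)
          have h1 := hl e.1
          have h3 := hr e.2
          have heq : F (fun j => tch (Sum.inl e) j) = F (fun j => tl e.1 j ∨ tr e.2 j) := rfl
          rw [heq]
          linarith
        · have h := hor (fun j => tl e.1.1 j ∨ tr e.1.2 j) (fun j => tl e.2.1 j ∨ tr e.2.2 j)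
          have h' := hor (fun j => tl e.1.1 j) (fun j => tr e.1.2 j)
          have h'' := hor (fun j => tl e.2.1 j) (fun j => tr e.2.2 j)
          have h1 := hl e.1.1
          have h3 := hr e.1.2
          have h4 := hl e.2.1
          have h5 := hr e.2.2
          have heq : F (fun j => tch (Sum.inr e) j) =
              F (fun j => (tl e.1.1 j ∨ tr e.1.2 j) ∨ (tl e.2.1 j ∨ tr e.2.2 j)) := rfl
          rw [heq]
          linarith
      refine le_trans (le_of_eq ?_) hF
      exact Finset.sum_congr (by ext j; simp only [Finset.mem_filter]) (fun _ _ => rfl)) (by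
      intro i hi S hS hSi
      refine ev_bound hcard i ?_ S hSi
      rintro p rfl
      rw [hB] at hi
      exact h2 p (Finset.inr_mem_disjSum.1 hi))
  refine ⟨π, ?_, ?_⟩
  · intro e he h
    refine hπ (Sum.inl e) (Finset.inl_mem_disjSum.2 he) ?_
    simp [evSet, h]
  · intro e he h
    refine hπ (Sum.inr e) (Finset.inr_mem_disjSum.2 he) ?_
    simp [evSet, h]

end

end Pool.Agent.H66.HW
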