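import Mathlib
import Pool.Agent.H66.HW.Perm

/-!
A random pairing in a sparse graph: no pair is an edge, and no two pairs span a complete
bipartite graph (helper66).
-/

set_option autoImplicit false

namespace Pool.Agent.H66.HW

open Finset

section

variable {V : Type*} [Fintype V]

/-- The number of common neighbours. -/
def cod (H : V → V → Prop) [DecidableRel H] (u v : V) : ℕ :=
  (univ.filter (fun w => H u w ∧ H v w)).card

lemma cod_comm (H : V → V → Prop) [DecidableRel H] (u v : V) : cod H u v = cod H v u := by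
  unfold cod
  congr 1
  ext w
  simp only [Finset.mem_filter, Finset.mem_univ, true_and]
  exact and_comm

lemma card_preim_le (H : V → V → Prop) [DecidableRel H] (hsymm : ∀ u v, H u v → H v u) {d : ℕ}
    (hd : ∀ v, (univ.filter (fun w => H v w)).card ≤ d) {β : Type*} (S : Finset β) (f : β → V)
    (hf : Set.InjOn f (S : Set β)) (w : V) : (S.filter (fun b => H (f b) w)).card ≤ d := by
  refine le_trans ?_ (hd w)
  apply Finset.card_le_card_of_injOn f
  · intro b hb
    simp only [Finset.coe_filter, Set.mem_ofPred_eq] at hb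
    simp only [Finset.coe_filter, Finset.mem_univ, true_and, Set.mem_ofPred_eq]
    exact hsymm _ _ hb.2
  · intro b hb c hc h
    simp only [Finset.coe_filter, Set.mem_ofPred_eq] at hb hc
    exact hf hb.1 hc.1 h

lemma sum_cod_le (H : V → V → Prop) [DecidableRel H] (hsymm : ∀ u v, H u v → H v u) {d : ℕ}
    (hd : ∀ v, (univ.filter (fun w => H v w)).card ≤ d) {β : Type*} (S : Finset β) (f : β → V)
    (hf : Set.InjOn f (S : Set β)) (u : V) : ∑ b ∈ S, cod H u (f b) ≤ d * d := by
  classical
  have h1 : ∑ b ∈ S, cod H u (f b) =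
      ∑ b ∈ S, ((univ.filter (fun w => H u w)).filter (fun w => H (f b) w)).card := by
    apply Finset.sum_congr rfl
    intro b _
    unfold cod
    rw [Finset.filter_filter]
  have h2 := Finset.sum_card_bipartiteAbove_eq_sum_card_bipartiteBelow
    (s := S) (t := univ.filter (fun w => H u w)) (fun b w => H (f b) w)
  unfold Finset.bipartiteAbove Finset.bipartiteBelow at h2
  rw [h1, h2]
  calc ∑ w ∈ univ.filter (fun w => H u w), (S.filter (fun b => H (f b) w)).card
      ≤ ∑ _w ∈ univ.filter (fun w => H u w), d :=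
        Finset.sum_le_sum (fun w _ => card_preim_le H hsymm hd S f hf w)
    _ = (univ.filter (fun w => H u w)).card * d := by rw [Finset.sum_const, smul_eq_mul]
    _ ≤ d * d := Nat.mul_le_mul_right _ (hd u)

lemma markov_count {β : Type*} (S : Finset β) (g : β → ℕ) {d m : ℕ} (hm : 0 < m)
    (hg : ∑ b ∈ S, g b ≤ d * d) :
    ((S.filter (fun b => 48 * (d : ℝ) ^ 2 / m < (g b : ℝ))).card : ℝ) ≤ (m : ℝ) / 48 := by
  classical
  have hm' : (0 : ℝ) < m := by exact_mod_cast hm
  set F := S.filter (fun b => 48 * (d : ℝ) ^ 2 / m < (g b : ℝ)) with hF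
  have h1 : (F.card : ℝ) * (48 * (d : ℝ) ^ 2 / m) ≤ ∑ b ∈ F, (g b : ℝ) := by
    rw [← nsmul_eq_mul]
    apply Finset.card_nsmul_le_sum
    intro b hb
    exact (Finset.mem_filter.1 hb).2.le
  have h2 : ∑ b ∈ F, (g b : ℝ) ≤ (d : ℝ) * d := by
    have h3 : ∑ b ∈ F, g b ≤ d * d :=
      (Finset.sum_le_sum_of_subset (Finset.filter_subset _ _)).trans hg
    exact_mod_cast h3
  rcases Nat.eq_zero_or_pos d with rfl | hpos
  · have hempty : F = ∅ := by
      rw [Finset.eq_empty_iff_forall_notMem]
      intro b hb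
      have h4 := (Finset.mem_filter.1 hb).2
      have h5 : g b = 0 := by
        have h6 := (Finset.single_le_sum (f := g) (fun i _ => Nat.zero_le _)
          (Finset.mem_filter.1 hb).1).trans hg
        omega
      rw [h5] at h4
      simp at h4
    rw [hempty]
    simp
    positivity
  · have hd' : (0 : ℝ) < d := by exact_mod_cast hpos
    have h4 : (F.card : ℝ) * (48 * (d : ℝ) ^ 2 / m) ≤ (d : ℝ) ^ 2 :=
      (h1.trans h2).trans (le_of_eq (sq _).symm)
    have h5 : (F.card : ℝ) * (48 * (d : ℝ) ^ 2 / m) = (F.card * 48 / m) * (d : ℝ) ^ 2 := by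
      field_simp
    rw [h5] at h4
    have h6 : (F.card : ℝ) * 48 / m ≤ 1 := by
      by_contra hcon
      push Not at hcon
      have : (d : ℝ) ^ 2 < (F.card * 48 / m) * (d : ℝ) ^ 2 := by
        have hd2 : (0 : ℝ) < (d : ℝ) ^ 2 := by positivity
        nlinarith
      linarith
    rw [div_le_one hm'] at h6
    linarith

lemma sq_count {β : Type*} (S : Finset β) (g : β → ℕ) {d : ℕ} (r : ℝ) (hr : 0 ≤ r)
    (hg : ∑ b ∈ S, g b ≤ d * d) :
    ∑ b ∈ S.filter (fun b => (g b : ℝ) ≤ r), ((g b : ℝ) * (g b : ℝ)) ≤ r * (d : ℝ) ^ 2 := by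
  classical
  calc ∑ b ∈ S.filter (fun b => (g b : ℝ) ≤ r), ((g b : ℝ) * (g b : ℝ))
      ≤ ∑ b ∈ S.filter (fun b => (g b : ℝ) ≤ r), r * (g b : ℝ) := by
        apply Finset.sum_le_sum
        intro b hb
        exact mul_le_mul_of_nonneg_right (Finset.mem_filter.1 hb).2 (Nat.cast_nonneg _)
    _ = r * ∑ b ∈ S.filter (fun b => (g b : ℝ) ≤ r), (g b : ℝ) := by rw [Finset.mul_sum]
    _ ≤ r * (d : ℝ) ^ 2 := by
        apply mul_le_mul_of_nonneg_left _ hr
        have h3 : ∑ b ∈ S.filter (fun b => (g b : ℝ) ≤ r), g b ≤ d * d :=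
          (Finset.sum_le_sum_of_subset (Finset.filter_subset _ _)).trans hg
        rw [sq]
        exact_mod_cast h3

/-- The pairs completing a given pair to a complete bipartite graph. -/
lemma pair_fiber (H : V → V → Prop) [DecidableRel H] {m : ℕ} (X : Finset (Fin m))
    (L R : Fin m → V) (hL : Set.InjOn L (X : Set (Fin m))) (hR : Function.Injective R)
    (u v : V) :
    (univ.filter (fun q : Fin m × Fin m => q.1 ∈ X ∧ H u (L q.1) ∧ H u (R q.2) ∧
      H v (L q.1) ∧ H v (R q.2))).card ≤ cod H u v * cod H u v := by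
  classical
  have h1 : (univ.filter (fun q : Fin m × Fin m => q.1 ∈ X ∧ H u (L q.1) ∧ H u (R q.2) ∧
      H v (L q.1) ∧ H v (R q.2))) =
      (X.filter (fun a => H u (L a) ∧ H v (L a))) ×ˢ
      (univ.filter (fun b => H u (R b) ∧ H v (R b))) := by
    ext q
    simp only [Finset.mem_filter, Finset.mem_univ, true_and, Finset.mem_product]
    tauto
  rw [h1, Finset.card_product]
  apply Nat.mul_le_mul
  · unfold cod
    apply Finset.card_le_card_of_injOn L
    · intro a ha
      simp only [Finset.coe_filter, Set.mem_ofPred_eq] at ha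
      simp only [Finset.coe_filter, Finset.mem_univ, true_and, Set.mem_ofPred_eq]
      exact ha.2
    · intro a ha b hb h
      simp only [Finset.coe_filter, Set.mem_ofPred_eq] at ha hb
      exact hL ha.1 hb.1 h
  · unfold cod
    apply Finset.card_le_card_of_injOn R
    · intro a ha
      simp only [Finset.coe_filter, Finset.mem_univ, true_and, Set.mem_ofPred_eq] at ha
      simp only [Finset.coe_filter, Finset.mem_univ, true_and, Set.mem_ofPred_eq]
      exact ha
    · intro a _ b _ h
      exact hR h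

/-- The sparse pairing lemma. -/
theorem pairing {m : ℕ} (H : V → V → Prop) [DecidableRel H] (hsymm : ∀ u v, H u v → H v u)
    (d : ℕ) (hd : ∀ v, (univ.filter (fun w => H v w)).card ≤ d)
    (X : Finset (Fin m)) (L R : Fin m → V) (hL : Set.InjOn L (X : Set (Fin m)))
    (hR : Function.Injective R) (T : Fin m → Fin m → Prop) [DecidableRel T]
    (hT1 : ∀ a ∈ X, (univ.filter (fun b => T a b)).card ≤ d)
    (hT2 : ∀ b, (X.filter (fun a => T a b)).card ≤ d)
    (hm : 2 ≤ m) (h1 : 83 * d ≤ m)
    (h2 : 2744 * (d : ℝ) ^ 4 ≤ (m : ℝ) ^ 2 * ((m : ℝ) - 1)) :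
    ∃ π : Equiv.Perm (Fin m), (∀ a ∈ X, ¬ H (L a) (R (π a)) ∧ ¬ T a (π a)) ∧
      ∀ a ∈ X, ∀ a' ∈ X, a ≠ a' →
        ¬ (H (L a) (L a') ∧ H (L a) (R (π a')) ∧ H (R (π a)) (L a') ∧
          H (R (π a)) (R (π a'))) := by
  classical
  have hm' : (2 : ℝ) ≤ m := by exact_mod_cast hm
  have hmpos : (0 : ℝ) < m := by linarith
  set r : ℝ := 48 * (d : ℝ) ^ 2 / m with hr
  have hr0 : 0 ≤ r := by positivity
  set B1 : Finset (Fin m × Fin m) := univ.filter (fun e => e.1 ∈ X ∧
    (H (L e.1) (R e.2) ∨ T e.1 e.2 ∨ r < (cod H (L e.1) (R e.2) : ℝ))) with hB1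
  set W : Finset ((Fin m × Fin m) × (Fin m × Fin m)) := univ.filter (fun e =>
    e.1.1 ∈ X ∧ (cod H (L e.1.1) (R e.1.2) : ℝ) ≤ r ∧
    (e.2.1 ∈ X ∧ H (L e.1.1) (L e.2.1) ∧ H (L e.1.1) (R e.2.2) ∧
      H (R e.1.2) (L e.2.1) ∧ H (R e.1.2) (R e.2.2))) with hW
  set B2 : Finset ((Fin m × Fin m) × (Fin m × Fin m)) := univ.filter (fun e =>
    e ∈ W ∧ (cod H (L e.2.1) (R e.2.2) : ℝ) ≤ r ∧ e.1.1 < e.2.1 ∧ e.1.2 ≠ e.2.2) with hB2
  have hWsymm : ∀ p q, (p, q) ∈ W → (cod H (L q.1) (R q.2) : ℝ) ≤ r → (q, p) ∈ W := by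
    intro p q hpq hc
    simp only [hW, Finset.mem_filter, Finset.mem_univ, true_and] at hpq ⊢
    obtain ⟨a1, a2, a3, a4, a5, a6, a7⟩ := hpq
    exact ⟨a3, hc, a1, hsymm _ _ a4, hsymm _ _ a6, hsymm _ _ a5, hsymm _ _ a7⟩
  -- single events
  have hs1 : ∀ a, ((B1.filter (fun e => e.1 = a)).card : ℝ) ≤ 2 * d + m / 48 := by
    intro a
    by_cases ha : a ∈ X
    · have hle : (B1.filter (fun e => e.1 = a)).card ≤
          ((univ.filter (fun b => H (R b) (L a))) ∪ ((univ.filter (fun b => T a b)) ∪
            (univ.filter (fun b => r < (cod H (L a) (R b) : ℝ))))).card := by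
        apply Finset.card_le_card_of_injOn (fun e => e.2)
        · intro e he
          simp only [hB1, Finset.coe_filter, Finset.mem_filter, Finset.mem_univ, true_and,
            Set.mem_ofPred_eq] at he
          obtain ⟨⟨-, h⟩, rfl⟩ := he
          simp only [Finset.coe_union, Finset.coe_filter, Finset.mem_univ, true_and,
            Set.mem_union, Set.mem_ofPred_eq]
          rcases h with h | h | h
          · exact Or.inl (hsymm _ _ h)
          · exact Or.inr (Or.inl h)
          · exact Or.inr (Or.inr h)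
        · intro e he e' he' h
          simp only [Finset.coe_filter, Set.mem_ofPred_eq] at he he'
          exact Prod.ext (he.2.trans he'.2.symm) h
      have hu := hle.trans ((Finset.card_union_le _ _).trans (Nat.add_le_add_left
        (Finset.card_union_le _ _) _))
      have b1 := card_preim_le H hsymm hd univ R hR.injOn (L a)
      have b2 := hT1 a ha
      have b3 := markov_count univ (fun b => cod H (L a) (R b)) (m := m) (by omega)
        (sum_cod_le H hsymm hd univ R hR.injOn (L a))
      have hu' : ((B1.filter (fun e => e.1 = a)).card : ℝ) ≤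
          ((univ.filter (fun b => H (R b) (L a))).card : ℝ) +
          (((univ.filter (fun b => T a b)).card : ℝ) +
            ((univ.filter (fun b => r < (cod H (L a) (R b) : ℝ))).card : ℝ)) := by
        exact_mod_cast hu
      have b1' : ((univ.filter (fun b => H (R b) (L a))).card : ℝ) ≤ d := by exact_mod_cast b1
      have b2' : ((univ.filter (fun b => T a b)).card : ℝ) ≤ d := by exact_mod_cast b2
      linarith
    · have hempty : B1.filter (fun e => e.1 = a) = ∅ := by
        rw [Finset.eq_empty_iff_forall_notMem]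
        intro e he
        simp only [hB1, Finset.mem_filter, Finset.mem_univ, true_and] at he
        exact ha (he.2 ▸ he.1.1)
      rw [hempty]
      simp
      positivity
  have hs2 : ∀ b, ((B1.filter (fun e => e.2 = b)).card : ℝ) ≤ 2 * d + m / 48 := by
    intro b
    have hle : (B1.filter (fun e => e.2 = b)).card ≤
        ((X.filter (fun a => H (L a) (R b))) ∪ ((X.filter (fun a => T a b)) ∪
          (X.filter (fun a => r < (cod H (R b) (L a) : ℝ))))).card := by
      apply Finset.card_le_card_of_injOn (fun e => e.1)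
      · intro e he
        simp only [hB1, Finset.coe_filter, Finset.mem_filter, Finset.mem_univ, true_and,
          Set.mem_ofPred_eq] at he
        obtain ⟨⟨hX, h⟩, rfl⟩ := he
        simp only [Finset.coe_union, Finset.coe_filter,
          Set.mem_union, Set.mem_ofPred_eq]
        rcases h with h | h | h
        · exact Or.inl ⟨hX, h⟩
        · exact Or.inr (Or.inl ⟨hX, h⟩)
        · exact Or.inr (Or.inr ⟨hX, by rwa [cod_comm]⟩)
      · intro e he e' he' h
        simp only [Finset.coe_filter, Set.mem_ofPred_eq] at he he'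
        exact Prod.ext h (he.2.trans he'.2.symm)
    have hu := hle.trans ((Finset.card_union_le _ _).trans (Nat.add_le_add_left
      (Finset.card_union_le _ _) _))
    have b1 := card_preim_le H hsymm hd X L hL (R b)
    have b2 := hT2 b
    have b3 := markov_count X (fun a => cod H (R b) (L a)) (m := m) (by omega)
      (sum_cod_le H hsymm hd X L hL (R b))
    have hu' : ((B1.filter (fun e => e.2 = b)).card : ℝ) ≤
        ((X.filter (fun a => H (L a) (R b))).card : ℝ) +
        (((X.filter (fun a => T a b)).card : ℝ) +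
          ((X.filter (fun a => r < (cod H (R b) (L a) : ℝ))).card : ℝ)) := by
      exact_mod_cast hu
    have b1' : ((X.filter (fun a => H (L a) (R b))).card : ℝ) ≤ d := by exact_mod_cast b1
    have b2' : ((X.filter (fun a => T a b)).card : ℝ) ≤ d := by exact_mod_cast b2
    linarith
  -- double events
  have hd1 : ∀ a, ((B2.filter (fun e => e.1.1 = a ∨ e.2.1 = a)).card : ℝ) ≤ r * (d : ℝ) ^ 2 := by
    intro a
    have hle : (B2.filter (fun e => e.1.1 = a ∨ e.2.1 = a)).card ≤
        (W.filter (fun e => e.1.1 = a)).card := by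
      apply Finset.card_le_card_of_injOn (fun e => if e.1.1 = a then (e.1, e.2) else (e.2, e.1))
      · intro e he
        simp only [hB2, Finset.coe_filter, Finset.mem_filter, Finset.mem_univ, true_and,
          Set.mem_ofPred_eq] at he
        obtain ⟨⟨g1, g2, g3, g4⟩, g5⟩ := he
        simp only [Finset.coe_filter, Set.mem_ofPred_eq]
        by_cases hc : e.1.1 = a
        · rw [if_pos hc]
          exact ⟨g1, hc⟩
        · rw [if_neg hc]
          exact ⟨hWsymm _ _ g1 g2, g5.resolve_left hc⟩
      · intro e he e' he' h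
        simp only [hB2, Finset.coe_filter, Finset.mem_filter, Finset.mem_univ, true_and,
          Set.mem_ofPred_eq] at he he'
        obtain ⟨⟨-, -, g3, -⟩, g5⟩ := he
        obtain ⟨⟨-, -, g3', -⟩, g5'⟩ := he'
        simp only at h
        by_cases hc : e.1.1 = a <;> by_cases hc' : e'.1.1 = a
        · rw [if_pos hc, if_pos hc'] at h
          exact h
        · rw [if_pos hc, if_neg hc'] at h
          exfalso
          have e1 : e.1 = e'.2 := congrArg Prod.fst h
          have e2 : e.2 = e'.1 := congrArg Prod.snd h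
          rw [e1, e2] at g3
          exact absurd g3 (not_lt.2 g3'.le)
        · rw [if_neg hc, if_pos hc'] at h
          exfalso
          have e1 : e.2 = e'.1 := congrArg Prod.fst h
          have e2 : e.1 = e'.2 := congrArg Prod.snd h
          rw [e1, e2] at g3
          exact absurd g3 (not_lt.2 g3'.le)
        · rw [if_neg hc, if_neg hc'] at h
          exact Prod.ext (congrArg Prod.snd h) (congrArg Prod.fst h)
    have hfib : (W.filter (fun e => e.1.1 = a)).card =
        ∑ b ∈ univ.filter (fun b => (cod H (L a) (R b) : ℝ) ≤ r),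
          ((W.filter (fun e => e.1.1 = a)).filter (fun e => e.1.2 = b)).card := by
      apply Finset.card_eq_sum_card_fiberwise
      intro e he
      simp only [hW, Finset.coe_filter, Finset.mem_filter, Finset.mem_univ, true_and,
        Set.mem_ofPred_eq] at he
      obtain ⟨⟨-, g2, -⟩, rfl⟩ := he
      simp only [Finset.coe_filter, Finset.mem_univ, true_and, Set.mem_ofPred_eq]
      exact g2
    have hterm : ∀ b, ((W.filter (fun e => e.1.1 = a)).filter (fun e => e.1.2 = b)).card ≤
        cod H (L a) (R b) * cod H (L a) (R b) := by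
      intro b
      refine le_trans ?_ (pair_fiber H X L R hL hR (L a) (R b))
      apply Finset.card_le_card_of_injOn (fun e => e.2)
      · intro e he
        simp only [hW, Finset.coe_filter, Finset.mem_filter, Finset.mem_univ, true_and,
          Set.mem_ofPred_eq] at he
        obtain ⟨⟨⟨-, -, g⟩, rfl⟩, rfl⟩ := he
        simp only [Finset.coe_filter, Finset.mem_univ, true_and, Set.mem_ofPred_eq]
        exact g
      · intro e he e' he' h
        simp only [Finset.coe_filter, Finset.mem_filter, Set.mem_ofPred_eq] at he he'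
        exact Prod.ext (Prod.ext (he.1.2.trans he'.1.2.symm) (he.2.trans he'.2.symm)) h
    have h3 : (B2.filter (fun e => e.1.1 = a ∨ e.2.1 = a)).card ≤
        ∑ b ∈ univ.filter (fun b => (cod H (L a) (R b) : ℝ) ≤ r),
          cod H (L a) (R b) * cod H (L a) (R b) := by
      refine hle.trans (hfib.le.trans ?_)
      exact Finset.sum_le_sum (fun b _ => hterm b)
    have h4 := sq_count univ (fun b => cod H (L a) (R b)) r hr0
      (sum_cod_le H hsymm hd univ R hR.injOn (L a))
    refine le_trans ?_ h4
    exact_mod_cast h3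
  have hd2 : ∀ b, ((B2.filter (fun e => e.1.2 = b ∨ e.2.2 = b)).card : ℝ) ≤ r * (d : ℝ) ^ 2 := by
    intro b
    have hle : (B2.filter (fun e => e.1.2 = b ∨ e.2.2 = b)).card ≤
        (W.filter (fun e => e.1.2 = b)).card := by
      apply Finset.card_le_card_of_injOn (fun e => if e.1.2 = b then (e.1, e.2) else (e.2, e.1))
      · intro e he
        simp only [hB2, Finset.coe_filter, Finset.mem_filter, Finset.mem_univ, true_and,
          Set.mem_ofPred_eq] at he
        obtain ⟨⟨g1, g2, g3, g4⟩, g5⟩ := he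
        simp only [Finset.coe_filter, Set.mem_ofPred_eq]
        by_cases hc : e.1.2 = b
        · rw [if_pos hc]
          exact ⟨g1, hc⟩
        · rw [if_neg hc]
          exact ⟨hWsymm _ _ g1 g2, g5.resolve_left hc⟩
      · intro e he e' he' h
        simp only [hB2, Finset.coe_filter, Finset.mem_filter, Finset.mem_univ, true_and,
          Set.mem_ofPred_eq] at he he'
        obtain ⟨⟨-, -, g3, -⟩, g5⟩ := he
        obtain ⟨⟨-, -, g3', -⟩, g5'⟩ := he'
        simp only at h
        by_cases hc : e.1.2 = b <;> by_cases hc' : e'.1.2 = b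
        · rw [if_pos hc, if_pos hc'] at h
          exact h
        · rw [if_pos hc, if_neg hc'] at h
          exfalso
          have e1 : e.1 = e'.2 := congrArg Prod.fst h
          have e2 : e.2 = e'.1 := congrArg Prod.snd h
          rw [e1, e2] at g3
          exact absurd g3 (not_lt.2 g3'.le)
        · rw [if_neg hc, if_pos hc'] at h
          exfalso
          have e1 : e.2 = e'.1 := congrArg Prod.fst h
          have e2 : e.1 = e'.2 := congrArg Prod.snd h
          rw [e1, e2] at g3
          exact absurd g3 (not_lt.2 g3'.le)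
        · rw [if_neg hc, if_neg hc'] at h
          exact Prod.ext (congrArg Prod.snd h) (congrArg Prod.fst h)
    have hfib : (W.filter (fun e => e.1.2 = b)).card =
        ∑ a ∈ X.filter (fun a => (cod H (R b) (L a) : ℝ) ≤ r),
          ((W.filter (fun e => e.1.2 = b)).filter (fun e => e.1.1 = a)).card := by
      apply Finset.card_eq_sum_card_fiberwise
      intro e he
      simp only [hW, Finset.coe_filter, Finset.mem_filter, Finset.mem_univ, true_and,
        Set.mem_ofPred_eq] at he
      obtain ⟨⟨g1, g2, -⟩, rfl⟩ := he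
      simp only [Finset.coe_filter, Set.mem_ofPred_eq]
      exact ⟨g1, by rwa [cod_comm]⟩
    have hterm : ∀ a, ((W.filter (fun e => e.1.2 = b)).filter (fun e => e.1.1 = a)).card ≤
        cod H (R b) (L a) * cod H (R b) (L a) := by
      intro a
      rw [cod_comm H (R b) (L a)]
      refine le_trans ?_ (pair_fiber H X L R hL hR (L a) (R b))
      apply Finset.card_le_card_of_injOn (fun e => e.2)
      · intro e he
        simp only [hW, Finset.coe_filter, Finset.mem_filter, Finset.mem_univ, true_and,
          Set.mem_ofPred_eq] at he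
        obtain ⟨⟨⟨-, -, g⟩, rfl⟩, rfl⟩ := he
        simp only [Finset.coe_filter, Finset.mem_univ, true_and, Set.mem_ofPred_eq]
        exact g
      · intro e he e' he' h
        simp only [Finset.coe_filter, Finset.mem_filter, Set.mem_ofPred_eq] at he he'
        exact Prod.ext (Prod.ext (he.2.trans he'.2.symm) (he.1.2.trans he'.1.2.symm)) h
    have h3 : (B2.filter (fun e => e.1.2 = b ∨ e.2.2 = b)).card ≤
        ∑ a ∈ X.filter (fun a => (cod H (R b) (L a) : ℝ) ≤ r),
          cod H (R b) (L a) * cod H (R b) (L a) := by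
      refine hle.trans (hfib.le.trans ?_)
      exact Finset.sum_le_sum (fun a _ => hterm a)
    have h4 := sq_count X (fun a => cod H (R b) (L a)) r hr0
      (sum_cod_le H hsymm hd X L hL (R b))
    refine le_trans ?_ h4
    exact_mod_cast h3
  -- the numbers
  have hnum : ∀ s t : ℝ, s ≤ 2 * d + m / 48 → t ≤ r * (d : ℝ) ^ 2 →
      s * (1 / (Fintype.card (Fin m) : ℝ)) +
        t * (1 / ((Fintype.card (Fin m) : ℝ) * ((Fintype.card (Fin m) : ℝ) - 1))) ≤ 1 / 16 := by
    intro s t hs ht
    rw [Fintype.card_fin]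
    have hm1 : (0 : ℝ) < (m : ℝ) - 1 := by linarith
    have hdm : 83 * (d : ℝ) ≤ m := by exact_mod_cast h1
    have e1 : s * (1 / (m : ℝ)) ≤ 2 / 83 + 1 / 48 := by
      rw [mul_one_div, div_le_iff₀ hmpos]
      nlinarith
    have e2 : t * (1 / ((m : ℝ) * ((m : ℝ) - 1))) ≤ 48 / 2744 := by
      rw [mul_one_div, div_le_iff₀ (mul_pos hmpos hm1)]
      refine ht.trans ?_
      rw [hr, div_mul_eq_mul_div, div_le_iff₀ hmpos]
      nlinarith
    norm_num at e1 e2 ⊢
    linarith
  obtain ⟨π, hπ1, hπ2⟩ := perm_avoid (by rw [Fintype.card_fin]; exact hm) B1 B2 (by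
      intro e he
      simp only [hB2, Finset.mem_filter, Finset.mem_univ, true_and] at he
      exact ⟨he.2.2.1.ne, he.2.2.2⟩)
    (fun a => hnum _ _ (hs1 a) (hd1 a)) (fun b => hnum _ _ (hs2 b) (hd2 b))
  have hsing : ∀ a ∈ X, ¬ H (L a) (R (π a)) ∧ ¬ T a (π a) ∧
      (cod H (L a) (R (π a)) : ℝ) ≤ r := by
    intro a ha
    by_contra hcon
    refine hπ1 (a, π a) ?_ rfl
    simp only [hB1, Finset.mem_filter, Finset.mem_univ, true_and]
    refine ⟨ha, ?_⟩
    by_contra hc
    push Not at hc
    exact hcon ⟨hc.1, hc.2.1, hc.2.2⟩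
  refine ⟨π, fun a ha => ⟨(hsing a ha).1, (hsing a ha).2.1⟩, ?_⟩
  have key : ∀ a ∈ X, ∀ a' ∈ X, a < a' →
        ¬ (H (L a) (L a') ∧ H (L a) (R (π a')) ∧ H (R (π a)) (L a') ∧
          H (R (π a)) (R (π a'))) := by
    rintro a ha a' ha' hlt ⟨g1, g2, g3, g4⟩
    refine hπ2 ((a, π a), (a', π a')) ?_ ⟨rfl, rfl⟩
    simp only [hB2, hW, Finset.mem_filter, Finset.mem_univ, true_and]
    refine ⟨⟨ha, (hsing a ha).2.2, ha', g1, g2, g3, g4⟩, (hsing a' ha').2.2, hlt, ?_⟩
    intro h
    exact hlt.ne (π.injective h)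
  intro a ha a' ha' hne
  rcases lt_or_gt_of_ne hne with h | h
  · exact key a ha a' ha' h
  · rintro ⟨g1, g2, g3, g4⟩
    exact key a' ha' a ha h ⟨hsymm _ _ g1, hsymm _ _ g3, hsymm _ _ g2, hsymm _ _ g4⟩

end

end Pool.Agent.H66.HW
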