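import Mathlib
import Pool.Agent.H66.HW.Pairing

/-!
The pairing lemma with general bounds (helper66).
-/

set_option autoImplicit false

namespace Pool.Agent.H66.HW

open Finset

section

variable {V : Type*} [Fintype V]

/-- The pairing lemma with general bounds. -/
theorem pairing_gen {m : ℕ} (H : V → V → Prop) [DecidableRel H] (hsymm : ∀ u v, H u v → H v u)
    (L R : Fin m → V) (hL : Function.Injective L) (hR : Function.Injective R)
    (T : Fin m → Fin m → Prop) [DecidableRel T] (r : ℕ) (P Wt : ℝ)
    (hP1 : ∀ a, ((univ.filter (fun b => H (L a) (R b) ∨ T a b ∨ r < cod H (L a) (R b))).card : ℝ)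
      ≤ P)
    (hP2 : ∀ b, ((univ.filter (fun a => H (L a) (R b) ∨ T a b ∨ r < cod H (L a) (R b))).card : ℝ)
      ≤ P)
    (hW1 : ∀ a, ((∑ b ∈ univ.filter (fun b => cod H (L a) (R b) ≤ r),
      cod H (L a) (R b) * cod H (L a) (R b) : ℕ) : ℝ) ≤ Wt)
    (hW2 : ∀ b, ((∑ a ∈ univ.filter (fun a => cod H (L a) (R b) ≤ r),
      cod H (L a) (R b) * cod H (L a) (R b) : ℕ) : ℝ) ≤ Wt)
    (hm : 2 ≤ m) (hnum : P / m + Wt / ((m : ℝ) * ((m : ℝ) - 1)) ≤ 1 / 16) :
    ∃ π : Equiv.Perm (Fin m), (∀ a, ¬ H (L a) (R (π a)) ∧ ¬ T a (π a)) ∧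
      ∀ a a', a ≠ a' →
        ¬ (H (L a) (L a') ∧ H (L a) (R (π a')) ∧ H (R (π a)) (L a') ∧
          H (R (π a)) (R (π a'))) := by
  classical
  have hm' : (2 : ℝ) ≤ m := by exact_mod_cast hm
  have hmpos : (0 : ℝ) < m := by linarith
  set B1 : Finset (Fin m × Fin m) := univ.filter (fun e =>
    (H (L e.1) (R e.2) ∨ T e.1 e.2 ∨ r < cod H (L e.1) (R e.2))) with hB1
  set W : Finset ((Fin m × Fin m) × (Fin m × Fin m)) := univ.filter (fun e =>
    cod H (L e.1.1) (R e.1.2) ≤ r ∧
    (H (L e.1.1) (L e.2.1) ∧ H (L e.1.1) (R e.2.2) ∧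
      H (R e.1.2) (L e.2.1) ∧ H (R e.1.2) (R e.2.2))) with hW
  set B2 : Finset ((Fin m × Fin m) × (Fin m × Fin m)) := univ.filter (fun e =>
    e ∈ W ∧ cod H (L e.2.1) (R e.2.2) ≤ r ∧ e.1.1 < e.2.1 ∧ e.1.2 ≠ e.2.2) with hB2
  have hWsymm : ∀ p q, (p, q) ∈ W → cod H (L q.1) (R q.2) ≤ r → (q, p) ∈ W := by
    intro p q hpq hc
    simp only [hW, Finset.mem_filter, Finset.mem_univ, true_and] at hpq ⊢
    obtain ⟨a2, a4, a5, a6, a7⟩ := hpq
    exact ⟨hc, hsymm _ _ a4, hsymm _ _ a6, hsymm _ _ a5, hsymm _ _ a7⟩
  -- single events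
  have hs1 : ∀ a, ((B1.filter (fun e => e.1 = a)).card : ℝ) ≤ P := by
    intro a
    refine le_trans ?_ (hP1 a)
    have hle : (B1.filter (fun e => e.1 = a)).card ≤
        (univ.filter (fun b => H (L a) (R b) ∨ T a b ∨ r < cod H (L a) (R b))).card := by
      apply Finset.card_le_card_of_injOn (fun e => e.2)
      · intro e he
        simp only [hB1, Finset.coe_filter, Finset.mem_filter, Finset.mem_univ, true_and,
          Set.mem_ofPred_eq] at he
        obtain ⟨h, rfl⟩ := he
        simp only [Finset.coe_filter, Finset.mem_univ, true_and, Set.mem_ofPred_eq]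
        exact h
      · intro e he e' he' h
        simp only [Finset.coe_filter, Set.mem_ofPred_eq] at he he'
        exact Prod.ext (he.2.trans he'.2.symm) h
    exact_mod_cast hle
  have hs2 : ∀ b, ((B1.filter (fun e => e.2 = b)).card : ℝ) ≤ P := by
    intro b
    refine le_trans ?_ (hP2 b)
    have hle : (B1.filter (fun e => e.2 = b)).card ≤
        (univ.filter (fun a => H (L a) (R b) ∨ T a b ∨ r < cod H (L a) (R b))).card := by
      apply Finset.card_le_card_of_injOn (fun e => e.1)
      · intro e he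
        simp only [hB1, Finset.coe_filter, Finset.mem_filter, Finset.mem_univ, true_and,
          Set.mem_ofPred_eq] at he
        obtain ⟨h, rfl⟩ := he
        simp only [Finset.coe_filter, Finset.mem_univ, true_and, Set.mem_ofPred_eq]
        exact h
      · intro e he e' he' h
        simp only [Finset.coe_filter, Set.mem_ofPred_eq] at he he'
        exact Prod.ext h (he.2.trans he'.2.symm)
    exact_mod_cast hle
  -- double events
  have hd1 : ∀ a, ((B2.filter (fun e => e.1.1 = a ∨ e.2.1 = a)).card : ℝ) ≤ Wt := by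
    intro a
    have hle : (B2.filter (fun e => e.1.1 = a ∨ e.2.1 = a)).card ≤
        (W.filter (fun e => e.1.1 = a)).card := by
      apply Finset.card_le_card_of_injOn (fun e => if e.1.1 = a then (e.1, e.2) else (e.2, e.1))
      · intro e he
        simp only [hB2, Finset.coe_filter, Finset.mem_filter, Finset.mem_univ, true_and,
          Set.mem_ofPred_eq] at he
        obtain ⟨⟨g1, g2, g3, g4⟩, g5⟩ := he
        simp only [Finset.coe_filter, Set.mem_ofPred_eq]
        by_cases hc : e.1.1 = a
        · rw [if_pos hc]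
          exact ⟨g1, hc⟩
        · rw [if_neg hc]
          exact ⟨hWsymm _ _ g1 g2, g5.resolve_left hc⟩
      · intro e he e' he' h
        simp only [hB2, Finset.coe_filter, Finset.mem_filter, Finset.mem_univ, true_and,
          Set.mem_ofPred_eq] at he he'
        obtain ⟨⟨-, -, g3, -⟩, g5⟩ := he
        obtain ⟨⟨-, -, g3', -⟩, g5'⟩ := he'
        simp only at h
        by_cases hc : e.1.1 = a <;> by_cases hc' : e'.1.1 = a
        · rw [if_pos hc, if_pos hc'] at h
          exact h
        · rw [if_pos hc, if_neg hc'] at h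
          exfalso
          have e1 : e.1 = e'.2 := congrArg Prod.fst h
          have e2 : e.2 = e'.1 := congrArg Prod.snd h
          rw [e1, e2] at g3
          exact absurd g3 (not_lt.2 g3'.le)
        · rw [if_neg hc, if_pos hc'] at h
          exfalso
          have e1 : e.2 = e'.1 := congrArg Prod.fst h
          have e2 : e.1 = e'.2 := congrArg Prod.snd h
          rw [e1, e2] at g3
          exact absurd g3 (not_lt.2 g3'.le)
        · rw [if_neg hc, if_neg hc'] at h
          exact Prod.ext (congrArg Prod.snd h) (congrArg Prod.fst h)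
    have hfib : (W.filter (fun e => e.1.1 = a)).card =
        ∑ b ∈ univ.filter (fun b => cod H (L a) (R b) ≤ r),
          ((W.filter (fun e => e.1.1 = a)).filter (fun e => e.1.2 = b)).card := by
      apply Finset.card_eq_sum_card_fiberwise
      intro e he
      simp only [hW, Finset.coe_filter, Finset.mem_filter, Finset.mem_univ, true_and,
        Set.mem_ofPred_eq] at he
      obtain ⟨⟨g2, -⟩, rfl⟩ := he
      simp only [Finset.coe_filter, Finset.mem_univ, true_and, Set.mem_ofPred_eq]
      exact g2
    have hterm : ∀ b, ((W.filter (fun e => e.1.1 = a)).filter (fun e => e.1.2 = b)).card ≤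
        cod H (L a) (R b) * cod H (L a) (R b) := by
      intro b
      refine le_trans ?_ (pair_fiber H univ L R hL.injOn hR (L a) (R b))
      apply Finset.card_le_card_of_injOn (fun e => e.2)
      · intro e he
        simp only [hW, Finset.coe_filter, Finset.mem_filter, Finset.mem_univ, true_and,
          Set.mem_ofPred_eq] at he
        obtain ⟨⟨⟨-, g⟩, rfl⟩, rfl⟩ := he
        simp only [Finset.coe_filter, Finset.mem_univ, true_and, Set.mem_ofPred_eq]
        exact g
      · intro e he e' he' h
        simp only [Finset.coe_filter, Finset.mem_filter, Set.mem_ofPred_eq] at he he'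
        exact Prod.ext (Prod.ext (he.1.2.trans he'.1.2.symm) (he.2.trans he'.2.symm)) h
    have h3 : (B2.filter (fun e => e.1.1 = a ∨ e.2.1 = a)).card ≤
        ∑ b ∈ univ.filter (fun b => cod H (L a) (R b) ≤ r),
          cod H (L a) (R b) * cod H (L a) (R b) := by
      refine hle.trans (hfib.le.trans ?_)
      exact Finset.sum_le_sum (fun b _ => hterm b)
    refine le_trans ?_ (hW1 a)
    exact_mod_cast h3
  have hd2 : ∀ b, ((B2.filter (fun e => e.1.2 = b ∨ e.2.2 = b)).card : ℝ) ≤ Wt := by
    intro b
    have hle : (B2.filter (fun e => e.1.2 = b ∨ e.2.2 = b)).card ≤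
        (W.filter (fun e => e.1.2 = b)).card := by
      apply Finset.card_le_card_of_injOn (fun e => if e.1.2 = b then (e.1, e.2) else (e.2, e.1))
      · intro e he
        simp only [hB2, Finset.coe_filter, Finset.mem_filter, Finset.mem_univ, true_and,
          Set.mem_ofPred_eq] at he
        obtain ⟨⟨g1, g2, g3, g4⟩, g5⟩ := he
        simp only [Finset.coe_filter, Set.mem_ofPred_eq]
        by_cases hc : e.1.2 = b
        · rw [if_pos hc]
          exact ⟨g1, hc⟩
        · rw [if_neg hc]
          exact ⟨hWsymm _ _ g1 g2, g5.resolve_left hc⟩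
      · intro e he e' he' h
        simp only [hB2, Finset.coe_filter, Finset.mem_filter, Finset.mem_univ, true_and,
          Set.mem_ofPred_eq] at he he'
        obtain ⟨⟨-, -, g3, -⟩, g5⟩ := he
        obtain ⟨⟨-, -, g3', -⟩, g5'⟩ := he'
        simp only at h
        by_cases hc : e.1.2 = b <;> by_cases hc' : e'.1.2 = b
        · rw [if_pos hc, if_pos hc'] at h
          exact h
        · rw [if_pos hc, if_neg hc'] at h
          exfalso
          have e1 : e.1 = e'.2 := congrArg Prod.fst h
          have e2 : e.2 = e'.1 := congrArg Prod.snd h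
          rw [e1, e2] at g3
          exact absurd g3 (not_lt.2 g3'.le)
        · rw [if_neg hc, if_pos hc'] at h
          exfalso
          have e1 : e.2 = e'.1 := congrArg Prod.fst h
          have e2 : e.1 = e'.2 := congrArg Prod.snd h
          rw [e1, e2] at g3
          exact absurd g3 (not_lt.2 g3'.le)
        · rw [if_neg hc, if_neg hc'] at h
          exact Prod.ext (congrArg Prod.snd h) (congrArg Prod.fst h)
    have hfib : (W.filter (fun e => e.1.2 = b)).card =
        ∑ a ∈ univ.filter (fun a => cod H (L a) (R b) ≤ r),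
          ((W.filter (fun e => e.1.2 = b)).filter (fun e => e.1.1 = a)).card := by
      apply Finset.card_eq_sum_card_fiberwise
      intro e he
      simp only [hW, Finset.coe_filter, Finset.mem_filter, Finset.mem_univ, true_and,
        Set.mem_ofPred_eq] at he
      obtain ⟨⟨g2, -⟩, rfl⟩ := he
      simp only [Finset.coe_filter, Finset.mem_univ, true_and, Set.mem_ofPred_eq]
      exact g2
    have hterm : ∀ a, ((W.filter (fun e => e.1.2 = b)).filter (fun e => e.1.1 = a)).card ≤
        cod H (L a) (R b) * cod H (L a) (R b) := by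
      intro a
      refine le_trans ?_ (pair_fiber H univ L R hL.injOn hR (L a) (R b))
      apply Finset.card_le_card_of_injOn (fun e => e.2)
      · intro e he
        simp only [hW, Finset.coe_filter, Finset.mem_filter, Finset.mem_univ, true_and,
          Set.mem_ofPred_eq] at he
        obtain ⟨⟨⟨-, g⟩, rfl⟩, rfl⟩ := he
        simp only [Finset.coe_filter, Finset.mem_univ, true_and, Set.mem_ofPred_eq]
        exact g
      · intro e he e' he' h
        simp only [Finset.coe_filter, Finset.mem_filter, Set.mem_ofPred_eq] at he he'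
        exact Prod.ext (Prod.ext (he.2.trans he'.2.symm) (he.1.2.trans he'.1.2.symm)) h
    have h3 : (B2.filter (fun e => e.1.2 = b ∨ e.2.2 = b)).card ≤
        ∑ a ∈ univ.filter (fun a => cod H (L a) (R b) ≤ r),
          cod H (L a) (R b) * cod H (L a) (R b) := by
      refine hle.trans (hfib.le.trans ?_)
      exact Finset.sum_le_sum (fun a _ => hterm a)
    refine le_trans ?_ (hW2 b)
    exact_mod_cast h3
  -- the numbers
  have hnum' : ∀ s t : ℝ, s ≤ P → t ≤ Wt →
      s * (1 / (Fintype.card (Fin m) : ℝ)) +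
        t * (1 / ((Fintype.card (Fin m) : ℝ) * ((Fintype.card (Fin m) : ℝ) - 1))) ≤ 1 / 16 := by
    intro s t hs ht
    rw [Fintype.card_fin]
    have hm1 : (0 : ℝ) < (m : ℝ) - 1 := by linarith
    refine le_trans ?_ hnum
    rw [mul_one_div, mul_one_div]
    exact add_le_add (div_le_div_of_nonneg_right hs hmpos.le)
      (div_le_div_of_nonneg_right ht (mul_pos hmpos hm1).le)
  obtain ⟨π, hπ1, hπ2⟩ := perm_avoid (by rw [Fintype.card_fin]; exact hm) B1 B2 (by
      intro e he
      simp only [hB2, Finset.mem_filter, Finset.mem_univ, true_and] at he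
      exact ⟨he.2.2.1.ne, he.2.2.2⟩)
    (fun a => hnum' _ _ (hs1 a) (hd1 a)) (fun b => hnum' _ _ (hs2 b) (hd2 b))
  have hsing : ∀ a, ¬ H (L a) (R (π a)) ∧ ¬ T a (π a) ∧ cod H (L a) (R (π a)) ≤ r := by
    intro a
    by_contra hcon
    refine hπ1 (a, π a) ?_ rfl
    simp only [hB1, Finset.mem_filter, Finset.mem_univ, true_and]
    by_contra hc
    push Not at hc
    exact hcon ⟨hc.1, hc.2.1, hc.2.2⟩
  refine ⟨π, fun a => ⟨(hsing a).1, (hsing a).2.1⟩, ?_⟩
  have key : ∀ a a', a < a' →
        ¬ (H (L a) (L a') ∧ H (L a) (R (π a')) ∧ H (R (π a)) (L a') ∧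
          H (R (π a)) (R (π a'))) := by
    rintro a a' hlt ⟨g1, g2, g3, g4⟩
    refine hπ2 ((a, π a), (a', π a')) ?_ ⟨rfl, rfl⟩
    simp only [hB2, hW, Finset.mem_filter, Finset.mem_univ, true_and]
    refine ⟨⟨(hsing a).2.2, g1, g2, g3, g4⟩, (hsing a').2.2, hlt, ?_⟩
    intro h
    exact hlt.ne (π.injective h)
  intro a a' hne
  rcases lt_or_gt_of_ne hne with h | h
  · exact key a a' h
  · rintro ⟨g1, g2, g3, g4⟩
    exact key a' a h ⟨hsymm _ _ g1, hsymm _ _ g3, hsymm _ _ g2, hsymm _ _ g4⟩

end

end Pool.Agent.H66.HW
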