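import Mathlib
import Pool.Agent.Lib.H80Dense
import Pool.Agent.H66.HW.PairGen
import Pool.Agent.H66.HW.Comp2

/-!
Assembling a clique minor from representatives, pairs at vertices of large degree, and a random
matching (helper66).
-/

set_option autoImplicit false

namespace Pool.Agent.H66.HW

open SimpleGraph Finset Pool.Agent.Lib.H80

variable {V : Type*}

/-- Distinct non-adjacent vertices of `A`. -/
def HA (G : SimpleGraph V) (A : Finset V) (v w : V) : Prop :=
  v ∈ A ∧ w ∈ A ∧ v ≠ w ∧ ¬ G.Adj v w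

lemma HA.symm {G : SimpleGraph V} {A : Finset V} {v w : V} (h : HA G A v w) : HA G A w v :=
  ⟨h.2.1, h.1, h.2.2.1.symm, fun h' => h.2.2.2 h'.symm⟩

/-- Representatives together with pairs form a clique minor. -/
theorem model_pairs [DecidableEq V] (G : SimpleGraph V) (A : Finset V) (u : V → V)
    (hu1 : ∀ v ∈ A, u v ∈ A) (hu2 : ∀ v ∈ A, u (u v) = u v)
    (hu3 : ∀ v ∈ A, ∀ w ∈ A, v ≠ w → ¬ G.Adj v w → u v = u w)
    {ι : Type*} (p q : ι → V) (hp : ∀ i, p i ∈ A ∧ u (p i) ≠ p i)
    (hq : ∀ i, q i ∈ A ∧ u (q i) ≠ q i)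
    (hpinj : Function.Injective p) (hqinj : Function.Injective q) (hpq : ∀ i j, p i ≠ q j)
    (hadj : ∀ i, G.Adj (p i) (q i))
    (hrep : ∀ i, G.Adj (u (p i)) (p i) ∨ G.Adj (u (p i)) (q i))
    (hconf : ∀ i j, i ≠ j → G.Adj (p i) (p j) ∨ G.Adj (p i) (q j) ∨ G.Adj (q i) (p j) ∨
      G.Adj (q i) (q j)) :
    Model G Set.univ ((A.filter (fun v => u v = v)) ⊕ ι) := by
  classical
  have hrp : ∀ x : (A.filter (fun v => u v = v)), x.1 ∈ A ∧ u x.1 = x.1 := by
    intro x
    have h := x.2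
    rw [Finset.mem_filter] at h
    exact h
  have hrb : ∀ (x : (A.filter (fun v => u v = v))) (i : ι), ∃ v ∈ ({p i, q i} : Set V),
      G.Adj x.1 v := by
    intro x i
    by_contra hcon
    push Not at hcon
    have c1 := hcon (p i) (by simp)
    have c2 := hcon (q i) (by simp)
    have n1 : x.1 ≠ p i := by
      intro h
      apply (hp i).2
      rw [← h]
      exact (hrp x).2
    have e1 := hu3 x.1 (hrp x).1 (p i) (hp i).1 n1 c1
    rw [(hrp x).2] at e1
    rcases hrep i with h | h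
    · rw [← e1] at h
      exact c1 h
    · rw [← e1] at h
      exact c2 h
  refine ⟨Sum.elim (fun x => {x.1}) (fun i => {p i, q i}), fun _ => Set.subset_univ _, ?_, ?_, ?_⟩
  · rintro (x | i)
    · exact conn_singleton G x.1
    · exact induce_pair_connected_of_adj (hadj i)
  · rintro (x | a) (y | b) hij
    · simp only [Sum.elim_inl]
      rw [Set.disjoint_singleton]
      intro h
      exact hij (congrArg Sum.inl (Subtype.ext h))
    · simp only [Sum.elim_inl, Sum.elim_inr]
      rw [Set.disjoint_singleton_left]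
      rintro (h | h)
      · apply (hp b).2
        rw [← h]
        exact (hrp x).2
      · apply (hq b).2
        have h' : x.1 = q b := h
        rw [← h']
        exact (hrp x).2
    · simp only [Sum.elim_inl, Sum.elim_inr]
      rw [Set.disjoint_singleton_right]
      rintro (h | h)
      · apply (hp a).2
        rw [← h]
        exact (hrp y).2
      · apply (hq a).2
        have h' : y.1 = q a := h
        rw [← h']
        exact (hrp y).2
    · have hab : a ≠ b := fun h => hij (by rw [h])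
      simp only [Sum.elim_inr]
      rw [Set.disjoint_left]
      rintro z (h | h) (h' | h')
      · exact hab (hpinj (h.symm.trans h'))
      · have h'' : z = q b := h'
        exact hpq _ _ (h.symm.trans h'')
      · have h'' : z = q a := h
        exact hpq _ _ (h'.symm.trans h'')
      · have h1 : z = q a := h
        have h2 : z = q b := h'
        exact hab (hqinj (h1.symm.trans h2))
  · rintro (x | a) (y | b) hij
    · refine ⟨x.1, rfl, y.1, rfl, ?_⟩
      have hne : x.1 ≠ y.1 := fun h => hij (congrArg Sum.inl (Subtype.ext h))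
      by_contra hadj
      have := hu3 x.1 (hrp x).1 y.1 (hrp y).1 hne hadj
      rw [(hrp x).2, (hrp y).2] at this
      exact hne this
    · obtain ⟨v, hv, hxv⟩ := hrb x b
      exact ⟨x.1, rfl, v, hv, hxv⟩
    · obtain ⟨v, hv, hxv⟩ := hrb y a
      exact ⟨v, hv, y.1, rfl, hxv.symm⟩
    · have hab : a ≠ b := fun h => hij (by rw [h])
      simp only [Sum.elim_inr]
      rcases hconf a b hab with h | h | h | h
      · exact ⟨p a, by simp, p b, by simp, h⟩
      · exact ⟨p a, by simp, q b, by simp, h⟩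
      · exact ⟨q a, by simp, p b, by simp, h⟩
      · exact ⟨q a, by simp, q b, by simp, h⟩

open Classical in
/-- Assembling the minor. -/
theorem assemble [Fintype V] (G : SimpleGraph V) (A : Finset V) (u : V → V)
    (hu1 : ∀ v ∈ A, u v ∈ A) (hu2 : ∀ v ∈ A, u (u v) = u v)
    (hu3 : ∀ v ∈ A, ∀ w ∈ A, v ≠ w → ¬ G.Adj v w → u v = u w)
    (Z X : Finset V) (β : V → V)
    (hZ : ∀ z ∈ Z, z ∈ A ∧ u z ≠ z) (hX : ∀ x ∈ X, x ∈ A ∧ u x ≠ x ∧ x ∉ Z)
    (hβ1 : ∀ x ∈ X, β x ∈ Z) (hβ2 : ∀ x ∈ X, ∀ y ∈ X, β x = β y → x = y)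
    (hβ3 : ∀ x ∈ X, G.Adj x (β x))
    (hβ4 : ∀ x ∈ X, G.Adj (u x) x ∨ G.Adj (u x) (β x))
    (hβ5 : ∀ x ∈ X, ∀ y ∈ X, x ≠ y → ¬ (HA G A x y ∧ HA G A x (β y) ∧ HA G A (β x) y ∧
      HA G A (β x) (β y)))
    (m r : ℕ) (P Wt : ℝ)
    (hP : ∀ z ∈ Z, ((Z.filter (fun w => HA G Z z w ∨
      ((HA G A (u z) z ∧ HA G A (u z) w) ∨
        ∃ x ∈ X, HA G A x z ∧ HA G A (β x) z ∧ HA G A x w ∧ HA G A (β x) w) ∨
      r < cod (HA G Z) z w)).card : ℝ) ≤ P)
    (hW : ∀ z ∈ Z, ((∑ w ∈ Z.filter (fun w => cod (HA G Z) z w ≤ r),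
      cod (HA G Z) z w * cod (HA G Z) z w : ℕ) : ℝ) ≤ Wt)
    (hm : 2 ≤ m) (hnum : P / m + Wt / ((m : ℝ) * ((m : ℝ) - 1)) ≤ 1 / 16)
    (hmZ : 2 * m + X.card ≤ Z.card) (k : ℕ)
    (hk : k + 1 ≤ (A.filter (fun v => u v = v)).card + X.card + m) :
    Model G Set.univ (Fin (k + 1)) := by
  have himg : (X.image β).card ≤ X.card := Finset.card_image_le
  have hsub : X.image β ⊆ Z := by
    intro z hz
    obtain ⟨x, hx, rfl⟩ := Finset.mem_image.1 hz
    exact hβ1 x hx
  have hsd : (Z \ X.image β).card + (X.image β).card = Z.card :=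
    Finset.card_sdiff_add_card_eq_card hsub
  obtain ⟨e⟩ : Nonempty (Fin m ⊕ Fin m ↪ (Z \ X.image β : Finset V)) := by
    apply Function.Embedding.nonempty_of_card_le
    rw [Fintype.card_sum, Fintype.card_fin, Fintype.card_coe]
    omega
  set L : Fin m → V := fun a => (e (Sum.inl a)).1 with hL
  set R : Fin m → V := fun a => (e (Sum.inr a)).1 with hR
  have hLinj : Function.Injective L := fun a b h =>
    Sum.inl_injective (e.injective (Subtype.ext h))
  have hRinj : Function.Injective R := fun a b h =>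
    Sum.inr_injective (e.injective (Subtype.ext h))
  have hLR : ∀ a b, L a ≠ R b := by
    intro a b h
    have := e.injective (Subtype.ext h)
    exact Sum.inl_ne_inr this
  have hLZ : ∀ a, L a ∈ Z ∧ L a ∉ X.image β := fun a => Finset.mem_sdiff.1 (e (Sum.inl a)).2
  have hRZ : ∀ a, R a ∈ Z ∧ R a ∉ X.image β := fun a => Finset.mem_sdiff.1 (e (Sum.inr a)).2
  -- the constraint relation
  set T : V → V → Prop := fun z w => (HA G A (u z) z ∧ HA G A (u z) w) ∨
        ∃ x ∈ X, HA G A x z ∧ HA G A (β x) z ∧ HA G A x w ∧ HA G A (β x) w with hT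
  have hTsymm : ∀ z ∈ A, ∀ w ∈ A, T z w → T w z := by
    intro z hz w hw h
    rcases h with ⟨h1, h2⟩ | ⟨x, hx, h1, h2, h3, h4⟩
    · left
      have h3 := hu3 (u z) (hu1 z hz) w hw h2.2.2.1 h2.2.2.2
      rw [hu2 z hz] at h3
      rw [← h3]
      exact ⟨h2, h1⟩
    · exact Or.inr ⟨x, hx, h3, h4, h1, h2⟩
  have hHsymm : ∀ v w, HA G Z v w → HA G Z w v := fun v w h => h.symm
  obtain ⟨π, hπ1, hπ2⟩ := pairing_gen (HA G Z) hHsymm L R hLinj hRinj
    (fun a b => T (L a) (R b)) r P Wt
    (by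
      intro a
      refine le_trans ?_ (hP (L a) (hLZ a).1)
      have : (univ.filter (fun b => HA G Z (L a) (R b) ∨ T (L a) (R b) ∨
          r < cod (HA G Z) (L a) (R b))).card ≤ (Z.filter (fun w => HA G Z (L a) w ∨
            T (L a) w ∨ r < cod (HA G Z) (L a) w)).card := by
        apply Finset.card_le_card_of_injOn R
        · intro b hb
          simp only [Finset.coe_filter, Finset.mem_univ, true_and, Set.mem_ofPred_eq] at hb ⊢
          exact ⟨(hRZ b).1, hb⟩
        · exact hRinj.injOn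
      exact_mod_cast this)
    (by
      intro b
      refine le_trans ?_ (hP (R b) (hRZ b).1)
      have : (univ.filter (fun a => HA G Z (L a) (R b) ∨ T (L a) (R b) ∨
          r < cod (HA G Z) (L a) (R b))).card ≤ (Z.filter (fun w => HA G Z (R b) w ∨
            T (R b) w ∨ r < cod (HA G Z) (R b) w)).card := by
        apply Finset.card_le_card_of_injOn L
        · intro a ha
          simp only [Finset.coe_filter, Finset.mem_univ, true_and, Set.mem_ofPred_eq] at ha ⊢
          refine ⟨(hLZ a).1, ?_⟩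
          rcases ha with h | h | h
          · exact Or.inl h.symm
          · exact Or.inr (Or.inl (hTsymm _ (hZ _ (hLZ a).1).1 _ (hZ _ (hRZ b).1).1 h))
          · exact Or.inr (Or.inr (by rwa [cod_comm]))
        · exact hLinj.injOn
      exact_mod_cast this)
    (by
      intro a
      refine le_trans ?_ (hW (L a) (hLZ a).1)
      have : ∑ b ∈ univ.filter (fun b => cod (HA G Z) (L a) (R b) ≤ r),
          cod (HA G Z) (L a) (R b) * cod (HA G Z) (L a) (R b) ≤
          ∑ w ∈ Z.filter (fun w => cod (HA G Z) (L a) w ≤ r),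
            cod (HA G Z) (L a) w * cod (HA G Z) (L a) w := by
        rw [← Finset.sum_image (s := univ.filter (fun b => cod (HA G Z) (L a) (R b) ≤ r))
          (g := R) (f := fun w => cod (HA G Z) (L a) w * cod (HA G Z) (L a) w) hRinj.injOn]
        apply Finset.sum_le_sum_of_subset
        intro w hw
        obtain ⟨b, hb, rfl⟩ := Finset.mem_image.1 hw
        rw [Finset.mem_filter] at hb ⊢
        exact ⟨(hRZ b).1, hb.2⟩
      exact_mod_cast this)
    (by
      intro b
      refine le_trans ?_ (hW (R b) (hRZ b).1)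
      have : ∑ a ∈ univ.filter (fun a => cod (HA G Z) (L a) (R b) ≤ r),
          cod (HA G Z) (L a) (R b) * cod (HA G Z) (L a) (R b) ≤
          ∑ w ∈ Z.filter (fun w => cod (HA G Z) (R b) w ≤ r),
            cod (HA G Z) (R b) w * cod (HA G Z) (R b) w := by
        have e1 : ∑ a ∈ univ.filter (fun a => cod (HA G Z) (L a) (R b) ≤ r),
          cod (HA G Z) (L a) (R b) * cod (HA G Z) (L a) (R b) =
          ∑ a ∈ univ.filter (fun a => cod (HA G Z) (L a) (R b) ≤ r),
          cod (HA G Z) (R b) (L a) * cod (HA G Z) (R b) (L a) := by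
          apply Finset.sum_congr rfl
          intro a _
          rw [cod_comm]
        rw [e1, ← Finset.sum_image (s := univ.filter (fun a => cod (HA G Z) (L a) (R b) ≤ r))
          (g := L) (f := fun w => cod (HA G Z) (R b) w * cod (HA G Z) (R b) w) hLinj.injOn]
        apply Finset.sum_le_sum_of_subset
        intro w hw
        obtain ⟨a, ha, rfl⟩ := Finset.mem_image.1 hw
        rw [Finset.mem_filter] at ha ⊢
        exact ⟨(hLZ a).1, by rw [cod_comm]; exact ha.2⟩
      exact_mod_cast this)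
    hm hnum
  -- adjacency from the absence of the relation
  have hadjA : ∀ v ∈ A, ∀ w ∈ A, v ≠ w → ¬ HA G A v w → G.Adj v w := by
    intro v hv w hw hvw h
    by_contra hadj
    exact h ⟨hv, hw, hvw, hadj⟩
  have hadjZ : ∀ v ∈ Z, ∀ w ∈ Z, v ≠ w → ¬ HA G Z v w → G.Adj v w := by
    intro v hv w hw hvw h
    by_contra hadj
    exact h ⟨hv, hw, hvw, hadj⟩
  have hXA : ∀ x : X, x.1 ∈ A ∧ u x.1 ≠ x.1 ∧ x.1 ∉ Z := fun x => hX x.1 x.2
  have hβA : ∀ x : X, β x.1 ∈ A ∧ u (β x.1) ≠ β x.1 := fun x => hZ _ (hβ1 x.1 x.2)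
  have hLA : ∀ a, L a ∈ A ∧ u (L a) ≠ L a := fun a => hZ _ (hLZ a).1
  have hRA : ∀ a, R a ∈ A ∧ u (R a) ≠ R a := fun a => hZ _ (hRZ a).1
  have hnβL : ∀ (x : X) a, β x.1 ≠ L a := fun x a h =>
    (hLZ a).2 (h ▸ Finset.mem_image_of_mem β x.2)
  have hnβR : ∀ (x : X) a, β x.1 ≠ R a := fun x a h =>
    (hRZ a).2 (h ▸ Finset.mem_image_of_mem β x.2)
  have hnXL : ∀ (x : X) a, x.1 ≠ L a := fun x a h => (hXA x).2.2 (h ▸ (hLZ a).1)
  have hnXR : ∀ (x : X) a, x.1 ≠ R a := fun x a h => (hXA x).2.2 (h ▸ (hRZ a).1)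
  have hnXβ : ∀ (x y : X), x.1 ≠ β y.1 := fun x y h => (hXA x).2.2 (h ▸ hβ1 y.1 y.2)
  -- conflicts between a hub pair and a low pair
  have hXF : ∀ (x : X) (a : Fin m), G.Adj x.1 (L a) ∨ G.Adj x.1 (R (π a)) ∨
      G.Adj (β x.1) (L a) ∨ G.Adj (β x.1) (R (π a)) := by
    intro x a
    by_contra hcon
    push Not at hcon
    obtain ⟨c1, c2, c3, c4⟩ := hcon
    apply (hπ1 a).2
    right
    exact ⟨x.1, x.2, ⟨(hXA x).1, (hLA a).1, hnXL x a, c1⟩,
      ⟨(hβA x).1, (hLA a).1, hnβL x a, c3⟩, ⟨(hXA x).1, (hRA (π a)).1, hnXR x _, c2⟩,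
      ⟨(hβA x).1, (hRA (π a)).1, hnβR x _, c4⟩⟩
  have hmod := model_pairs G A u hu1 hu2 hu3 (ι := X ⊕ Fin m)
    (Sum.elim (fun x => x.1) L) (Sum.elim (fun x => β x.1) (fun a => R (π a)))
    (by
      rintro (x | a)
      · exact ⟨(hXA x).1, (hXA x).2.1⟩
      · exact hLA a)
    (by
      rintro (x | a)
      · exact hβA x
      · exact hRA (π a))
    (by
      rintro (x | a) (y | b) h
      · simp only [Sum.elim_inl] at h
        rw [Subtype.ext h]
      · exact absurd h (hnXL x b)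
      · exact absurd h.symm (hnXL y a)
      · simp only [Sum.elim_inr] at h
        rw [hLinj h])
    (by
      rintro (x | a) (y | b) h
      · simp only [Sum.elim_inl] at h
        rw [Subtype.ext (hβ2 x.1 x.2 y.1 y.2 h)]
      · exact absurd h (hnβR x _)
      · exact absurd h.symm (hnβR y _)
      · simp only [Sum.elim_inr] at h
        rw [π.injective (hRinj h)])
    (by
      rintro (x | a) (y | b)
      · exact hnXβ x y
      · exact hnXR x _
      · exact fun h => hnβL y a h.symm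
      · exact hLR _ _)
    (by
      rintro (x | a)
      · exact hβ3 x.1 x.2
      · exact hadjZ _ (hLZ a).1 _ (hRZ _).1 (hLR _ _) (hπ1 a).1)
    (by
      rintro (x | a)
      · exact hβ4 x.1 x.2
      · by_contra hcon
        push Not at hcon
        obtain ⟨c1, c2⟩ := hcon
        simp only [Sum.elim_inr] at c1 c2
        apply (hπ1 a).2
        left
        refine ⟨⟨hu1 _ (hLA a).1, (hLA a).1, (hLA a).2, c1⟩, ⟨hu1 _ (hLA a).1, (hRA _).1, ?_, c2⟩⟩
        intro h
        apply (hRA (π a)).2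
        rw [← h]
        exact hu2 _ (hLA a).1)
    (by
      rintro (x | a) (y | b) hij
      · have hxy : x.1 ≠ y.1 := fun h => hij (congrArg Sum.inl (Subtype.ext h))
        by_contra hcon
        push Not at hcon
        simp only [Sum.elim_inl] at hcon
        obtain ⟨c1, c2, c3, c4⟩ := hcon
        refine hβ5 x.1 x.2 y.1 y.2 hxy ⟨⟨(hXA x).1, (hXA y).1, hxy, c1⟩,
          ⟨(hXA x).1, (hβA y).1, hnXβ x y, c2⟩, ⟨(hβA x).1, (hXA y).1, (hnXβ y x).symm, c3⟩,
          ⟨(hβA x).1, (hβA y).1, fun h => hxy (hβ2 x.1 x.2 y.1 y.2 h), c4⟩⟩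
      · simp only [Sum.elim_inl, Sum.elim_inr]
        exact hXF x b
      · simp only [Sum.elim_inl, Sum.elim_inr]
        rcases hXF y a with h | h | h | h
        · exact Or.inl h.symm
        · exact Or.inr (Or.inr (Or.inl h.symm))
        · exact Or.inr (Or.inl h.symm)
        · exact Or.inr (Or.inr (Or.inr h.symm))
      · have hab : a ≠ b := fun h => hij (by rw [h])
        simp only [Sum.elim_inr]
        by_contra hcon
        push Not at hcon
        obtain ⟨c1, c2, c3, c4⟩ := hcon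
        refine hπ2 a b hab ⟨⟨(hLZ a).1, (hLZ b).1, fun h => hab (hLinj h), c1⟩,
          ⟨(hLZ a).1, (hRZ _).1, hLR _ _, c2⟩, ⟨(hRZ _).1, (hLZ b).1, (hLR _ _).symm, c3⟩,
          ⟨(hRZ _).1, (hRZ _).1, fun h => hab (π.injective (hRinj h)), c4⟩⟩)
  refine hmod.of_card ?_
  rw [Fintype.card_fin, Fintype.card_sum, Fintype.card_sum, Fintype.card_fin, Fintype.card_coe,
    Fintype.card_coe]
  omega

end Pool.Agent.H66.HW
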