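import Mathlib
import Pool.Agent.H66.HW.LLL

/-!
A permutation avoiding a locally sparse family of partial permutations (helper66).
-/

set_option autoImplicit false

namespace Pool.Agent.H66.HW

open Finset

section

variable {α : Type*}

/-- Two families of prescribed values touch. -/
def Tch (e f : Finset (α × α)) : Prop := ∃ p ∈ e, ∃ q ∈ f, p.1 = q.1 ∨ p.2 = q.2

/-- The prescribed values form a partial injection. -/
def PInj (e : Finset (α × α)) : Prop := ∀ p ∈ e, ∀ q ∈ e, (p.1 = q.1 ∨ p.2 = q.2) → p = q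

/-- The permutations with the prescribed values. -/
def evs [Fintype α] [DecidableEq α] (e : Finset (α × α)) : Finset (Equiv.Perm α) :=
  univ.filter (fun π => ∀ p ∈ e, π p.1 = p.2)

lemma mem_evs [Fintype α] [DecidableEq α] {e : Finset (α × α)} {π : Equiv.Perm α} :
    π ∈ evs e ↔ ∀ p ∈ e, π p.1 = p.2 := by
  simp [evs]

/-- The weights. -/
noncomputable def wg [Fintype α] (e : Finset (α × α)) : ℝ := (2 / (Fintype.card α : ℝ)) ^ e.card

lemma wg_nonneg [Fintype α] (e : Finset (α × α)) : 0 ≤ wg e := by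
  unfold wg
  positivity

/-- The conditional probability of prescribed values. -/
lemma evs_bound [Fintype α] [DecidableEq α] (S : Finset (Finset (α × α))) (e : Finset (α × α)) :
    PInj e → 2 * e.card ≤ Fintype.card α → (∀ f ∈ S, ¬ Tch e f) →
    ((evs e ∩ avoid (evs (α := α)) S).card : ℝ) * ((Fintype.card α : ℝ) / 2) ^ e.card ≤
      ((avoid (evs (α := α)) S).card : ℝ) := by
  induction e using Finset.induction_on with
  | empty =>
    intro _ _ _
    have : evs (∅ : Finset (α × α)) ∩ avoid (evs (α := α)) S = avoid (evs (α := α)) S := by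
      ext π
      simp [mem_evs]
    rw [this]
    simp
  | insert p e hp ih =>
    intro hPI hcard hS
    rw [Finset.card_insert_of_notMem hp] at hcard ⊢
    have hPI' : PInj e := fun q hq q' hq' h =>
      hPI q (Finset.mem_insert_of_mem hq) q' (Finset.mem_insert_of_mem hq') h
    have hS' : ∀ f ∈ S, ¬ Tch e f := by
      rintro f hf ⟨q, hq, q', hq', h⟩
      exact hS f hf ⟨q, Finset.mem_insert_of_mem hq, q', hq', h⟩
    have ih' := ih hPI' (by omega) hS'
    set 𝒜 := evs e ∩ avoid (evs (α := α)) S with h𝒜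
    have hsw := swap_count 𝒜 p.1 p.2 (univ \ e.image Prod.snd) (by
      intro z hz π hπ hxy
      rw [h𝒜, Finset.mem_inter, mem_evs, mem_avoid] at hπ ⊢
      obtain ⟨hπ1, hπ2⟩ := hπ
      have hz' : ∀ q ∈ e, q.2 ≠ z := by
        rintro q hq rfl
        rw [Finset.mem_sdiff] at hz
        exact hz.2 (Finset.mem_image_of_mem _ hq)
      constructor
      · intro q hq
        rw [Equiv.Perm.coe_mul, Function.comp_apply, hπ1 q hq]
        apply Equiv.swap_apply_of_ne_of_ne
        · intro h
          have := hPI q (Finset.mem_insert_of_mem hq) p (Finset.mem_insert_self _ _) (Or.inr h)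
          exact hp (this ▸ hq)
        · exact hz' q hq
      · intro f hf hmem
        apply hπ2 f hf
        rw [mem_evs] at hmem ⊢
        intro q hq
        have h1 : q.1 ≠ p.1 := fun h => hS f hf ⟨p, Finset.mem_insert_self _ _, q, hq, Or.inl h.symm⟩
        have h2 : q.2 ≠ p.2 := fun h => hS f hf ⟨p, Finset.mem_insert_self _ _, q, hq, Or.inr h.symm⟩
        have h := hmem q hq
        rw [Equiv.Perm.coe_mul, Function.comp_apply] at h
        have hne : π q.1 ≠ p.2 := by
          intro h'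
          exact h1 (π.injective (h'.trans hxy.symm))
        by_cases hzq : π q.1 = z
        · rw [hzq, Equiv.swap_apply_right] at h
          exact absurd h.symm h2
        · rwa [Equiv.swap_apply_of_ne_of_ne hne hzq] at h)
    have heq : evs (insert p e) ∩ avoid (evs (α := α)) S = 𝒜.filter (fun π => π p.1 = p.2) := by
      ext π
      simp only [h𝒜, mem_evs, Finset.mem_inter, Finset.mem_filter, Finset.forall_mem_insert]
      tauto
    rw [heq]
    have hZ : (Fintype.card α : ℝ) / 2 ≤ ((univ \ e.image Prod.snd : Finset α).card : ℝ) := by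
      have h1 : (e.image Prod.snd).card ≤ e.card := Finset.card_image_le
      have h2 : (univ \ e.image Prod.snd : Finset α).card + (e.image Prod.snd).card =
          Fintype.card α := Finset.card_sdiff_add_card_eq_card (Finset.subset_univ _)
      have h3 : Fintype.card α ≤ 2 * (univ \ e.image Prod.snd : Finset α).card := by omega
      have h4 : (Fintype.card α : ℝ) ≤ 2 * ((univ \ e.image Prod.snd : Finset α).card : ℝ) := by
        exact_mod_cast h3
      linarith
    have hsw' : ((univ \ e.image Prod.snd : Finset α).card : ℝ) *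
        ((𝒜.filter (fun π => π p.1 = p.2)).card : ℝ) ≤ (𝒜.card : ℝ) := by exact_mod_cast hsw
    have h5 : ((𝒜.filter (fun π => π p.1 = p.2)).card : ℝ) * ((Fintype.card α : ℝ) / 2) ≤
        (𝒜.card : ℝ) := by
      have := mul_le_mul_of_nonneg_right hZ
        (Nat.cast_nonneg (α := ℝ) (𝒜.filter (fun π => π p.1 = p.2)).card)
      linarith
    have h6 : (0 : ℝ) ≤ ((Fintype.card α : ℝ) / 2) ^ e.card := by positivity
    calc ((𝒜.filter (fun π => π p.1 = p.2)).card : ℝ) * ((Fintype.card α : ℝ) / 2) ^ (e.card + 1)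
        = (((𝒜.filter (fun π => π p.1 = p.2)).card : ℝ) * ((Fintype.card α : ℝ) / 2)) *
          ((Fintype.card α : ℝ) / 2) ^ e.card := by ring
      _ ≤ (𝒜.card : ℝ) * ((Fintype.card α : ℝ) / 2) ^ e.card :=
          mul_le_mul_of_nonneg_right h5 h6
      _ ≤ _ := ih'

lemma sum_biUnion_le_nonneg {β γ : Type*} [DecidableEq β] [DecidableEq γ] (s : Finset β)
    (t : β → Finset γ) (w : γ → ℝ) (hw : ∀ c, 0 ≤ w c) :
    ∑ c ∈ s.biUnion t, w c ≤ ∑ b ∈ s, ∑ c ∈ t b, w c := by
  induction s using Finset.induction_on with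
  | empty => simp
  | insert b s hb ih =>
    rw [Finset.biUnion_insert, Finset.sum_insert hb]
    have h4 := Finset.sum_union_inter (s₁ := t b) (s₂ := s.biUnion t) (f := w)
    have h5 : 0 ≤ ∑ c ∈ t b ∩ s.biUnion t, w c := Finset.sum_nonneg (fun c _ => hw c)
    linarith

/-- A permutation avoiding the partial injections in `B`. -/
theorem perm_avoid_gen [Fintype α] [DecidableEq α] {r : ℕ} (hr : 0 < r)
    (hN : 4 * r ≤ Fintype.card α) (B : Finset (Finset (α × α)))
    (hB : ∀ e ∈ B, PInj e ∧ e.card ≤ 2 * r)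
    (F G : α → Finset (Finset (α × α)))
    (hF : ∀ a, ∀ f ∈ B, (∃ p ∈ f, p.1 = a) → f ∈ F a)
    (hG : ∀ b, ∀ f ∈ B, (∃ p ∈ f, p.2 = b) → f ∈ G b)
    (hFs : ∀ a, ∑ f ∈ F a, wg f ≤ 1 / (16 * (r : ℝ)))
    (hGs : ∀ b, ∑ f ∈ G b, wg f ≤ 1 / (16 * (r : ℝ))) :
    ∃ π : Equiv.Perm α, ∀ e ∈ B, e.Nonempty → ¬ ∀ p ∈ e, π p.1 = p.2 := by
  classical
  have hr' : (0 : ℝ) < r := by exact_mod_cast hr
  set B' := B.filter (fun e => e.Nonempty) with hB'
  have hne : Nonempty (Equiv.Perm α) := ⟨1⟩
  obtain ⟨π, hπ⟩ := lll (evs (α := α)) B' (fun e f => Tch e f ∨ e = f) wg wg_nonneg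
    (fun e => Or.inr rfl) (by
      intro e he
      obtain ⟨heB, hene⟩ := Finset.mem_filter.1 he
      obtain ⟨-, hcard⟩ := hB e heB
      have hsub : B'.filter (fun f => Tch e f ∨ e = f) ⊆
          e.biUnion (fun p => F p.1 ∪ G p.2) := by
        intro f hf
        obtain ⟨hfB', htch⟩ := Finset.mem_filter.1 hf
        have hfB := (Finset.mem_filter.1 hfB').1
        rw [Finset.mem_biUnion]
        rcases htch with ⟨p, hp, q, hq, h⟩ | rfl
        · refine ⟨p, hp, ?_⟩
          rw [Finset.mem_union]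
          rcases h with h | h
          · exact Or.inl (hF _ f hfB ⟨q, hq, h.symm⟩)
          · exact Or.inr (hG _ f hfB ⟨q, hq, h.symm⟩)
        · obtain ⟨p, hp⟩ := hene
          exact ⟨p, hp, Finset.mem_union_left _ (hF _ e hfB ⟨p, hp, rfl⟩)⟩
      have h1 : ∑ f ∈ B'.filter (fun f => Tch e f ∨ e = f), wg f ≤
          ∑ f ∈ e.biUnion (fun p => F p.1 ∪ G p.2), wg f :=
        Finset.sum_le_sum_of_subset_of_nonneg hsub (fun f _ _ => wg_nonneg f)
      have h2 : ∑ f ∈ e.biUnion (fun p => F p.1 ∪ G p.2), wg f ≤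
          ∑ p ∈ e, ∑ f ∈ F p.1 ∪ G p.2, wg f :=
        sum_biUnion_le_nonneg _ _ _ (fun f => wg_nonneg f)
      have h3 : ∀ p ∈ e, ∑ f ∈ F p.1 ∪ G p.2, wg f ≤ 1 / (8 * (r : ℝ)) := by
        intro p _
        have h4 := Finset.sum_union_inter (s₁ := F p.1) (s₂ := G p.2) (f := wg)
        have h5 : 0 ≤ ∑ f ∈ F p.1 ∩ G p.2, wg f := Finset.sum_nonneg (fun f _ => wg_nonneg f)
        have h6 := hFs p.1
        have h7 := hGs p.2
        have h8 : 1 / (16 * (r : ℝ)) + 1 / (16 * (r : ℝ)) = 1 / (8 * (r : ℝ)) := by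
          field_simp
          norm_num
        linarith
      have h9 : ∑ p ∈ e, ∑ f ∈ F p.1 ∪ G p.2, wg f ≤ (e.card : ℝ) * (1 / (8 * (r : ℝ))) := by
        rw [← nsmul_eq_mul]
        exact Finset.sum_le_card_nsmul _ _ _ h3
      have h10 : (e.card : ℝ) ≤ 2 * r := by exact_mod_cast hcard
      have h11 : (e.card : ℝ) * (1 / (8 * (r : ℝ))) ≤ 1 / 4 := by
        rw [mul_one_div, div_le_iff₀ (by positivity)]
        linarith
      linarith) (by
      intro e he S hS hSe
      obtain ⟨heB, hene⟩ := Finset.mem_filter.1 he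
      obtain ⟨hPI, hcard⟩ := hB e heB
      have h := evs_bound S e hPI (by omega) (fun f hf h => hSe f hf (Or.inl h))
      have hNpos : (0 : ℝ) < (Fintype.card α : ℝ) := by
        have : 0 < Fintype.card α := by omega
        exact_mod_cast this
      unfold wg
      have h12 : (2 / (Fintype.card α : ℝ)) ^ e.card = (((Fintype.card α : ℝ) / 2) ^ e.card)⁻¹ := by
        rw [← inv_pow, inv_div]
      rw [h12, inv_mul_eq_div, le_div_iff₀ (by positivity)]
      exact h)
  refine ⟨π, ?_⟩
  intro e he hene hall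
  exact hπ e (Finset.mem_filter.2 ⟨he, hene⟩) (mem_evs.2 hall)

end

end Pool.Agent.H66.HW
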