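import Mathlib
import Pool.Agent.H66.HW.PermGen

/-!
A random partition of the vertices of a sparse graph into small bags: no bag contains an edge, and
no two bags span a complete bipartite graph (helper66).
-/

set_option autoImplicit false

namespace Pool.Agent.H66.HW

open Finset

section

variable {α : Type*} [Fintype α] [DecidableEq α]

/-- The common neighbours of the points of a bag. -/
def CN (H : α → α → Prop) [DecidableRel H] {r : ℕ} (T : Fin r → α) : Finset α :=
  univ.filter (fun w => ∀ s, H (T s) w)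

omit [DecidableEq α] in
lemma mem_CN {H : α → α → Prop} [DecidableRel H] {r : ℕ} {T : Fin r → α} {w : α} :
    w ∈ CN H T ↔ ∀ s, H (T s) w := by
  simp [CN]

lemma sum_CN_le (H : α → α → Prop) [DecidableRel H] (hsymm : ∀ u v, H u v → H v u) {d r : ℕ}
    (hd : ∀ v, (univ.filter (fun w => H v w)).card ≤ d) (s : Fin r) (v : α) :
    ∑ T ∈ univ.filter (fun T : Fin r → α => T s = v), (CN H T).card ≤ d ^ r := by
  classical
  have hr : 0 < r := s.pos
  have h2 := Finset.sum_card_bipartiteAbove_eq_sum_card_bipartiteBelow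
    (s := univ.filter (fun T : Fin r → α => T s = v)) (t := (univ : Finset α))
    (fun T w => ∀ s, H (T s) w)
  unfold Finset.bipartiteAbove Finset.bipartiteBelow at h2
  have h1 : ∑ T ∈ univ.filter (fun T : Fin r → α => T s = v), (CN H T).card =
      ∑ T ∈ univ.filter (fun T : Fin r → α => T s = v),
        (univ.filter (fun w => ∀ s, H (T s) w)).card := by
    apply Finset.sum_congr rfl
    intro T _
    rfl
  rw [h1, h2]
  have hterm : ∀ w, ((univ.filter (fun T : Fin r → α => T s = v)).filter
      (fun T => ∀ s, H (T s) w)).card ≤ if H v w then d ^ (r - 1) else 0 := by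
    intro w
    by_cases hvw : H v w
    · rw [if_pos hvw]
      have hsub : ((univ.filter (fun T : Fin r → α => T s = v)).filter
          (fun T => ∀ s, H (T s) w)) ⊆
          Fintype.piFinset (fun s' => if s' = s then {v} else univ.filter (fun y => H w y)) := by
        intro T hT
        simp only [Finset.mem_filter, Finset.mem_univ, true_and] at hT
        rw [Fintype.mem_piFinset]
        intro s'
        by_cases hs : s' = s
        · rw [if_pos hs, Finset.mem_singleton, hs]
          exact hT.1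
        · rw [if_neg hs, Finset.mem_filter]
          exact ⟨Finset.mem_univ _, hsymm _ _ (hT.2 s')⟩
      refine (Finset.card_le_card hsub).trans ?_
      rw [Fintype.card_piFinset]
      rw [← Finset.mul_prod_erase _ _ (Finset.mem_univ s)]
      rw [if_pos rfl, Finset.card_singleton, one_mul]
      have hprod : ∏ x ∈ univ.erase s,
          (if x = s then ({v} : Finset α) else univ.filter (fun y => H w y)).card ≤
          d ^ (univ.erase s).card := by
        apply Finset.prod_le_pow_card
        intro x hx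
        rw [if_neg (Finset.ne_of_mem_erase hx)]
        exact hd w
      refine hprod.trans (le_of_eq ?_)
      rw [Finset.card_erase_of_mem (Finset.mem_univ _), Finset.card_univ, Fintype.card_fin]
    · rw [if_neg hvw]
      rw [Nat.le_zero, Finset.card_eq_zero, Finset.eq_empty_iff_forall_notMem]
      intro T hT
      simp only [Finset.mem_filter, Finset.mem_univ, true_and] at hT
      exact hvw (hT.1 ▸ hT.2 s)
  calc ∑ w, ((univ.filter (fun T : Fin r → α => T s = v)).filter
      (fun T => ∀ s, H (T s) w)).card ≤ ∑ w, if H v w then d ^ (r - 1) else 0 :=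
        Finset.sum_le_sum (fun w _ => hterm w)
    _ = (univ.filter (fun w => H v w)).card * d ^ (r - 1) := by
        rw [← Finset.sum_filter, Finset.sum_const, smul_eq_mul]
    _ ≤ d * d ^ (r - 1) := Nat.mul_le_mul_right _ (hd v)
    _ = d ^ r := by
        obtain ⟨r', rfl⟩ : ∃ r', r = r' + 1 := ⟨r - 1, by omega⟩
        rw [Nat.add_sub_cancel, pow_succ, mul_comm]

lemma bad_count (H : α → α → Prop) [DecidableRel H] (hsymm : ∀ u v, H u v → H v u) {d r : ℕ}
    (hd : ∀ v, (univ.filter (fun w => H v w)).card ≤ d) (K : ℝ) (hK : 0 < K) (s : Fin r) (v : α) :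
    ((univ.filter (fun T : Fin r → α => T s = v ∧ K < ((CN H T).card : ℝ))).card : ℝ) ≤
      (d : ℝ) ^ r / K := by
  classical
  have h1 := sum_CN_le H hsymm hd s v
  rw [le_div_iff₀ hK, ← nsmul_eq_mul]
  have h2 : (univ.filter (fun T : Fin r → α => T s = v ∧ K < ((CN H T).card : ℝ))).card • K ≤
      ∑ T ∈ univ.filter (fun T : Fin r → α => T s = v ∧ K < ((CN H T).card : ℝ)),
        ((CN H T).card : ℝ) := by
    apply Finset.card_nsmul_le_sum
    intro T hT
    exact (Finset.mem_filter.1 hT).2.2.le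
  refine h2.trans ?_
  have h3 : ∑ T ∈ univ.filter (fun T : Fin r → α => T s = v ∧ K < ((CN H T).card : ℝ)),
        ((CN H T).card : ℝ) ≤
      ∑ T ∈ univ.filter (fun T : Fin r → α => T s = v), ((CN H T).card : ℝ) := by
    apply Finset.sum_le_sum_of_subset_of_nonneg
    · intro T hT
      rw [Finset.mem_filter] at hT ⊢
      exact ⟨hT.1, hT.2.1⟩
    · intro T _ _
      exact Nat.cast_nonneg _
  refine h3.trans ?_
  exact_mod_cast h1

lemma conf_count (H : α → α → Prop) [DecidableRel H] (hsymm : ∀ u v, H u v → H v u) {d r : ℕ}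
    (hd : ∀ v, (univ.filter (fun w => H v w)).card ≤ d) (K : ℝ) (hK : 0 < K) (s : Fin r) (v : α) :
    ((univ.filter (fun q : (Fin r → α) × (Fin r → α) => q.1 s = v ∧
      ((CN H q.1).card : ℝ) ≤ K ∧ ∀ s', q.2 s' ∈ CN H q.1)).card : ℝ) ≤
      K ^ (r - 1) * (d : ℝ) ^ r := by
  classical
  have hr : 0 < r := s.pos
  set A := univ.filter (fun q : (Fin r → α) × (Fin r → α) => q.1 s = v ∧
      ((CN H q.1).card : ℝ) ≤ K ∧ ∀ s', q.2 s' ∈ CN H q.1) with hA
  set B := univ.filter (fun T : Fin r → α => T s = v ∧ ((CN H T).card : ℝ) ≤ K) with hB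
  have hfib : A.card = ∑ T ∈ B, (A.filter (fun q => q.1 = T)).card := by
    apply Finset.card_eq_sum_card_fiberwise
    intro q hq
    rw [Finset.mem_coe, hA, Finset.mem_filter] at hq
    rw [Finset.mem_coe, hB, Finset.mem_filter]
    exact ⟨Finset.mem_univ _, hq.2.1, hq.2.2.1⟩
  have hterm : ∀ T ∈ B, ((A.filter (fun q => q.1 = T)).card : ℝ) ≤
      K ^ (r - 1) * ((CN H T).card : ℝ) := by
    intro T hT
    have h1 : (A.filter (fun q => q.1 = T)).card ≤ (CN H T).card ^ r := by
      have h2 : (A.filter (fun q => q.1 = T)).card ≤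
          (Fintype.piFinset (fun _ : Fin r => CN H T)).card := by
        apply Finset.card_le_card_of_injOn Prod.snd
        · intro q hq
          rw [Finset.mem_coe, Finset.mem_filter, hA, Finset.mem_filter] at hq
          rw [Finset.mem_coe, Fintype.mem_piFinset]
          intro s'
          rw [← hq.2]
          exact hq.1.2.2.2 s'
        · intro q hq q' hq' h
          rw [Finset.mem_coe, Finset.mem_filter] at hq hq'
          exact Prod.ext (hq.2.trans hq'.2.symm) h
      rw [Fintype.card_piFinset, Finset.prod_const, Finset.card_univ, Fintype.card_fin] at h2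
      exact h2
    have h3 : ((A.filter (fun q => q.1 = T)).card : ℝ) ≤ ((CN H T).card : ℝ) ^ r := by
      exact_mod_cast h1
    refine h3.trans ?_
    have hTK : ((CN H T).card : ℝ) ≤ K := (Finset.mem_filter.1 hT).2.2
    obtain ⟨r', rfl⟩ : ∃ r', r = r' + 1 := ⟨r - 1, by omega⟩
    rw [Nat.add_sub_cancel, pow_succ]
    apply mul_le_mul_of_nonneg_right _ (Nat.cast_nonneg _)
    exact pow_le_pow_left₀ (Nat.cast_nonneg _) hTK _
  have h4 : (A.card : ℝ) = ∑ T ∈ B, ((A.filter (fun q => q.1 = T)).card : ℝ) := by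
    rw [hfib]
    push_cast
    rfl
  rw [h4]
  refine (Finset.sum_le_sum hterm).trans ?_
  rw [← Finset.mul_sum]
  apply mul_le_mul_of_nonneg_left _ (by positivity)
  have h5 : ∑ T ∈ B, ((CN H T).card : ℝ) ≤
      ∑ T ∈ univ.filter (fun T : Fin r → α => T s = v), ((CN H T).card : ℝ) := by
    apply Finset.sum_le_sum_of_subset_of_nonneg
    · intro T hT
      rw [hB, Finset.mem_filter] at hT
      rw [Finset.mem_filter]
      exact ⟨hT.1, hT.2.1⟩
    · intro T _ _
      exact Nat.cast_nonneg _
  refine h5.trans ?_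
  have h6 := sum_CN_le H hsymm hd s v
  exact_mod_cast h6

/-- All bags with many common neighbours. -/
lemma bad_total (H : α → α → Prop) [DecidableRel H] (hsymm : ∀ u v, H u v → H v u) {d r : ℕ}
    (hd : ∀ v, (univ.filter (fun w => H v w)).card ≤ d) (K : ℝ) (hK : 0 < K) (s : Fin r) :
    ((univ.filter (fun T : Fin r → α => K < ((CN H T).card : ℝ))).card : ℝ) ≤
      (Fintype.card α : ℝ) * ((d : ℝ) ^ r / K) := by
  have hfib : (univ.filter (fun T : Fin r → α => K < ((CN H T).card : ℝ))).card =
      ∑ v : α, ((univ.filter (fun T : Fin r → α => K < ((CN H T).card : ℝ))).filter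
        (fun T => T s = v)).card :=
    Finset.card_eq_sum_card_fiberwise (fun _ _ => Finset.mem_coe.2 (Finset.mem_univ _))
  have hterm : ∀ v, (((univ.filter (fun T : Fin r → α =>
      K < ((CN H T).card : ℝ))).filter (fun T => T s = v)).card : ℝ) ≤ (d : ℝ) ^ r / K := by
    intro v
    refine le_trans ?_ (bad_count H hsymm hd K hK s v)
    have : ((univ.filter (fun T : Fin r → α =>
        K < ((CN H T).card : ℝ))).filter (fun T => T s = v)).card ≤
        (univ.filter (fun T : Fin r → α => T s = v ∧ K < ((CN H T).card : ℝ))).card := by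
      apply Finset.card_le_card
      intro T hT
      rw [Finset.mem_filter, Finset.mem_filter] at hT
      exact Finset.mem_filter.2 ⟨Finset.mem_univ _, hT.2, hT.1.2⟩
    exact_mod_cast this
  rw [hfib]
  push_cast
  refine (Finset.sum_le_card_nsmul _ _ _ (fun v _ => hterm v)).trans (le_of_eq ?_)
  rw [nsmul_eq_mul, Finset.card_univ]

/-- All conflicts of two bags. -/
lemma conf_total (H : α → α → Prop) [DecidableRel H] (hsymm : ∀ u v, H u v → H v u) {d r : ℕ}
    (hd : ∀ v, (univ.filter (fun w => H v w)).card ≤ d) (K : ℝ) (hK : 0 < K) (s : Fin r) :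
    ((univ.filter (fun q : (Fin r → α) × (Fin r → α) =>
      ((CN H q.1).card : ℝ) ≤ K ∧ ∀ s', q.2 s' ∈ CN H q.1)).card : ℝ) ≤
      (Fintype.card α : ℝ) * (K ^ (r - 1) * (d : ℝ) ^ r) := by
  have hfib : (univ.filter (fun q : (Fin r → α) × (Fin r → α) =>
      ((CN H q.1).card : ℝ) ≤ K ∧ ∀ s', q.2 s' ∈ CN H q.1)).card =
      ∑ v : α, ((univ.filter (fun q : (Fin r → α) × (Fin r → α) =>
        ((CN H q.1).card : ℝ) ≤ K ∧ ∀ s', q.2 s' ∈ CN H q.1)).filter
        (fun q => q.1 s = v)).card :=
    Finset.card_eq_sum_card_fiberwise (fun _ _ => Finset.mem_coe.2 (Finset.mem_univ _))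
  have hterm : ∀ v, (((univ.filter (fun q : (Fin r → α) × (Fin r → α) =>
        ((CN H q.1).card : ℝ) ≤ K ∧ ∀ s', q.2 s' ∈ CN H q.1)).filter
        (fun q => q.1 s = v)).card : ℝ) ≤ K ^ (r - 1) * (d : ℝ) ^ r := by
    intro v
    refine le_trans ?_ (conf_count H hsymm hd K hK s v)
    have : ((univ.filter (fun q : (Fin r → α) × (Fin r → α) =>
        ((CN H q.1).card : ℝ) ≤ K ∧ ∀ s', q.2 s' ∈ CN H q.1)).filter
        (fun q => q.1 s = v)).card ≤
        (univ.filter (fun q : (Fin r → α) × (Fin r → α) =>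
          q.1 s = v ∧ ((CN H q.1).card : ℝ) ≤ K ∧ ∀ s', q.2 s' ∈ CN H q.1)).card := by
      apply Finset.card_le_card
      intro q hq
      rw [Finset.mem_filter, Finset.mem_filter] at hq
      exact Finset.mem_filter.2 ⟨Finset.mem_univ _, hq.2, hq.1.2⟩
    exact_mod_cast this
  rw [hfib]
  push_cast
  refine (Finset.sum_le_card_nsmul _ _ _ (fun v _ => hterm v)).trans (le_of_eq ?_)
  rw [nsmul_eq_mul, Finset.card_univ]

/-- All bags with many common neighbours and a given value at a given place. -/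
lemma bad_total' (H : α → α → Prop) [DecidableRel H] (hsymm : ∀ u v, H u v → H v u) {d r : ℕ}
    (hd : ∀ v, (univ.filter (fun w => H v w)).card ≤ d) (K : ℝ) (hK : 0 < K) (b : α)
    {β : Type*} [Fintype β] [DecidableEq β] (g : β → Fin r) :
    ((univ.filter (fun q : β × (Fin r → α) =>
      q.2 (g q.1) = b ∧ K < ((CN H q.2).card : ℝ))).card : ℝ) ≤
      (Fintype.card β : ℝ) * ((d : ℝ) ^ r / K) := by
  have hfib : (univ.filter (fun q : β × (Fin r → α) =>
      q.2 (g q.1) = b ∧ K < ((CN H q.2).card : ℝ))).card =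
      ∑ x : β, ((univ.filter (fun q : β × (Fin r → α) =>
      q.2 (g q.1) = b ∧ K < ((CN H q.2).card : ℝ))).filter (fun q => q.1 = x)).card :=
    Finset.card_eq_sum_card_fiberwise (fun _ _ => Finset.mem_coe.2 (Finset.mem_univ _))
  have hterm : ∀ x : β, (((univ.filter (fun q : β × (Fin r → α) =>
      q.2 (g q.1) = b ∧ K < ((CN H q.2).card : ℝ))).filter (fun q => q.1 = x)).card : ℝ) ≤
      (d : ℝ) ^ r / K := by
    intro x
    refine le_trans ?_ (bad_count H hsymm hd K hK (g x) b)
    have : ((univ.filter (fun q : β × (Fin r → α) =>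
      q.2 (g q.1) = b ∧ K < ((CN H q.2).card : ℝ))).filter (fun q => q.1 = x)).card ≤
        (univ.filter (fun T : Fin r → α => T (g x) = b ∧ K < ((CN H T).card : ℝ))).card := by
      apply Finset.card_le_card_of_injOn Prod.snd
      · intro q hq
        rw [Finset.mem_coe, Finset.mem_filter, Finset.mem_filter] at hq
        rw [Finset.mem_coe, Finset.mem_filter]
        exact ⟨Finset.mem_univ _, hq.2 ▸ hq.1.2.1, hq.1.2.2⟩
      · intro q hq q' hq' h
        rw [Finset.mem_coe, Finset.mem_filter] at hq hq'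
        exact Prod.ext (hq.2.trans hq'.2.symm) h
    exact_mod_cast this
  rw [hfib]
  push_cast
  refine (Finset.sum_le_card_nsmul _ _ _ (fun v _ => hterm v)).trans (le_of_eq ?_)
  rw [nsmul_eq_mul, Finset.card_univ]

/-- All conflicts of two bags with a given value at a given place. -/
lemma conf_total' (H : α → α → Prop) [DecidableRel H] (hsymm : ∀ u v, H u v → H v u) {d r : ℕ}
    (hd : ∀ v, (univ.filter (fun w => H v w)).card ≤ d) (K : ℝ) (hK : 0 < K) (b : α)
    {β : Type*} [Fintype β] [DecidableEq β] (g : β → Fin r) :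
    ((univ.filter (fun q : β × ((Fin r → α) × (Fin r → α)) =>
      q.2.1 (g q.1) = b ∧ ((CN H q.2.1).card : ℝ) ≤ K ∧ ∀ s', q.2.2 s' ∈ CN H q.2.1)).card : ℝ) ≤
      (Fintype.card β : ℝ) * (K ^ (r - 1) * (d : ℝ) ^ r) := by
  have hfib : (univ.filter (fun q : β × ((Fin r → α) × (Fin r → α)) =>
      q.2.1 (g q.1) = b ∧ ((CN H q.2.1).card : ℝ) ≤ K ∧ ∀ s', q.2.2 s' ∈ CN H q.2.1)).card =
      ∑ x : β, ((univ.filter (fun q : β × ((Fin r → α) × (Fin r → α)) =>
      q.2.1 (g q.1) = b ∧ ((CN H q.2.1).card : ℝ) ≤ K ∧ ∀ s', q.2.2 s' ∈ CN H q.2.1)).filter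
        (fun q => q.1 = x)).card :=
    Finset.card_eq_sum_card_fiberwise (fun _ _ => Finset.mem_coe.2 (Finset.mem_univ _))
  have hterm : ∀ x : β, (((univ.filter (fun q : β × ((Fin r → α) × (Fin r → α)) =>
      q.2.1 (g q.1) = b ∧ ((CN H q.2.1).card : ℝ) ≤ K ∧ ∀ s', q.2.2 s' ∈ CN H q.2.1)).filter
        (fun q => q.1 = x)).card : ℝ) ≤ K ^ (r - 1) * (d : ℝ) ^ r := by
    intro x
    refine le_trans ?_ (conf_count H hsymm hd K hK (g x) b)
    have : ((univ.filter (fun q : β × ((Fin r → α) × (Fin r → α)) =>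
      q.2.1 (g q.1) = b ∧ ((CN H q.2.1).card : ℝ) ≤ K ∧ ∀ s', q.2.2 s' ∈ CN H q.2.1)).filter
        (fun q => q.1 = x)).card ≤
        (univ.filter (fun q : (Fin r → α) × (Fin r → α) =>
          q.1 (g x) = b ∧ ((CN H q.1).card : ℝ) ≤ K ∧ ∀ s', q.2 s' ∈ CN H q.1)).card := by
      apply Finset.card_le_card_of_injOn Prod.snd
      · intro q hq
        rw [Finset.mem_coe, Finset.mem_filter, Finset.mem_filter] at hq
        rw [Finset.mem_coe, Finset.mem_filter]
        exact ⟨Finset.mem_univ _, hq.2 ▸ hq.1.2.1, hq.1.2.2⟩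
      · intro q hq q' hq' h
        rw [Finset.mem_coe, Finset.mem_filter] at hq hq'
        exact Prod.ext (hq.2.trans hq'.2.symm) h
    exact_mod_cast this
  rw [hfib]
  push_cast
  refine (Finset.sum_le_card_nsmul _ _ _ (fun v _ => hterm v)).trans (le_of_eq ?_)
  rw [nsmul_eq_mul, Finset.card_univ]

omit [DecidableEq α] in
lemma H_pairs_le (H : α → α → Prop) [DecidableRel H] {d : ℕ}
    (hd : ∀ v, (univ.filter (fun w => H v w)).card ≤ d) :
    (univ.filter (fun q : α × α => H q.1 q.2)).card ≤ Fintype.card α * d := by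
  classical
  have hfib : (univ.filter (fun q : α × α => H q.1 q.2)).card =
      ∑ y : α, ((univ.filter (fun q : α × α => H q.1 q.2)).filter (fun q => q.1 = y)).card :=
    Finset.card_eq_sum_card_fiberwise (fun _ _ => Finset.mem_coe.2 (Finset.mem_univ _))
  have hterm : ∀ y : α, ((univ.filter (fun q : α × α =>
        H q.1 q.2)).filter (fun q => q.1 = y)).card ≤ d := by
    intro y
    refine le_trans ?_ (hd y)
    apply Finset.card_le_card_of_injOn Prod.snd
    · intro q hq
      rw [Finset.mem_coe, Finset.mem_filter, Finset.mem_filter] at hq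
      rw [Finset.mem_coe, Finset.mem_filter]
      exact ⟨Finset.mem_univ _, hq.2 ▸ hq.1.2⟩
    · intro q hq q' hq' h
      rw [Finset.mem_coe, Finset.mem_filter] at hq hq'
      exact Prod.ext (hq.2.trans hq'.2.symm) h
  rw [hfib]
  refine (Finset.sum_le_sum (fun y _ => hterm y)).trans (le_of_eq ?_)
  rw [Finset.sum_const, Finset.card_univ, smul_eq_mul]

end

end Pool.Agent.H66.HW
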