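import Mathlib
import Pool.Agent.H66.HW.Bags1

/-!
The events of the random partition and their local weights (helper66).
-/

set_option autoImplicit false

namespace Pool.Agent.H66.HW

open Finset

lemma sum_wg_le {α β : Type*} [Fintype α] (A : Finset (Finset (α × α))) (S : Finset β)
    (g : β → Finset (α × α)) (c M : ℝ) (hc : 0 ≤ c) (hA : ∀ f ∈ A, ∃ q ∈ S, g q = f)
    (hw : ∀ f ∈ A, wg f = c) (hS : (S.card : ℝ) ≤ M) : ∑ f ∈ A, wg f ≤ M * c := by
  classical
  rw [Finset.sum_congr rfl hw, Finset.sum_const, nsmul_eq_mul]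
  apply mul_le_mul_of_nonneg_right _ hc
  have h1 : A ⊆ S.image g := by
    intro f hf
    rw [Finset.mem_image]
    exact hA f hf
  have h2 : A.card ≤ S.card := (Finset.card_le_card h1).trans Finset.card_image_le
  have h3 : (A.card : ℝ) ≤ (S.card : ℝ) := by exact_mod_cast h2
  linarith

section

variable {m r : ℕ}

/-- The prescribed content of a bag. -/
def bg (i : Fin m) (T : Fin r → Fin m × Fin r) :
    Finset ((Fin m × Fin r) × (Fin m × Fin r)) :=
  univ.image (fun s => ((i, s), T s))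

lemma mem_bg {i : Fin m} {T : Fin r → Fin m × Fin r} {p : (Fin m × Fin r) × (Fin m × Fin r)} :
    p ∈ bg i T ↔ ∃ s, ((i, s), T s) = p := by
  simp [bg]

lemma card_bg (i : Fin m) (T : Fin r → Fin m × Fin r) : (bg i T).card = r := by
  unfold bg
  rw [Finset.card_image_of_injective, Finset.card_univ, Fintype.card_fin]
  intro s s' h
  have := congrArg (fun p => p.1.2) h
  exact this

lemma card_bg_union {i i' : Fin m} (hi : i ≠ i') (T T' : Fin r → Fin m × Fin r) :
    (bg i T ∪ bg i' T').card = 2 * r := by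
  rw [Finset.card_union_of_disjoint, card_bg, card_bg, two_mul]
  rw [Finset.disjoint_left]
  intro p hp hp'
  obtain ⟨s, rfl⟩ := mem_bg.1 hp
  obtain ⟨s', h⟩ := mem_bg.1 hp'
  exact hi (congrArg (fun p => p.1.1) h).symm

lemma pinj_bg (i : Fin m) (T : Fin r → Fin m × Fin r) (hT : Function.Injective T) :
    PInj (bg i T) := by
  intro p hp q hq h
  obtain ⟨s, rfl⟩ := mem_bg.1 hp
  obtain ⟨s', rfl⟩ := mem_bg.1 hq
  rcases h with h | h
  · have : s = s' := congrArg Prod.snd h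
    rw [this]
  · have : s = s' := hT h
    rw [this]

lemma pinj_bg_union {i i' : Fin m} (hi : i ≠ i') (T T' : Fin r → Fin m × Fin r)
    (hT : Function.Injective T) (hT' : Function.Injective T') (hTT : ∀ s s', T s ≠ T' s') :
    PInj (bg i T ∪ bg i' T') := by
  intro p hp q hq h
  rw [Finset.mem_union] at hp hq
  rcases hp with hp | hp <;> rcases hq with hq | hq
  · exact pinj_bg i T hT p hp q hq h
  · exfalso
    obtain ⟨s, rfl⟩ := mem_bg.1 hp
    obtain ⟨s', rfl⟩ := mem_bg.1 hq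
    rcases h with h | h
    · exact hi (congrArg Prod.fst h)
    · exact hTT s s' h
  · exfalso
    obtain ⟨s, rfl⟩ := mem_bg.1 hp
    obtain ⟨s', rfl⟩ := mem_bg.1 hq
    rcases h with h | h
    · exact hi (congrArg Prod.fst h).symm
    · exact hTT s' s h.symm
  · exact pinj_bg i' T' hT' p hp q hq h

/-- An edge inside a bag. -/
def IsB1 (H : Fin m × Fin r → Fin m × Fin r → Prop)
    (f : Finset ((Fin m × Fin r) × (Fin m × Fin r))) : Prop :=
  ∃ x y x' y', x.1 = x'.1 ∧ x ≠ x' ∧ H y y' ∧ {(x, y), (x', y')} = f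

/-- A bag with many common neighbours. -/
def IsB2 (H : Fin m × Fin r → Fin m × Fin r → Prop) [DecidableRel H] (K : ℝ)
    (f : Finset ((Fin m × Fin r) × (Fin m × Fin r))) : Prop :=
  ∃ i T, Function.Injective T ∧ K < ((CN H T).card : ℝ) ∧ bg i T = f

/-- Two bags spanning a complete bipartite graph. -/
def IsB3 (H : Fin m × Fin r → Fin m × Fin r → Prop) [DecidableRel H] (K : ℝ)
    (f : Finset ((Fin m × Fin r) × (Fin m × Fin r))) : Prop :=
  ∃ i i' T T', i ≠ i' ∧ Function.Injective T ∧ Function.Injective T' ∧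
      ((CN H T).card : ℝ) ≤ K ∧ ((CN H T').card : ℝ) ≤ K ∧ (∀ s s', H (T s) (T' s')) ∧
      bg i T ∪ bg i' T' = f

lemma IsB1.card {H : Fin m × Fin r → Fin m × Fin r → Prop}
    {f : Finset ((Fin m × Fin r) × (Fin m × Fin r))} (h : IsB1 H f) : f.card = 2 := by
  obtain ⟨x, y, x', y', -, hx, -, rfl⟩ := h
  rw [Finset.card_pair]
  intro h
  exact hx (congrArg Prod.fst h)

lemma IsB2.card {H : Fin m × Fin r → Fin m × Fin r → Prop} [DecidableRel H] {K : ℝ}
    {f : Finset ((Fin m × Fin r) × (Fin m × Fin r))} (h : IsB2 H K f) : f.card = r := by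
  obtain ⟨i, T, -, -, rfl⟩ := h
  exact card_bg i T

lemma IsB3.card {H : Fin m × Fin r → Fin m × Fin r → Prop} [DecidableRel H] {K : ℝ}
    {f : Finset ((Fin m × Fin r) × (Fin m × Fin r))} (h : IsB3 H K f) : f.card = 2 * r := by
  obtain ⟨i, i', T, T', hi, -, -, -, -, -, rfl⟩ := h
  exact card_bg_union hi T T'

lemma wg_eq (f : Finset ((Fin m × Fin r) × (Fin m × Fin r))) :
    wg f = (2 / ((m : ℝ) * r)) ^ f.card := by
  unfold wg
  rw [Fintype.card_prod, Fintype.card_fin, Fintype.card_fin]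
  push_cast
  rfl

lemma F1 (H : Fin m × Fin r → Fin m × Fin r → Prop) [DecidableRel H]
    (hsymm : ∀ u v, H u v → H v u) {d : ℕ}
    (hd : ∀ v, (univ.filter (fun w => H v w)).card ≤ d) (a : Fin m × Fin r)
    (A : Finset (Finset ((Fin m × Fin r) × (Fin m × Fin r))))
    (hA : ∀ f ∈ A, IsB1 H f ∧ ∃ p ∈ f, p.1 = a) :
    ∑ f ∈ A, wg f ≤ ((m : ℝ) * r * (r * d)) * (2 / ((m : ℝ) * r)) ^ 2 := by
  refine sum_wg_le _ ((univ : Finset (Fin r)) ×ˢ
      (univ.filter (fun q : (Fin m × Fin r) × (Fin m × Fin r) => H q.1 q.2)))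
      (fun q => {(a, q.2.1), ((a.1, q.1), q.2.2)}) ((2 / ((m : ℝ) * r)) ^ 2)
      ((m : ℝ) * r * (r * d)) (by positivity) ?_ ?_ ?_
  · intro f hf
    obtain ⟨⟨x, y, x', y', e1, e2, e3, rfl⟩, p, hp, hpa⟩ := hA f hf
    rw [Finset.mem_insert, Finset.mem_singleton] at hp
    rcases hp with rfl | rfl
    · have hxa : x = a := hpa
      subst hxa
      refine ⟨(x'.2, (y, y')), ?_, ?_⟩
      · rw [Finset.mem_product, Finset.mem_filter]
        exact ⟨Finset.mem_univ _, Finset.mem_univ _, e3⟩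
      · have : (x.1, x'.2) = x' := Prod.ext e1 rfl
        simp only [this]
    · have hxa : x' = a := hpa
      subst hxa
      refine ⟨(x.2, (y', y)), ?_, ?_⟩
      · rw [Finset.mem_product, Finset.mem_filter]
        exact ⟨Finset.mem_univ _, Finset.mem_univ _, hsymm _ _ e3⟩
      · have : (x'.1, x.2) = x := Prod.ext e1.symm rfl
        simp only [this]
        exact Finset.pair_comm _ _
  · intro f hf
    rw [wg_eq, (hA f hf).1.card]
  · have h1 := H_pairs_le H hd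
    rw [Fintype.card_prod, Fintype.card_fin, Fintype.card_fin] at h1
    have h2 : ((univ.filter (fun q : (Fin m × Fin r) × (Fin m × Fin r) =>
        H q.1 q.2)).card : ℝ) ≤ (m : ℝ) * r * d := by exact_mod_cast h1
    rw [Finset.card_product, Finset.card_univ, Fintype.card_fin]
    push_cast
    have := mul_le_mul_of_nonneg_left h2 (Nat.cast_nonneg (α := ℝ) r)
    linarith

lemma G1 (H : Fin m × Fin r → Fin m × Fin r → Prop) [DecidableRel H]
    (hsymm : ∀ u v, H u v → H v u) {d : ℕ}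
    (hd : ∀ v, (univ.filter (fun w => H v w)).card ≤ d) (b : Fin m × Fin r)
    (A : Finset (Finset ((Fin m × Fin r) × (Fin m × Fin r))))
    (hA : ∀ f ∈ A, IsB1 H f ∧ ∃ p ∈ f, p.2 = b) :
    ∑ f ∈ A, wg f ≤ ((m : ℝ) * r * (r * d)) * (2 / ((m : ℝ) * r)) ^ 2 := by
  refine sum_wg_le _ ((univ : Finset (Fin m × Fin r)) ×ˢ
      ((univ : Finset (Fin r)) ×ˢ (univ.filter (fun y : Fin m × Fin r => H b y))))
      (fun q => {(q.1, b), ((q.1.1, q.2.1), q.2.2)}) ((2 / ((m : ℝ) * r)) ^ 2)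
      ((m : ℝ) * r * (r * d)) (by positivity) ?_ ?_ ?_
  · intro f hf
    obtain ⟨⟨x, y, x', y', e1, e2, e3, rfl⟩, p, hp, hpa⟩ := hA f hf
    rw [Finset.mem_insert, Finset.mem_singleton] at hp
    rcases hp with rfl | rfl
    · have hyb : y = b := hpa
      subst hyb
      refine ⟨(x, (x'.2, y')), ?_, ?_⟩
      · rw [Finset.mem_product, Finset.mem_product, Finset.mem_filter]
        exact ⟨Finset.mem_univ _, Finset.mem_univ _, Finset.mem_univ _, e3⟩
      · have : (x.1, x'.2) = x' := Prod.ext e1 rfl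
        simp only [this]
    · have hyb : y' = b := hpa
      subst hyb
      refine ⟨(x', (x.2, y)), ?_, ?_⟩
      · rw [Finset.mem_product, Finset.mem_product, Finset.mem_filter]
        exact ⟨Finset.mem_univ _, Finset.mem_univ _, Finset.mem_univ _, hsymm _ _ e3⟩
      · have : (x'.1, x.2) = x := Prod.ext e1.symm rfl
        simp only [this]
        exact Finset.pair_comm _ _
  · intro f hf
    rw [wg_eq, (hA f hf).1.card]
  · have h1 : (univ : Finset (Fin m × Fin r)).card = m * r := by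
      rw [Finset.card_univ, Fintype.card_prod, Fintype.card_fin, Fintype.card_fin]
    rw [Finset.card_product, Finset.card_product, h1, Finset.card_univ, Fintype.card_fin]
    have h2 : m * r * (r * (univ.filter (fun y : Fin m × Fin r => H b y)).card) ≤
        m * r * (r * d) := Nat.mul_le_mul_left _ (Nat.mul_le_mul_left _ (hd b))
    exact_mod_cast h2

lemma F2 (H : Fin m × Fin r → Fin m × Fin r → Prop) [DecidableRel H]
    (hsymm : ∀ u v, H u v → H v u) {d : ℕ}
    (hd : ∀ v, (univ.filter (fun w => H v w)).card ≤ d) (K : ℝ) (hK : 0 < K)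
    (a : Fin m × Fin r)
    (A : Finset (Finset ((Fin m × Fin r) × (Fin m × Fin r))))
    (hA : ∀ f ∈ A, IsB2 H K f ∧ ∃ p ∈ f, p.1 = a) :
    ∑ f ∈ A, wg f ≤ ((m : ℝ) * r * ((d : ℝ) ^ r / K)) * (2 / ((m : ℝ) * r)) ^ r := by
  refine sum_wg_le _ (univ.filter (fun T : Fin r → Fin m × Fin r =>
      K < ((CN H T).card : ℝ)))
      (fun T => bg a.1 T) ((2 / ((m : ℝ) * r)) ^ r)
      ((m : ℝ) * r * ((d : ℝ) ^ r / K)) (by positivity) ?_ ?_ ?_
  · intro f hf
    obtain ⟨⟨i, T, -, e2, rfl⟩, p, hp, hpa⟩ := hA f hf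
    obtain ⟨s, rfl⟩ := mem_bg.1 hp
    have hi : i = a.1 := congrArg Prod.fst hpa
    subst hi
    exact ⟨T, Finset.mem_filter.2 ⟨Finset.mem_univ _, e2⟩, rfl⟩
  · intro f hf
    rw [wg_eq, (hA f hf).1.card]
  · have := bad_total H hsymm hd K hK a.2
    rw [Fintype.card_prod, Fintype.card_fin, Fintype.card_fin] at this
    push_cast at this
    exact this

lemma G2 (H : Fin m × Fin r → Fin m × Fin r → Prop) [DecidableRel H]
    (hsymm : ∀ u v, H u v → H v u) {d : ℕ}
    (hd : ∀ v, (univ.filter (fun w => H v w)).card ≤ d) (K : ℝ) (hK : 0 < K)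
    (b : Fin m × Fin r)
    (A : Finset (Finset ((Fin m × Fin r) × (Fin m × Fin r))))
    (hA : ∀ f ∈ A, IsB2 H K f ∧ ∃ p ∈ f, p.2 = b) :
    ∑ f ∈ A, wg f ≤ ((m : ℝ) * r * ((d : ℝ) ^ r / K)) * (2 / ((m : ℝ) * r)) ^ r := by
  refine sum_wg_le _ (univ.filter (fun q : (Fin m × Fin r) ×
      (Fin r → Fin m × Fin r) => q.2 (Prod.snd q.1) = b ∧ K < ((CN H q.2).card : ℝ)))
      (fun q => bg q.1.1 q.2) ((2 / ((m : ℝ) * r)) ^ r)
      ((m : ℝ) * r * ((d : ℝ) ^ r / K)) (by positivity) ?_ ?_ ?_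
  · intro f hf
    obtain ⟨⟨i, T, -, e2, rfl⟩, p, hp, hpa⟩ := hA f hf
    obtain ⟨s, rfl⟩ := mem_bg.1 hp
    refine ⟨((i, s), T), ?_, rfl⟩
    rw [Finset.mem_filter]
    exact ⟨Finset.mem_univ _, hpa, e2⟩
  · intro f hf
    rw [wg_eq, (hA f hf).1.card]
  · have := bad_total' H hsymm hd K hK b (β := Fin m × Fin r) Prod.snd
    rw [Fintype.card_prod, Fintype.card_fin, Fintype.card_fin] at this
    push_cast at this
    exact this

lemma F3 (H : Fin m × Fin r → Fin m × Fin r → Prop) [DecidableRel H]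
    (hsymm : ∀ u v, H u v → H v u) {d : ℕ}
    (hd : ∀ v, (univ.filter (fun w => H v w)).card ≤ d) (K : ℝ) (hK : 0 < K)
    (a : Fin m × Fin r)
    (A : Finset (Finset ((Fin m × Fin r) × (Fin m × Fin r))))
    (hA : ∀ f ∈ A, IsB3 H K f ∧ ∃ p ∈ f, p.1 = a) :
    ∑ f ∈ A, wg f ≤
      ((m : ℝ) * r * (m * (K ^ (r - 1) * (d : ℝ) ^ r))) * (2 / ((m : ℝ) * r)) ^ (2 * r) := by
  refine sum_wg_le _ ((univ : Finset (Fin m)) ×ˢ
      (univ.filter (fun q : (Fin r → Fin m × Fin r) × (Fin r → Fin m × Fin r) =>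
        ((CN H q.1).card : ℝ) ≤ K ∧ ∀ s', q.2 s' ∈ CN H q.1)))
      (fun q => bg a.1 q.2.1 ∪ bg q.1 q.2.2) ((2 / ((m : ℝ) * r)) ^ (2 * r))
      ((m : ℝ) * r * (m * (K ^ (r - 1) * (d : ℝ) ^ r))) (by positivity) ?_ ?_ ?_
  · intro f hf
    obtain ⟨⟨i, i', T, T', e1, -, -, e4, e5, e6, rfl⟩, p, hp, hpa⟩ := hA f hf
    rw [Finset.mem_union] at hp
    rcases hp with hp | hp
    · obtain ⟨s, rfl⟩ := mem_bg.1 hp
      have hi : i = a.1 := congrArg Prod.fst hpa
      subst hi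
      refine ⟨(i', (T, T')), ?_, rfl⟩
      rw [Finset.mem_product, Finset.mem_filter]
      exact ⟨Finset.mem_univ _, Finset.mem_univ _, e4, fun s' => mem_CN.2 (fun s => e6 s s')⟩
    · obtain ⟨s, rfl⟩ := mem_bg.1 hp
      have hi : i' = a.1 := congrArg Prod.fst hpa
      subst hi
      refine ⟨(i, (T', T)), ?_, Finset.union_comm _ _⟩
      rw [Finset.mem_product, Finset.mem_filter]
      exact ⟨Finset.mem_univ _, Finset.mem_univ _, e5,
        fun s' => mem_CN.2 (fun s => hsymm _ _ (e6 s' s))⟩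
  · intro f hf
    rw [wg_eq, (hA f hf).1.card]
  · have h1 := conf_total H hsymm hd K hK a.2
    rw [Fintype.card_prod, Fintype.card_fin, Fintype.card_fin] at h1
    rw [Finset.card_product, Finset.card_univ, Fintype.card_fin]
    push_cast at h1 ⊢
    have := mul_le_mul_of_nonneg_left h1 (Nat.cast_nonneg (α := ℝ) m)
    linarith

lemma G3 (H : Fin m × Fin r → Fin m × Fin r → Prop) [DecidableRel H]
    (hsymm : ∀ u v, H u v → H v u) {d : ℕ}
    (hd : ∀ v, (univ.filter (fun w => H v w)).card ≤ d) (K : ℝ) (hK : 0 < K)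
    (b : Fin m × Fin r)
    (A : Finset (Finset ((Fin m × Fin r) × (Fin m × Fin r))))
    (hA : ∀ f ∈ A, IsB3 H K f ∧ ∃ p ∈ f, p.2 = b) :
    ∑ f ∈ A, wg f ≤
      ((m : ℝ) * r * (m * (K ^ (r - 1) * (d : ℝ) ^ r))) * (2 / ((m : ℝ) * r)) ^ (2 * r) := by
  refine sum_wg_le _ ((univ : Finset (Fin m)) ×ˢ (univ.filter (fun q :
      (Fin m × Fin r) × ((Fin r → Fin m × Fin r) × (Fin r → Fin m × Fin r)) =>
        q.2.1 (Prod.snd q.1) = b ∧ ((CN H q.2.1).card : ℝ) ≤ K ∧
          ∀ s', q.2.2 s' ∈ CN H q.2.1)))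
      (fun q => bg q.2.1.1 q.2.2.1 ∪ bg q.1 q.2.2.2) ((2 / ((m : ℝ) * r)) ^ (2 * r))
      ((m : ℝ) * r * (m * (K ^ (r - 1) * (d : ℝ) ^ r))) (by positivity) ?_ ?_ ?_
  · intro f hf
    obtain ⟨⟨i, i', T, T', e1, -, -, e4, e5, e6, rfl⟩, p, hp, hpa⟩ := hA f hf
    rw [Finset.mem_union] at hp
    rcases hp with hp | hp
    · obtain ⟨s, rfl⟩ := mem_bg.1 hp
      refine ⟨(i', ((i, s), (T, T'))), ?_, rfl⟩
      rw [Finset.mem_product, Finset.mem_filter]
      exact ⟨Finset.mem_univ _, Finset.mem_univ _, hpa, e4,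
        fun s' => mem_CN.2 (fun s => e6 s s')⟩
    · obtain ⟨s, rfl⟩ := mem_bg.1 hp
      refine ⟨(i, ((i', s), (T', T))), ?_, Finset.union_comm _ _⟩
      rw [Finset.mem_product, Finset.mem_filter]
      exact ⟨Finset.mem_univ _, Finset.mem_univ _, hpa, e5,
        fun s' => mem_CN.2 (fun s => hsymm _ _ (e6 s' s))⟩
  · intro f hf
    rw [wg_eq, (hA f hf).1.card]
  · have h1 := conf_total' H hsymm hd K hK b (β := Fin m × Fin r) Prod.snd
    rw [Fintype.card_prod, Fintype.card_fin, Fintype.card_fin] at h1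
    rw [Finset.card_product, Finset.card_univ, Fintype.card_fin]
    push_cast at h1 ⊢
    have := mul_le_mul_of_nonneg_left h1 (Nat.cast_nonneg (α := ℝ) m)
    linarith

end

end Pool.Agent.H66.HW
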