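import Mathlib
import Pool.Agent.H66.HW.Bags2

/-!
The sparse partition lemma (helper66).
-/

set_option autoImplicit false

namespace Pool.Agent.H66.HW

open Finset

variable {m r : ℕ}

lemma sum_union_three {γ : Type*} [DecidableEq γ] (w : γ → ℝ) (hw : ∀ c, 0 ≤ w c)
    (A B C : Finset γ) : ∑ f ∈ A ∪ (B ∪ C), w f ≤ ∑ f ∈ A, w f + (∑ f ∈ B, w f + ∑ f ∈ C, w f) := by
  have u1 := Finset.sum_union_inter (s₁ := A) (s₂ := B ∪ C) (f := w)
  have u2 := Finset.sum_union_inter (s₁ := B) (s₂ := C) (f := w)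
  have u3 : 0 ≤ ∑ f ∈ A ∩ (B ∪ C), w f := Finset.sum_nonneg (fun f _ => hw f)
  have u4 : 0 ≤ ∑ f ∈ B ∩ C, w f := Finset.sum_nonneg (fun f _ => hw f)
  linarith

lemma three_le (r : ℕ) (hr : 0 < r) (x y z : ℝ) (hx : x ≤ 1 / (64 * (r : ℝ)))
    (hy : y ≤ 1 / (64 * (r : ℝ))) (hz : z ≤ 1 / (64 * (r : ℝ))) :
    x + (y + z) ≤ 1 / (16 * (r : ℝ)) := by
  have hrpos : (0 : ℝ) < r := by exact_mod_cast hr
  have h1 : 1 / (16 * (r : ℝ)) = 4 * (1 / (64 * (r : ℝ))) := by
    field_simp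
    norm_num
  have h2 : 0 < 1 / (64 * (r : ℝ)) := by positivity
  linarith

/-- The sparse partition lemma. -/
theorem bags (hr : 0 < r) (H : Fin m × Fin r → Fin m × Fin r → Prop) [DecidableRel H]
    (hsymm : ∀ u v, H u v → H v u) (hirr : ∀ u, ¬ H u u) {d : ℕ}
    (hd : ∀ v, (univ.filter (fun w => H v w)).card ≤ d) (hN : 4 ≤ m) (K : ℝ) (hK : 0 < K)
    (h1 : ((m : ℝ) * r * (r * d)) * (2 / ((m : ℝ) * r)) ^ 2 ≤ 1 / (64 * (r : ℝ)))
    (h2 : ((m : ℝ) * r * ((d : ℝ) ^ r / K)) * (2 / ((m : ℝ) * r)) ^ r ≤ 1 / (64 * (r : ℝ)))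
    (h3 : ((m : ℝ) * r * (m * (K ^ (r - 1) * (d : ℝ) ^ r))) * (2 / ((m : ℝ) * r)) ^ (2 * r) ≤
      1 / (64 * (r : ℝ))) :
    ∃ π : Equiv.Perm (Fin m × Fin r),
      (∀ i s s', s ≠ s' → ¬ H (π (i, s)) (π (i, s'))) ∧
      ∀ i i', i ≠ i' → ∃ s s', ¬ H (π (i, s)) (π (i', s')) := by
  classical
  have hcard : Fintype.card (Fin m × Fin r) = m * r := by
    rw [Fintype.card_prod, Fintype.card_fin, Fintype.card_fin]
  obtain ⟨B, hB⟩ : ∃ B : Finset (Finset ((Fin m × Fin r) × (Fin m × Fin r))),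
      ∀ f, f ∈ B ↔ (IsB1 H f ∨ IsB2 H K f ∨ IsB3 H K f) :=
    ⟨univ.filter (fun f => IsB1 H f ∨ IsB2 H K f ∨ IsB3 H K f), fun f => by
      rw [Finset.mem_filter]
      exact ⟨fun h => h.2, fun h => ⟨Finset.mem_univ _, h⟩⟩⟩
  have key : ∀ (P : Finset ((Fin m × Fin r) × (Fin m × Fin r)) → Prop),
      ∃ F1' F2' F3' : Finset (Finset ((Fin m × Fin r) × (Fin m × Fin r))),
        (∀ f ∈ F1', IsB1 H f ∧ P f) ∧ (∀ f ∈ F2', IsB2 H K f ∧ P f) ∧
        (∀ f ∈ F3', IsB3 H K f ∧ P f) ∧ ∀ f ∈ B, P f → f ∈ F1' ∪ (F2' ∪ F3') := by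
    intro P
    refine ⟨B.filter (fun f => IsB1 H f ∧ P f), B.filter (fun f => IsB2 H K f ∧ P f),
      B.filter (fun f => IsB3 H K f ∧ P f), fun f hf => (Finset.mem_filter.1 hf).2,
      fun f hf => (Finset.mem_filter.1 hf).2, fun f hf => (Finset.mem_filter.1 hf).2, ?_⟩
    intro f hf hP
    rw [Finset.mem_union, Finset.mem_union]
    rcases (hB f).1 hf with h | h | h
    · exact Or.inl (Finset.mem_filter.2 ⟨hf, h, hP⟩)
    · exact Or.inr (Or.inl (Finset.mem_filter.2 ⟨hf, h, hP⟩))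
    · exact Or.inr (Or.inr (Finset.mem_filter.2 ⟨hf, h, hP⟩))
  choose A1 A2 A3 hA1 hA2 hA3 hA using key
  obtain ⟨π, hπ⟩ := perm_avoid_gen hr (by rw [hcard]; exact Nat.mul_le_mul_right _ hN) B (by
      intro e he
      rcases (hB e).1 he with h | h | h
      · refine ⟨?_, by rw [h.card]; omega⟩
        obtain ⟨x, y, x', y', e1, e2, e3, rfl⟩ := h
        have hyy : y ≠ y' := by
          rintro rfl
          exact hirr _ e3
        intro p hp q hq h
        rw [Finset.mem_insert, Finset.mem_singleton] at hp hq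
        rcases hp with rfl | rfl <;> rcases hq with rfl | rfl
        · rfl
        · rcases h with h | h
          · exact absurd h e2
          · exact absurd h hyy
        · rcases h with h | h
          · exact absurd h.symm e2
          · exact absurd h.symm hyy
        · rfl
      · refine ⟨?_, by rw [h.card]; omega⟩
        obtain ⟨i, T, e1, -, rfl⟩ := h
        exact pinj_bg i T e1
      · refine ⟨?_, by rw [h.card]⟩
        obtain ⟨i, i', T, T', e1, e2, e3, -, -, e6, rfl⟩ := h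
        exact pinj_bg_union e1 T T' e2 e3 (fun s s' h => hirr _ (h ▸ e6 s s')))
    (fun a => A1 (fun f => ∃ p ∈ f, p.1 = a) ∪ (A2 (fun f => ∃ p ∈ f, p.1 = a) ∪
      A3 (fun f => ∃ p ∈ f, p.1 = a)))
    (fun b => A1 (fun f => ∃ p ∈ f, p.2 = b) ∪ (A2 (fun f => ∃ p ∈ f, p.2 = b) ∪
      A3 (fun f => ∃ p ∈ f, p.2 = b)))
    (fun a f hf h => hA _ f hf h) (fun b f hf h => hA _ f hf h)
    (fun a => (sum_union_three wg wg_nonneg _ _ _).trans (three_le r hr _ _ _
      ((F1 H hsymm hd a _ (hA1 _)).trans h1) ((F2 H hsymm hd K hK a _ (hA2 _)).trans h2)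
      ((F3 H hsymm hd K hK a _ (hA3 _)).trans h3)))
    (fun b => (sum_union_three wg wg_nonneg _ _ _).trans (three_le r hr _ _ _
      ((G1 H hsymm hd b _ (hA1 _)).trans h1) ((G2 H hsymm hd K hK b _ (hA2 _)).trans h2)
      ((G3 H hsymm hd K hK b _ (hA3 _)).trans h3)))
  have hTinj : ∀ i, Function.Injective (fun s => π (i, s)) := by
    intro i s s' h
    exact congrArg Prod.snd (π.injective h)
  have hCN : ∀ i, ((CN H (fun s => π (i, s))).card : ℝ) ≤ K := by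
    intro i
    by_contra hcon
    push Not at hcon
    refine hπ (bg i (fun s => π (i, s))) ?_ ?_ ?_
    · exact (hB _).2 (Or.inr (Or.inl ⟨i, _, hTinj i, hcon, rfl⟩))
    · rw [← Finset.card_pos, card_bg]
      exact hr
    · intro p hp
      obtain ⟨s, rfl⟩ := mem_bg.1 hp
      rfl
  refine ⟨π, ?_, ?_⟩
  · intro i s s' hss hH
    refine hπ {((i, s), π (i, s)), ((i, s'), π (i, s'))} ?_ ⟨_, Finset.mem_insert_self _ _⟩ ?_
    · refine (hB _).2 (Or.inl ⟨(i, s), π (i, s), (i, s'), π (i, s'), rfl, ?_, hH, rfl⟩)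
      intro h
      exact hss (congrArg Prod.snd h)
    · intro p hp
      rw [Finset.mem_insert, Finset.mem_singleton] at hp
      rcases hp with rfl | rfl <;> rfl
  · intro i i' hii
    by_contra hcon
    push Not at hcon
    refine hπ (bg i (fun s => π (i, s)) ∪ bg i' (fun s => π (i', s))) ?_ ?_ ?_
    · exact (hB _).2 (Or.inr (Or.inr ⟨i, i', _, _, hii, hTinj i, hTinj i', hCN i, hCN i',
        hcon, rfl⟩))
    · rw [← Finset.card_pos, card_bg_union hii]
      omega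
    · intro p hp
      rw [Finset.mem_union] at hp
      rcases hp with hp | hp
      · obtain ⟨s, rfl⟩ := mem_bg.1 hp
        rfl
      · obtain ⟨s, rfl⟩ := mem_bg.1 hp
        rfl

end Pool.Agent.H66.HW
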