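import Mathlib
import Pool.Agent.Lib.H80Dense
import Pool.Agent.H66.HW.Pairing
import Pool.Agent.H66.HW.Comp

/-!
Hadwiger's conjecture for graphs whose complement has maximum degree `d` and a matching with
`90 d ^ (4/3)` edges (helper66).
-/

set_option autoImplicit false

namespace Pool.Agent.H66.HW

open SimpleGraph Finset Pool.Agent.Lib.H80

variable {V : Type*}

/-- The critical subgraph has many vertices which are not representatives. -/
theorem case_one [Fintype V] [DecidableEq V] (G : SimpleGraph V) {d k m : ℕ}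
    (hd : ∀ v, (Set.ncard {w | v ≠ w ∧ ¬ G.Adj v w}) ≤ d)
    (A : Finset V) (u : V → V) (hu1 : ∀ v ∈ A, u v ∈ A) (hu2 : ∀ v ∈ A, u (u v) = u v)
    (hu3 : ∀ v ∈ A, ∀ w ∈ A, v ≠ w → ¬ G.Adj v w → u v = u w)
    (hcard : 2 * (k + 1) ≤ A.card + (A.image u).card)
    (hm : m = (A.filter (fun v => u v ≠ v)).card / 2)
    (hm2 : 2 ≤ m) (h1 : 83 * d ≤ m)
    (h2 : 2744 * (d : ℝ) ^ 4 ≤ (m : ℝ) ^ 2 * ((m : ℝ) - 1)) :
    Model G Set.univ (Fin (k + 1)) := by
  classical
  set H : V → V → Prop := fun v w => v ≠ w ∧ ¬ G.Adj v w with hH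
  have hsymm : ∀ v w, H v w → H w v := fun v w h => ⟨h.1.symm, fun h' => h.2 h'.symm⟩
  have hdH : ∀ v, (univ.filter (fun w => H v w)).card ≤ d := by
    intro v
    have := hd v
    rw [Set.ncard_eq_toFinset_card'] at this
    refine le_trans (Finset.card_le_card ?_) this
    intro w hw
    rw [Finset.mem_filter] at hw
    rw [Set.mem_toFinset]
    exact hw.2
  set Rp := A.filter (fun v => u v = v) with hRp
  set Y := A.filter (fun v => u v ≠ v) with hY
  have hsplit : Rp.card + Y.card = A.card := Finset.card_filter_add_card_filter_not _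
  have himg : (A.image u).card ≤ Rp.card := by
    apply Finset.card_le_card
    intro x hx
    obtain ⟨v, hv, rfl⟩ := Finset.mem_image.1 hx
    exact Finset.mem_filter.2 ⟨hu1 v hv, hu2 v hv⟩
  obtain ⟨e⟩ : Nonempty (Fin m ⊕ Fin m ↪ Y) := by
    apply Function.Embedding.nonempty_of_card_le
    rw [Fintype.card_sum, Fintype.card_fin, Fintype.card_coe]
    omega
  set L : Fin m → V := fun a => (e (Sum.inl a)).1 with hL
  set R : Fin m → V := fun a => (e (Sum.inr a)).1 with hR
  have hLinj : Function.Injective L := fun a b h =>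
    Sum.inl_injective (e.injective (Subtype.ext h))
  have hRinj : Function.Injective R := fun a b h =>
    Sum.inr_injective (e.injective (Subtype.ext h))
  have hLR : ∀ a b, L a ≠ R b := by
    intro a b h
    have := e.injective (Subtype.ext h)
    exact Sum.inl_ne_inr this
  have hYmem : ∀ v, v ∈ Y → v ∈ A ∧ u v ≠ v := by
    intro v hv
    rw [hY, Finset.mem_filter] at hv
    exact hv
  have hLY : ∀ a, L a ∈ A ∧ u (L a) ≠ L a := fun a => hYmem _ (e (Sum.inl a)).2
  have hRY : ∀ a, R a ∈ A ∧ u (R a) ≠ R a := fun a => hYmem _ (e (Sum.inr a)).2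
  obtain ⟨π, hπ1, hπ2⟩ := pairing H hsymm d hdH univ L R hLinj.injOn hRinj
    (fun a b => H (u (L a)) (L a) ∧ H (u (L a)) (R b))
    (by
      intro a _
      refine le_trans ?_ (hdH (u (L a)))
      apply Finset.card_le_card_of_injOn R
      · intro b hb
        simp only [Finset.coe_filter, Finset.mem_univ, true_and, Set.mem_ofPred_eq] at hb
        simp only [Finset.coe_filter, Finset.mem_univ, true_and, Set.mem_ofPred_eq]
        exact hb.2
      · exact hRinj.injOn)
    (by
      intro b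
      by_cases hex : ∃ a, H (u (L a)) (R b)
      · refine le_trans ?_ (hdH (u (R b)))
        apply Finset.card_le_card_of_injOn L
        · intro a ha
          simp only [Finset.coe_filter, Finset.mem_univ, true_and, Set.mem_ofPred_eq] at ha
          simp only [Finset.coe_filter, Finset.mem_univ, true_and, Set.mem_ofPred_eq]
          have h3 := hu3 (u (L a)) (hu1 _ (hLY a).1) (R b) (hRY b).1 ha.2.1 ha.2.2
          rw [hu2 _ (hLY a).1] at h3
          rw [← h3]
          exact ha.1
        · exact hLinj.injOn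
      · push Not at hex
        have : univ.filter (fun a => H (u (L a)) (L a) ∧ H (u (L a)) (R b)) = ∅ := by
          rw [Finset.eq_empty_iff_forall_notMem]
          intro a ha
          exact hex a (Finset.mem_filter.1 ha).2.2
        rw [this]
        simp)
    hm2 h1 h2
  have hadjH : ∀ v w, v ≠ w → ¬ H v w → G.Adj v w := by
    intro v w hvw h
    by_contra hadj
    exact h ⟨hvw, hadj⟩
  have hRpmem : ∀ v, v ∈ Rp → v ∈ A ∧ u v = v := by
    intro v hv
    rw [hRp, Finset.mem_filter] at hv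
    exact hv
  have hrp : ∀ x : Rp, x.1 ∈ A ∧ u x.1 = x.1 := fun x => hRpmem _ x.2
  have hrb : ∀ (x : Rp) (a : Fin m), ∃ v ∈ ({L a, R (π a)} : Set V), G.Adj x.1 v := by
    intro x a
    by_contra hcon
    push Not at hcon
    have c1 := hcon (L a) (by simp)
    have c2 := hcon (R (π a)) (by simp)
    have n1 : x.1 ≠ L a := by
      intro h
      apply (hLY a).2
      rw [← h]
      exact (hrp x).2
    have n2 : x.1 ≠ R (π a) := by
      intro h
      apply (hRY (π a)).2
      rw [← h]
      exact (hrp x).2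
    have e1 := hu3 x.1 (hrp x).1 (L a) (hLY a).1 n1 c1
    rw [(hrp x).2] at e1
    apply (hπ1 a (Finset.mem_univ _)).2
    rw [← e1]
    exact ⟨⟨n1, c1⟩, ⟨n2, c2⟩⟩
  have hmod : Model G Set.univ (Rp ⊕ Fin m) := by
    refine ⟨Sum.elim (fun x => {x.1}) (fun a => {L a, R (π a)}), fun _ => Set.subset_univ _,
      ?_, ?_, ?_⟩
    · rintro (x | a)
      · exact conn_singleton G x.1
      · exact induce_pair_connected_of_adj
          (hadjH _ _ (hLR _ _) (hπ1 a (Finset.mem_univ _)).1)
    · rintro (x | a) (y | b) hij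
      · simp only [Sum.elim_inl]
        rw [Set.disjoint_singleton]
        intro h
        exact hij (congrArg Sum.inl (Subtype.ext h))
      · simp only [Sum.elim_inl, Sum.elim_inr]
        rw [Set.disjoint_singleton_left]
        rintro (h | h)
        · apply (hLY b).2
          rw [← h]
          exact (hrp x).2
        · apply (hRY (π b)).2
          have h' : x.1 = R (π b) := h
          rw [← h']
          exact (hrp x).2
      · simp only [Sum.elim_inl, Sum.elim_inr]
        rw [Set.disjoint_singleton_right]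
        rintro (h | h)
        · apply (hLY a).2
          rw [← h]
          exact (hrp y).2
        · apply (hRY (π a)).2
          have h' : y.1 = R (π a) := h
          rw [← h']
          exact (hrp y).2
      · have hab : a ≠ b := fun h => hij (by rw [h])
        simp only [Sum.elim_inr]
        rw [Set.disjoint_left]
        rintro z (h | h) (h' | h')
        · exact hab (hLinj (h.symm.trans h'))
        · have h'' : z = R (π b) := h'
          exact hLR _ _ (h.symm.trans h'')
        · have h'' : z = R (π a) := h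
          exact hLR _ _ (h'.symm.trans h'')
        · have h1 : z = R (π a) := h
          have h2 : z = R (π b) := h'
          exact hab (π.injective (hRinj (h1.symm.trans h2)))
    · rintro (x | a) (y | b) hij
      · refine ⟨x.1, rfl, y.1, rfl, ?_⟩
        have hne : x.1 ≠ y.1 := fun h => hij (congrArg Sum.inl (Subtype.ext h))
        by_contra hadj
        have := hu3 x.1 (hrp x).1 y.1 (hrp y).1 hne hadj
        rw [(hrp x).2, (hrp y).2] at this
        exact hne this
      · obtain ⟨v, hv, hxv⟩ := hrb x b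
        exact ⟨x.1, rfl, v, hv, hxv⟩
      · obtain ⟨v, hv, hxv⟩ := hrb y a
        exact ⟨v, hv, y.1, rfl, hxv.symm⟩
      · have hab : a ≠ b := fun h => hij (by rw [h])
        by_contra hcon
        push Not at hcon
        simp only [Sum.elim_inr] at hcon
        have hc : ∀ v ∈ ({L a, R (π a)} : Set V), ∀ w ∈ ({L b, R (π b)} : Set V),
            ¬ G.Adj v w := hcon
        refine hπ2 a (Finset.mem_univ _) b (Finset.mem_univ _) hab ⟨⟨?_, ?_⟩, ⟨?_, ?_⟩,
          ⟨?_, ?_⟩, ⟨?_, ?_⟩⟩
        · exact fun h => hab (hLinj h)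
        · exact hc _ (by simp) _ (by simp)
        · exact hLR _ _
        · exact hc _ (by simp) _ (by simp)
        · exact (hLR _ _).symm
        · exact hc _ (by simp) _ (by simp)
        · exact fun h => hab (π.injective (hRinj h))
        · exact hc _ (by simp) _ (by simp)
  refine hmod.of_card ?_
  rw [Fintype.card_fin, Fintype.card_sum, Fintype.card_fin, Fintype.card_coe]
  omega

/-- Few vertices of the critical subgraph have a non-neighbour in it. -/
theorem case_two [Fintype V] [DecidableEq V] (G : SimpleGraph V) {d k : ℕ}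
    (hd : ∀ v, (Set.ncard {w | v ≠ w ∧ ¬ G.Adj v w}) ≤ d)
    (A Q : Finset V) (hk : k + 1 ≤ A.card)
    (hQ : ∀ v ∈ A, ∀ w ∈ A, v ≠ w → ¬ G.Adj v w → v ∈ Q) (hQA : Q ⊆ A)
    (hQc : Q.card ≤ (Aᶜ : Finset V).card)
    (hm2 : 2 ≤ (Aᶜ : Finset V).card) (h1 : 83 * d ≤ (Aᶜ : Finset V).card)
    (h2 : 2744 * (d : ℝ) ^ 4 ≤
      ((Aᶜ : Finset V).card : ℝ) ^ 2 * (((Aᶜ : Finset V).card : ℝ) - 1)) :
    Model G Set.univ (Fin (k + 1)) := by
  classical
  set H : V → V → Prop := fun v w => v ≠ w ∧ ¬ G.Adj v w with hH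
  have hsymm : ∀ v w, H v w → H w v := fun v w h => ⟨h.1.symm, fun h' => h.2 h'.symm⟩
  have hdH : ∀ v, (univ.filter (fun w => H v w)).card ≤ d := by
    intro v
    have := hd v
    rw [Set.ncard_eq_toFinset_card'] at this
    refine le_trans (Finset.card_le_card ?_) this
    intro w hw
    rw [Finset.mem_filter] at hw
    rw [Set.mem_toFinset]
    exact hw.2
  set W : Finset V := Aᶜ with hW
  set m := W.card with hm
  let R : Fin m → V := fun i => (W.equivFin.symm i).1
  have hRinj : Function.Injective R := fun a b h => W.equivFin.symm.injective (Subtype.ext h)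
  have hRA : ∀ i, R i ∉ A := by
    intro i
    exact Finset.mem_compl.1 (W.equivFin.symm i).2
  obtain ⟨e⟩ : Nonempty (Q ↪ Fin m) := by
    apply Function.Embedding.nonempty_of_card_le
    rw [Fintype.card_coe, Fintype.card_fin]
    exact hQc
  let L : Fin m → V := Function.extend e (fun q => q.1) R
  have hLe : ∀ q : Q, L (e q) = q.1 := fun q => e.injective.extend_apply _ _ q
  set X : Finset (Fin m) := univ.image e with hX
  have hLinj : Set.InjOn L (X : Set (Fin m)) := by
    intro a ha b hb h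
    rw [hX, Finset.coe_image] at ha hb
    obtain ⟨q, -, rfl⟩ := ha
    obtain ⟨q', -, rfl⟩ := hb
    rw [hLe, hLe] at h
    rw [Subtype.ext h]
  obtain ⟨π, hπ1, hπ2⟩ := pairing H hsymm d hdH X L R hLinj hRinj (fun _ _ => False)
    (by intro a _; simp) (by intro b; simp) hm2 h1 h2
  let φ : V → V := fun v => if h : v ∈ Q then R (π (e ⟨v, h⟩)) else v
  have hφQ : ∀ v (h : v ∈ Q), φ v = R (π (e ⟨v, h⟩)) := by
    intro v h
    simp only [φ, h, dif_pos]
  have hφN : ∀ v, v ∉ Q → φ v = v := by
    intro v h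
    simp only [φ, h, dif_neg, not_false_eq_true]
  have hφA : ∀ v ∈ Q, φ v ∉ A := by
    intro v h
    rw [hφQ v h]
    exact hRA _
  have heX : ∀ q : Q, e q ∈ X := fun q => Finset.mem_image_of_mem _ (Finset.mem_univ _)
  have hadjH : ∀ v w, v ≠ w → ¬ H v w → G.Adj v w := by
    intro v w hvw h
    by_contra hadj
    exact h ⟨hvw, hadj⟩
  have hφadj : ∀ v ∈ Q, G.Adj v (φ v) := by
    intro v h
    have h3 := (hπ1 (e ⟨v, h⟩) (heX _)).1
    rw [hLe, ← hφQ v h] at h3
    exact hadjH _ _ (fun h' => hφA v h (h' ▸ hQA h)) h3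
  have hφinj : ∀ v ∈ A, ∀ w ∈ A, φ v = φ w → v = w := by
    intro v hv w hw h
    by_cases hvQ : v ∈ Q <;> by_cases hwQ : w ∈ Q
    · rw [hφQ v hvQ, hφQ w hwQ] at h
      have := e.injective (π.injective (hRinj h))
      exact congrArg Subtype.val this
    · exfalso
      apply hφA v hvQ
      rw [h, hφN w hwQ]
      exact hw
    · exfalso
      apply hφA w hwQ
      rw [← h, hφN v hvQ]
      exact hv
    · rw [hφN v hvQ, hφN w hwQ] at h
      exact h
  have hvφ : ∀ v ∈ A, ∀ w ∈ A, v ≠ w → v ≠ φ w := by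
    intro v hv w hw hvw h
    by_cases hwQ : w ∈ Q
    · exact hφA w hwQ (h ▸ hv)
    · rw [hφN w hwQ] at h
      exact hvw h
  have hmod : Model G Set.univ A := by
    refine ⟨fun v => {v.1, φ v.1}, fun _ => Set.subset_univ _, ?_, ?_, ?_⟩
    · intro v
      by_cases hvQ : v.1 ∈ Q
      · exact induce_pair_connected_of_adj (hφadj _ hvQ)
      · show (G.induce ({v.1, φ v.1} : Set V)).Connected
        rw [hφN _ hvQ, Set.pair_eq_singleton]
        exact conn_singleton G v.1
    · intro v w hvw
      have hne : v.1 ≠ w.1 := fun h => hvw (Subtype.ext h)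
      rw [Set.disjoint_left]
      rintro z (h | h) (h' | h')
      · exact hne (h.symm.trans h')
      · have h'' : z = φ w.1 := h'
        exact hvφ _ v.2 _ w.2 hne (h.symm.trans h'')
      · have h'' : z = φ v.1 := h
        exact hvφ _ w.2 _ v.2 hne.symm (h'.symm.trans h'')
      · have h1 : z = φ v.1 := h
        have h2 : z = φ w.1 := h'
        exact hne (hφinj _ v.2 _ w.2 (h1.symm.trans h2))
    · intro v w hvw
      have hne : v.1 ≠ w.1 := fun h => hvw (Subtype.ext h)
      by_contra hcon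
      push Not at hcon
      have hc : ∀ x ∈ ({v.1, φ v.1} : Set V), ∀ y ∈ ({w.1, φ w.1} : Set V),
            ¬ G.Adj x y := hcon
      have c1 := hc v.1 (by simp) w.1 (by simp)
      have c2 := hc v.1 (by simp) (φ w.1) (by simp)
      have c3 := hc (φ v.1) (by simp) w.1 (by simp)
      have c4 := hc (φ v.1) (by simp) (φ w.1) (by simp)
      have hvQ := hQ _ v.2 _ w.2 hne c1
      have hwQ := hQ _ w.2 _ v.2 hne.symm (fun h => c1 h.symm)
      have hne' : e ⟨v.1, hvQ⟩ ≠ e ⟨w.1, hwQ⟩ := by
        intro h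
        exact hne (Subtype.mk.inj (e.injective h))
      have key := hπ2 _ (heX ⟨v.1, hvQ⟩) _ (heX ⟨w.1, hwQ⟩) hne'
      rw [hLe, hLe, ← hφQ _ hvQ, ← hφQ _ hwQ] at key
      refine key ⟨⟨hne, c1⟩, ⟨hvφ _ v.2 _ w.2 hne, c2⟩, ⟨(hvφ _ w.2 _ v.2 hne.symm).symm, c3⟩,
        ⟨fun h => hne (hφinj _ v.2 _ w.2 h), c4⟩⟩
  refine hmod.of_card ?_
  rw [Fintype.card_fin, Fintype.card_coe]
  exact hk

/-- A matching has few edges outside a set. -/
lemma matching_count [Fintype V] [DecidableEq V] {Rl : V → V → Prop} {P : Finset (V × V)}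
    (hP : IsM Rl P) (A Q : Finset V) (hQ : ∀ v ∈ A, ∀ w ∈ A, v ≠ w → Rl v w → v ∈ Q ∧ w ∈ Q) :
    2 * P.card ≤ 2 * (Aᶜ : Finset V).card + Q.card := by
  classical
  set PA := P.filter (fun p => p.1 ∈ A ∧ p.2 ∈ A) with hPA
  set PW := P.filter (fun p => ¬ (p.1 ∈ A ∧ p.2 ∈ A)) with hPW
  have hsplit : PA.card + PW.card = P.card := Finset.card_filter_add_card_filter_not _
  have h1 : 2 * PA.card ≤ Q.card := by
    have hM : IsM Rl PA := ⟨fun p hp => hP.1 p (Finset.mem_filter.1 hp).1,
      fun p hp => hP.2.1 p (Finset.mem_filter.1 hp).1,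
      fun p hp q hq hpq => hP.2.2 p (Finset.mem_filter.1 hp).1 q (Finset.mem_filter.1 hq).1 hpq⟩
    rw [← hM.card_cov]
    apply Finset.card_le_card
    intro x hx
    obtain ⟨p, hp, hxp⟩ := mem_cov.1 hx
    obtain ⟨hpP, hp1, hp2⟩ := Finset.mem_filter.1 hp
    have := hQ p.1 hp1 p.2 hp2 (hP.2.1 p hpP) (hP.1 p hpP)
    rcases hxp with rfl | rfl
    · exact this.1
    · exact this.2
  have h2 : PW.card ≤ (Aᶜ : Finset V).card := by
    apply Finset.card_le_card_of_injOn (fun p => if p.1 ∈ A then p.2 else p.1)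
    · intro p hp
      rw [Finset.mem_coe] at hp
      obtain ⟨hpP, hp'⟩ := Finset.mem_filter.1 hp
      rw [Finset.mem_coe, Finset.mem_compl]
      show (if p.1 ∈ A then p.2 else p.1) ∉ A
      by_cases h : p.1 ∈ A
      · rw [if_pos h]
        exact fun h' => hp' ⟨h, h'⟩
      · rw [if_neg h]
        exact h
    · intro p hp q hq hpq
      rw [Finset.mem_coe] at hp hq
      have hpP := (Finset.mem_filter.1 hp).1
      have hqP := (Finset.mem_filter.1 hq).1
      by_contra hne
      obtain ⟨g1, g2, g3, g4⟩ := hP.2.2 p hpP q hqP hne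
      simp only at hpq
      by_cases h : p.1 ∈ A <;> by_cases h' : q.1 ∈ A
      · rw [if_pos h, if_pos h'] at hpq
        exact g4 hpq
      · rw [if_pos h, if_neg h'] at hpq
        exact g3 hpq
      · rw [if_neg h, if_pos h'] at hpq
        exact g2 hpq
      · rw [if_neg h, if_neg h'] at hpq
        exact g1 hpq
  omega

/-- The main theorem. -/
theorem main [Fintype V] [DecidableEq V] (G : SimpleGraph V) {d k : ℕ}
    (hd : ∀ v, (Set.ncard {w | v ≠ w ∧ ¬ G.Adj v w}) ≤ d)
    (P : Finset (V × V)) (hP : IsM (fun u v => ¬ G.Adj u v) P)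
    (hs : 2 * d ^ 2 ≤ P.card + 1 ∨ 729000 * d ^ 4 ≤ P.card ^ 3)
    (hk : ¬ G.Colorable k) : Model G Set.univ (Fin (k + 1)) := by
  classical
  rcases hs with hs | hs
  · have h := hcOn_of_dense (G := G) (d := d) (by
      intro v
      have := hd v
      rw [Set.ncard_eq_toFinset_card'] at this
      refine le_trans (Finset.card_le_card ?_) this
      intro w hw
      rw [Finset.mem_filter] at hw
      rw [Set.mem_toFinset]
      exact ⟨hw.2.1.symm, hw.2.2⟩) P hP hs
    exact h k (fun hc => hk (colOn_univ.1 hc))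
  by_cases hs' : 2 * d ^ 2 ≤ P.card + 1
  · have h := hcOn_of_dense (G := G) (d := d) (by
      intro v
      have := hd v
      rw [Set.ncard_eq_toFinset_card'] at this
      refine le_trans (Finset.card_le_card ?_) this
      intro w hw
      rw [Finset.mem_filter] at hw
      rw [Set.mem_toFinset]
      exact ⟨hw.2.1.symm, hw.2.2⟩) P hP hs'
    exact h k (fun hc => hk (colOn_univ.1 hc))
  push Not at hs'
  obtain ⟨A, u, hu1, hu2, hu3, hcard, -⟩ := struct G k hk
  set s := P.card with hsdef
  -- `d` is large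
  have hd302 : 302 ≤ d := by
    by_contra hcon
    push Not at hcon
    have h1 : s ^ 3 < (2 * d ^ 2) ^ 3 := Nat.pow_lt_pow_left (by omega) (by norm_num)
    have h2 : d ^ 2 ≤ 301 ^ 2 := Nat.pow_le_pow_left (by omega) 2
    have h3 : (2 * d ^ 2) ^ 3 = 8 * d ^ 2 * d ^ 4 := by ring
    have h4 : 8 * d ^ 2 * d ^ 4 ≤ 8 * 301 ^ 2 * d ^ 4 :=
      Nat.mul_le_mul_right _ (Nat.mul_le_mul_left _ h2)
    have h5 : 8 * 301 ^ 2 * d ^ 4 ≤ 729000 * d ^ 4 := Nat.mul_le_mul_right _ (by norm_num)
    omega
  have hdR : (302 : ℝ) ≤ d := by exact_mod_cast hd302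
  have hd3 : (0 : ℝ) < (d : ℝ) ^ 3 := by positivity
  have hd4 : (302 : ℝ) * (d : ℝ) ^ 3 ≤ (d : ℝ) ^ 4 := by nlinarith
  set N := (A.filter (fun v => u v ≠ v)).card with hN
  by_cases hcase : s ≤ 3 * N
  · -- many vertices outside the representatives
    have h1 : s ^ 3 ≤ (3 * N) ^ 3 := Nat.pow_le_pow_left hcase 3
    have h2 : N ^ 3 ≤ (2 * (N / 2) + 1) ^ 3 := Nat.pow_le_pow_left (by omega) 3
    have h3 : 27000 * d ^ 4 ≤ (2 * (N / 2) + 1) ^ 3 := by nlinarith
    have h3' : 27000 * (d : ℝ) ^ 4 ≤ (2 * ((N / 2 : ℕ) : ℝ) + 1) ^ 3 := by exact_mod_cast h3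
    set m := N / 2 with hm
    have hbig : 201 * (d : ℝ) ≤ 2 * (m : ℝ) + 1 := by
      by_contra hcon
      push Not at hcon
      have h0 : (0 : ℝ) ≤ 2 * (m : ℝ) + 1 := by positivity
      have h4 : (2 * (m : ℝ) + 1) ^ 3 < (201 * (d : ℝ)) ^ 3 :=
        pow_lt_pow_left₀ hcon h0 (by norm_num)
      have h5 : (201 * (d : ℝ)) ^ 3 = 8120601 * (d : ℝ) ^ 3 := by ring
      nlinarith
    have hm83 : 83 * (d : ℝ) ≤ m := by linarith
    have hm1000 : (1000 : ℝ) ≤ m := by linarith
    refine case_one G hd A u hu1 hu2 hu3 hcard hm ?_ ?_ ?_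
    · have : (2 : ℝ) ≤ m := by linarith
      exact_mod_cast this
    · exact_mod_cast hm83
    · nlinarith [mul_le_mul_of_nonneg_left hm1000 (sq_nonneg (m : ℝ)), sq_nonneg (m : ℝ)]
  · push Not at hcase
    set Q := A.filter (fun v => ∃ w ∈ A, v ≠ w ∧ ¬ G.Adj v w) with hQ
    have hQcard : Q.card ≤ 2 * N := by
      have e1 : (Q.filter (fun v => u v ≠ v)).card ≤ N := by
        apply Finset.card_le_card
        intro v hv
        obtain ⟨hvQ, hv'⟩ := Finset.mem_filter.1 hv
        exact Finset.mem_filter.2 ⟨(Finset.mem_filter.1 hvQ).1, hv'⟩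
      have e2 : (Q.filter (fun v => ¬ (u v ≠ v))).card ≤ N := by
        have hex : ∀ v, ∃ w, v ∈ Q → (w ∈ A ∧ v ≠ w ∧ ¬ G.Adj v w) := by
          intro v
          by_cases hv : v ∈ Q
          · obtain ⟨w, hw1, hw2, hw3⟩ := (Finset.mem_filter.1 hv).2
            exact ⟨w, fun _ => ⟨hw1, hw2, hw3⟩⟩
          · exact ⟨v, fun h => absurd h hv⟩
        choose g hg using hex
        have hgu : ∀ v ∈ Q, u v = v → u (g v) = v := by
          intro v hv huv
          obtain ⟨g1, g2, g3⟩ := hg v hv
          have := hu3 v (Finset.mem_filter.1 hv).1 (g v) g1 g2 g3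
          rw [← this]
          exact huv
        apply Finset.card_le_card_of_injOn g
        · intro v hv
          rw [Finset.mem_coe] at hv
          obtain ⟨hvQ, hv'⟩ := Finset.mem_filter.1 hv
          push Not at hv'
          obtain ⟨g1, g2, g3⟩ := hg v hvQ
          rw [Finset.mem_coe, Finset.mem_filter]
          refine ⟨g1, ?_⟩
          rw [hgu v hvQ hv']
          exact g2
        · intro v hv w hw hvw
          rw [Finset.mem_coe] at hv hw
          obtain ⟨hvQ, hv'⟩ := Finset.mem_filter.1 hv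
          obtain ⟨hwQ, hw'⟩ := Finset.mem_filter.1 hw
          push Not at hv' hw'
          rw [← hgu v hvQ hv', ← hgu w hwQ hw', hvw]
      have e3 := Finset.card_filter_add_card_filter_not (s := Q) (fun v => u v ≠ v)
      omega
    have hQmem : ∀ v ∈ A, ∀ w ∈ A, v ≠ w → ¬ G.Adj v w → v ∈ Q := fun v hv w hw hvw hadj =>
      Finset.mem_filter.2 ⟨hv, w, hw, hvw, hadj⟩
    have hmc := matching_count hP A Q (fun v hv w hw hvw hadj =>
      ⟨hQmem v hv w hw hvw hadj, hQmem w hw v hv hvw.symm (fun h => hadj h.symm)⟩)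
    set m := (Aᶜ : Finset V).card with hm
    have hm23 : 2 * s ≤ 3 * m := by omega
    have h1 : (2 * s) ^ 3 ≤ (3 * m) ^ 3 := Nat.pow_le_pow_left hm23 3
    have h3 : 216000 * d ^ 4 ≤ m ^ 3 := by nlinarith
    have h3' : 216000 * (d : ℝ) ^ 4 ≤ (m : ℝ) ^ 3 := by exact_mod_cast h3
    have hbig : 402 * (d : ℝ) ≤ (m : ℝ) := by
      by_contra hcon
      push Not at hcon
      have h0 : (0 : ℝ) ≤ (m : ℝ) := by positivity
      have h4 : (m : ℝ) ^ 3 < (402 * (d : ℝ)) ^ 3 :=
        pow_lt_pow_left₀ hcon h0 (by norm_num)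
      have h5 : (402 * (d : ℝ)) ^ 3 = 64964808 * (d : ℝ) ^ 3 := by ring
      nlinarith
    have hm83 : 83 * (d : ℝ) ≤ m := by linarith
    have hm1000 : (1000 : ℝ) ≤ m := by linarith
    have himg : (A.image u).card ≤ A.card := Finset.card_image_le
    refine case_two G hd A Q (by omega) hQmem (Finset.filter_subset _ _) ?_ ?_ ?_ ?_
    · omega
    · have : (2 : ℝ) ≤ m := by linarith
      exact_mod_cast this
    · exact_mod_cast hm83
    · nlinarith [mul_le_mul_of_nonneg_left hm1000 (sq_nonneg (m : ℝ)), sq_nonneg (m : ℝ)]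

end Pool.Agent.H66.HW
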