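import Mathlib
import Pool.Agent.H66.HW.Main

/-!
The structure of a counterexample to Hadwiger's conjecture whose complement has maximum
degree `d` (helper66).
-/

set_option autoImplicit false

namespace Pool.Agent.H66.HW

open SimpleGraph Finset Pool.Agent.Lib.H80

variable {V : Type*}

/-- The number of vertices with a non-neighbour is at most twice the number of vertices which
are not representatives. -/
lemma card_Q_le [Fintype V] [DecidableEq V] (G : SimpleGraph V) (A : Finset V) (u : V → V)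
    (hu3 : ∀ v ∈ A, ∀ w ∈ A, v ≠ w → ¬ G.Adj v w → u v = u w) (Q N : Finset V)
    (hQ : ∀ v ∈ Q, v ∈ A ∧ ∃ w ∈ A, v ≠ w ∧ ¬ G.Adj v w)
    (hN : ∀ v ∈ A, u v ≠ v → v ∈ N) : Q.card ≤ 2 * N.card := by
  classical
  have e1 : (Q.filter (fun v => u v ≠ v)).card ≤ N.card := by
    apply Finset.card_le_card
    intro v hv
    obtain ⟨hvQ, hv'⟩ := Finset.mem_filter.1 hv
    exact hN v (hQ v hvQ).1 hv'
  have e2 : (Q.filter (fun v => ¬ (u v ≠ v))).card ≤ N.card := by
    have hex : ∀ v, ∃ w, v ∈ Q → (w ∈ A ∧ v ≠ w ∧ ¬ G.Adj v w) := by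
      intro v
      by_cases hv : v ∈ Q
      · obtain ⟨w, hw1, hw2, hw3⟩ := (hQ v hv).2
        exact ⟨w, fun _ => ⟨hw1, hw2, hw3⟩⟩
      · exact ⟨v, fun h => absurd h hv⟩
    choose g hg using hex
    have hgu : ∀ v ∈ Q, u v = v → u (g v) = v := by
      intro v hv huv
      obtain ⟨g1, g2, g3⟩ := hg v hv
      have := hu3 v (hQ v hv).1 (g v) g1 g2 g3
      rw [← this]
      exact huv
    apply Finset.card_le_card_of_injOn g
    · intro v hv
      rw [Finset.mem_coe] at hv
      obtain ⟨hvQ, hv'⟩ := Finset.mem_filter.1 hv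
      push Not at hv'
      obtain ⟨g1, g2, g3⟩ := hg v hvQ
      rw [Finset.mem_coe]
      apply hN _ g1
      rw [hgu v hvQ hv']
      exact g2
    · intro v hv w hw hvw
      rw [Finset.mem_coe] at hv hw
      obtain ⟨hvQ, hv'⟩ := Finset.mem_filter.1 hv
      obtain ⟨hwQ, hw'⟩ := Finset.mem_filter.1 hw
      push Not at hv' hw'
      rw [← hgu v hvQ hv', ← hgu w hwQ hw', hvw]
  have e3 := Finset.card_filter_add_card_filter_not (s := Q) (fun v => u v ≠ v)
  omega

/-- Adding universal vertices to a model. -/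
lemma model_add_universal [DecidableEq V] (G : SimpleGraph V) (S U : Finset V) (m : ℕ)
    (hSU : Disjoint S U) (hU : ∀ x ∈ U, ∀ v, (v ∈ S ∨ v ∈ U) → v ≠ x → G.Adj v x)
    (h : Model G (S : Set V) (Fin m)) : Model G Set.univ (Fin m ⊕ U) := by
  classical
  obtain ⟨f, f1, f2, f3, f4⟩ := h
  have hmem : ∀ i, ∀ w ∈ f i, w ∈ S := fun i w hw => f1 i hw
  have hne : ∀ i, ∃ w, w ∈ f i := by
    intro i
    obtain ⟨⟨w, hw⟩⟩ := (f2 i).nonempty
    exact ⟨w, hw⟩
  refine ⟨Sum.elim f (fun x => {x.1}), fun _ => Set.subset_univ _, ?_, ?_, ?_⟩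
  · rintro (i | x)
    · exact f2 i
    · exact conn_singleton G x.1
  · rintro (i | x) (j | y) hij
    · exact f3 i j (fun h => hij (by rw [h]))
    · simp only [Sum.elim_inl, Sum.elim_inr]
      rw [Set.disjoint_singleton_right]
      intro hy
      exact Finset.disjoint_left.1 hSU (hmem i _ hy) y.2
    · simp only [Sum.elim_inl, Sum.elim_inr]
      rw [Set.disjoint_singleton_left]
      intro hx
      exact Finset.disjoint_left.1 hSU (hmem j _ hx) x.2
    · simp only [Sum.elim_inr]
      rw [Set.disjoint_singleton]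
      intro h
      exact hij (congrArg Sum.inr (Subtype.ext h))
  · rintro (i | x) (j | y) hij
    · exact f4 i j (fun h => hij (by rw [h]))
    · obtain ⟨w, hw⟩ := hne i
      exact ⟨w, hw, y.1, rfl, hU y.1 y.2 w (Or.inl (hmem i w hw))
        (fun h => Finset.disjoint_left.1 hSU (hmem i w hw) (h ▸ y.2))⟩
    · obtain ⟨w, hw⟩ := hne j
      exact ⟨x.1, rfl, w, hw, (hU x.1 x.2 w (Or.inl (hmem j w hw))
        (fun h => Finset.disjoint_left.1 hSU (hmem j w hw) (h ▸ x.2))).symm⟩
    · refine ⟨x.1, rfl, y.1, rfl, hU y.1 y.2 x.1 (Or.inr x.2) ?_⟩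
      intro h
      exact hij (congrArg Sum.inr (Subtype.ext h))

/-- A counterexample contains a small counterexample with at least the same deficiency. -/
theorem small_counterexample [Fintype V] [DecidableEq V] (G : SimpleGraph V) {d k : ℕ}
    (hd : ∀ v, (Set.ncard {w | v ≠ w ∧ ¬ G.Adj v w}) ≤ d)
    (hk : ¬ G.Colorable k) (hK : ¬ Model G Set.univ (Fin (k + 1))) :
    ∃ (S : Finset V) (j : ℕ), S.card ^ 3 < 2097152 * d ^ 4 ∧ ¬ ColOn G (S : Set V) j ∧
      ∀ t, Model G (S : Set V) (Fin (j + 1 - t)) → Model G Set.univ (Fin (k + 1 - t)) := by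
  classical
  obtain ⟨A, u, hu1, hu2, hu3, hcard, hAcol, P, hP, hPc⟩ := struct G k hk
  set N := A.filter (fun v => u v ≠ v) with hN
  set Rp := A.filter (fun v => u v = v) with hRp
  have hsplit : Rp.card + N.card = A.card := Finset.card_filter_add_card_filter_not _
  have himg : (A.image u).card ≤ Rp.card := by
    apply Finset.card_le_card
    intro x hx
    obtain ⟨v, hv, rfl⟩ := Finset.mem_image.1 hx
    exact Finset.mem_filter.2 ⟨hu1 v hv, hu2 v hv⟩
  have himg' : Rp.card ≤ (A.image u).card := by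
    apply Finset.card_le_card
    intro x hx
    obtain ⟨hxA, hx'⟩ := Finset.mem_filter.1 hx
    exact Finset.mem_image.2 ⟨x, hxA, hx'⟩
  have hold : 2 * d ^ 2 ≤ P.card + 1 → False := fun h =>
    hK (main G hd P hP (Or.inl h) hk)
  -- few vertices are not representatives
  have hNsmall : N.card ^ 3 < 262144 * d ^ 4 := by
    by_contra hcon
    push Not at hcon
    rcases Nat.lt_or_ge d 23 with hd23 | hd23
    · -- few non-neighbours
      apply hold
      have h1 : d ^ 2 ≤ 22 ^ 2 := Nat.pow_le_pow_left (by omega) 2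
      have h2 : (8 * d ^ 2) ^ 3 ≤ N.card ^ 3 := by
        calc (8 * d ^ 2) ^ 3 = 512 * d ^ 2 * d ^ 4 := by ring
          _ ≤ 512 * 22 ^ 2 * d ^ 4 := Nat.mul_le_mul_right _ (Nat.mul_le_mul_left _ h1)
          _ ≤ 262144 * d ^ 4 := Nat.mul_le_mul_right _ (by norm_num)
          _ ≤ N.card ^ 3 := hcon
      have h3 : 8 * d ^ 2 ≤ N.card := by
        by_contra h4
        push Not at h4
        have := Nat.pow_lt_pow_left h4 (n := 3) (by norm_num)
        omega
      omega
    · apply hK
      have hdR : (23 : ℝ) ≤ d := by exact_mod_cast hd23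
      have hd3 : (0 : ℝ) < (d : ℝ) ^ 3 := by positivity
      have hd4 : (23 : ℝ) * (d : ℝ) ^ 3 ≤ (d : ℝ) ^ 4 := by nlinarith
      have h2 : N.card ^ 3 ≤ (2 * (N.card / 2) + 1) ^ 3 := Nat.pow_le_pow_left (by omega) 3
      have h3 : 262144 * d ^ 4 ≤ (2 * (N.card / 2) + 1) ^ 3 := hcon.trans h2
      have h3' : 262144 * (d : ℝ) ^ 4 ≤ (2 * ((N.card / 2 : ℕ) : ℝ) + 1) ^ 3 := by
        exact_mod_cast h3
      set m := N.card / 2 with hm
      have hbig : 181 * (d : ℝ) ≤ 2 * (m : ℝ) + 1 := by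
        by_contra hcon
        push Not at hcon
        have h0 : (0 : ℝ) ≤ 2 * (m : ℝ) + 1 := by positivity
        have h4 : (2 * (m : ℝ) + 1) ^ 3 < (181 * (d : ℝ)) ^ 3 :=
          pow_lt_pow_left₀ hcon h0 (by norm_num)
        have h5 : (181 * (d : ℝ)) ^ 3 = 5929741 * (d : ℝ) ^ 3 := by ring
        nlinarith
      have hm83 : 83 * (d : ℝ) ≤ m := by linarith
      have hm1000 : (1000 : ℝ) ≤ m := by linarith
      refine case_one G hd A u hu1 hu2 hu3 hcard hm ?_ ?_ ?_
      · have : (2 : ℝ) ≤ m := by linarith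
        exact_mod_cast this
      · exact_mod_cast hm83
      · nlinarith [mul_le_mul_of_nonneg_left hm1000 (sq_nonneg (m : ℝ)), sq_nonneg (m : ℝ)]
  -- the vertices with a non-neighbour
  set Q := A.filter (fun v => ∃ w ∈ A, v ≠ w ∧ ¬ G.Adj v w) with hQ
  have hQA : Q ⊆ A := Finset.filter_subset _ _
  have hQcard : Q.card ≤ 2 * N.card := card_Q_le G A u hu3 Q N
    (fun v hv => Finset.mem_filter.1 hv) (fun v hv hv' => Finset.mem_filter.2 ⟨hv, hv'⟩)
  set U := A \ Q with hU
  have hUc : U.card + Q.card = A.card := Finset.card_sdiff_add_card_eq_card hQA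
  have hUuniv : ∀ x ∈ U, ∀ v ∈ A, v ≠ x → G.Adj v x := by
    intro x hx v hv hvx
    rw [hU, Finset.mem_sdiff] at hx
    by_contra hadj
    exact hx.2 (Finset.mem_filter.2 ⟨hx.1, v, hv, hvx.symm, fun h => hadj h.symm⟩)
  have hdisj : Disjoint Q U := Finset.disjoint_sdiff
  have hadd : ∀ m, Model G (Q : Set V) (Fin m) → Model G Set.univ (Fin m ⊕ U) := by
    intro m hm
    refine model_add_universal G Q U m hdisj ?_ hm
    intro x hx v hv hvx
    apply hUuniv x hx v _ hvx
    rcases hv with hv | hv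
    · exact hQA hv
    · exact (Finset.mem_sdiff.1 hv).1
  have hUk : U.card ≤ k := by
    by_contra hcon
    push Not at hcon
    apply hK
    have hcl : Model G Set.univ U := model_clique U (by
      intro x hx y hy hxy
      exact hUuniv y hy x (Finset.mem_sdiff.1 hx).1 hxy) (fun _ _ => trivial)
    refine hcl.of_card ?_
    rw [Fintype.card_fin, Fintype.card_coe]
    omega
  refine ⟨Q, k - U.card, ?_, ?_, ?_⟩
  · have h1 : Q.card ^ 3 ≤ (2 * N.card) ^ 3 := Nat.pow_le_pow_left hQcard 3
    have h2 : (2 * N.card) ^ 3 = 8 * N.card ^ 3 := by ring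
    omega
  · rintro ⟨c, c1, c2⟩
    apply hAcol
    let e := U.equivFin
    refine ⟨fun v => if h : v ∈ U then (k - U.card) + (e ⟨v, h⟩ : ℕ) else c v, ?_, ?_⟩
    · intro v hv
      by_cases hvU : v ∈ U
      · simp only [hvU, dif_pos]
        have := (e ⟨v, hvU⟩).isLt
        omega
      · simp only [hvU, dif_neg, not_false_eq_true]
        have hvQ : v ∈ Q := by
          by_contra h
          exact hvU (Finset.mem_sdiff.2 ⟨hv, h⟩)
        have := c1 v hvQ
        omega
    · have hmemQ : ∀ v ∈ A, v ∉ U → v ∈ Q := by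
        intro v hv hvU
        by_contra h
        exact hvU (Finset.mem_sdiff.2 ⟨hv, h⟩)
      intro v hv w hw hvw h
      by_cases hvU : v ∈ U <;> by_cases hwU : w ∈ U
      · simp only [hvU, hwU, dif_pos] at h
        have h1 : e ⟨v, hvU⟩ = e ⟨w, hwU⟩ := Fin.ext (by omega)
        exact hvw.ne (Subtype.mk.inj (e.injective h1))
      · simp only [hvU, hwU, dif_pos, dif_neg, not_false_eq_true] at h
        have := c1 w (hmemQ w hw hwU)
        omega
      · simp only [hvU, hwU, dif_pos, dif_neg, not_false_eq_true] at h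
        have := c1 v (hmemQ v hv hvU)
        omega
      · simp only [hvU, hwU, dif_neg, not_false_eq_true] at h
        exact c2 v (hmemQ v hv hvU) w (hmemQ w hw hwU) hvw h
  · intro t ht
    refine (hadd _ ht).of_card ?_
    rw [Fintype.card_fin, Fintype.card_sum, Fintype.card_fin, Fintype.card_coe]
    omega

end Pool.Agent.H66.HW
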