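import Mathlib
import Pool.Agent.H66.HW.LLL

/-!
Choosing partners for a few vertices of large degree from long lists (helper66).
-/

set_option autoImplicit false

namespace Pool.Agent.H66.HW

open Finset

section

variable {X V : Type*} [Fintype X] [DecidableEq X] [DecidableEq V] (L : X → Finset V)

/-- Changing one value of a choice function. -/
lemma upd_count (𝒜 : Finset ((x : X) → L x)) (x : X) (b : L x)
    (h : ∀ y : L x, ∀ f ∈ 𝒜, f x = b → Function.update f x y ∈ 𝒜) :
    (L x).card * (𝒜.filter (fun f => f x = b)).card ≤ 𝒜.card := by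
  have h1 : (L x).card = (univ : Finset (L x)).card := by
    rw [Finset.card_univ, Fintype.card_coe]
  rw [h1, ← Finset.card_product]
  apply Finset.card_le_card_of_injOn (fun q => Function.update q.2 x q.1)
  · intro q hq
    simp only [Finset.coe_product, Set.mem_prod, Finset.mem_coe, Finset.mem_filter] at hq
    exact h q.1 q.2 hq.2.1 hq.2.2
  · rintro ⟨z, f⟩ hq ⟨z', f'⟩ hq' heq
    simp only [Finset.coe_product, Set.mem_prod, Finset.mem_coe, Finset.mem_filter] at hq hq'
    simp only at heq
    have e1 : z = z' := by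
      have := congrFun heq x
      rwa [Function.update_self, Function.update_self] at this
    subst e1
    have e2 : f = f' := by
      funext y
      by_cases hy : y = x
      · subst hy
        rw [hq.2.2, hq'.2.2]
      · have := congrFun heq y
        rwa [Function.update_of_ne hy, Function.update_of_ne hy] at this
    rw [e2]

/-- The choice functions for which the event holds. -/
def evP (e : (X × V) × (X × V)) : Finset ((x : X) → L x) :=
  univ.filter (fun f => (f e.1.1 : V) = e.1.2 ∧ (f e.2.1 : V) = e.2.2)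

/-- Two events share an index. -/
def TchP (e f : (X × V) × (X × V)) : Prop :=
  (f.1.1 = e.1.1 ∨ f.2.1 = e.1.1) ∨ (f.1.1 = e.2.1 ∨ f.2.1 = e.2.1)

lemma upd_mem_avoid {S : Finset ((X × V) × (X × V))} {x : X} {f : (x : X) → L x}
    (hf : f ∈ avoid (evP L) S) (y : L x) (hS : ∀ e ∈ S, ¬ (e.1.1 = x ∨ e.2.1 = x)) :
    Function.update f x y ∈ avoid (evP L) S := by
  rw [mem_avoid] at hf ⊢
  intro e he hmem
  have h1 := hS e he
  push Not at h1
  apply hf e he
  simp only [evP, Finset.mem_filter, Finset.mem_univ, true_and] at hmem ⊢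
  rw [Function.update_of_ne h1.1, Function.update_of_ne h1.2] at hmem
  exact hmem

/-- The conditional probability of a pair of choices. -/
lemma evP_bound (e : (X × V) × (X × V)) (he : e.1.1 ≠ e.2.1) (S : Finset ((X × V) × (X × V)))
    (hS : ∀ f ∈ S, ¬ TchP e f) (hb : e.1.2 ∈ L e.1.1) (hb' : e.2.2 ∈ L e.2.1) :
    ((L e.1.1).card * (L e.2.1).card) * (evP L e ∩ avoid (evP L) S).card ≤
      (avoid (evP L) S).card := by
  obtain ⟨⟨x, b⟩, ⟨x', b'⟩⟩ := e
  simp only at he hb hb' ⊢
  set 𝒜 := avoid (evP L) S with h𝒜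
  set 𝒜1 := 𝒜.filter (fun f => f x' = ⟨b', hb'⟩) with h𝒜1
  have h1 := upd_count L 𝒜 x' ⟨b', hb'⟩ (by
    intro y f hf _
    exact upd_mem_avoid L hf y (fun e he h => hS e he (Or.inr h)))
  have h2 := upd_count L 𝒜1 x ⟨b, hb⟩ (by
    intro y f hf _
    rw [h𝒜1, Finset.mem_filter] at hf ⊢
    refine ⟨upd_mem_avoid L hf.1 y (fun e he h => hS e he (Or.inl h)), ?_⟩
    rw [Function.update_of_ne he.symm]
    exact hf.2)
  have heq : evP L ((x, b), (x', b')) ∩ 𝒜 = 𝒜1.filter (fun f => f x = ⟨b, hb⟩) := by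
    ext f
    simp only [evP, h𝒜1, Finset.mem_inter, Finset.mem_filter, Finset.mem_univ, true_and,
      Subtype.ext_iff]
    tauto
  rw [heq]
  calc (L x).card * (L x').card * (𝒜1.filter (fun f => f x = ⟨b, hb⟩)).card
      = (L x').card * ((L x).card * (𝒜1.filter (fun f => f x = ⟨b, hb⟩)).card) := by ring
    _ ≤ (L x').card * 𝒜1.card := Nat.mul_le_mul_left _ h2
    _ ≤ 𝒜.card := h1

/-- Choosing distinct partners from lists without conflicts. `bad x b x' b'` means that the choices
`b` for `x` and `b'` for `x'` are in conflict. -/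
theorem choose_gen [Fintype V] (bad : X → V → X → V → Prop)
    (hbs : ∀ x b x' b', bad x b x' b' → bad x' b' x b) (ℓ : ℝ) (hℓ : 0 < ℓ)
    (hL : ∀ x, ℓ ≤ ((L x).card : ℝ)) (M : ℝ)
    (hM : ∀ x, ∀ b ∈ L x, (Set.ncard {q : X × V | q.1 ≠ x ∧ q.2 ∈ L q.1 ∧ bad x b q.1 q.2} : ℝ) ≤ M)
    (hsmall : M / ℓ ≤ 1 / 16) :
    ∃ f : X → V, (∀ x, f x ∈ L x) ∧ ∀ x x', x ≠ x' → ¬ bad x (f x) x' (f x') := by
  classical
  set B : Finset ((X × V) × (X × V)) := univ.filter (fun e => e.1.1 ≠ e.2.1 ∧ e.1.2 ∈ L e.1.1 ∧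
    e.2.2 ∈ L e.2.1 ∧ bad e.1.1 e.1.2 e.2.1 e.2.2) with hB
  have hLpos : ∀ x, (0 : ℝ) < ((L x).card : ℝ) := fun x => lt_of_lt_of_le hℓ (hL x)
  have hne : Nonempty ((x : X) → L x) := by
    refine ⟨fun x => ?_⟩
    have h1 : 0 < (L x).card := by exact_mod_cast hLpos x
    exact ⟨(Finset.card_pos.1 h1).choose, (Finset.card_pos.1 h1).choose_spec⟩
  let p : (X × V) × (X × V) → ℝ := fun e =>
    1 / (((L e.1.1).card : ℝ) * ((L e.2.1).card : ℝ))
  have hp : ∀ e, 0 ≤ p e := fun e => by
    simp only [p]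
    positivity
  -- the weight at an index
  have hw : ∀ x, ∑ e ∈ B.filter (fun e => e.1.1 = x), p e ≤ M / ℓ := by
    intro x
    have hfib : ∑ e ∈ B.filter (fun e => e.1.1 = x), p e =
        ∑ b ∈ L x, ∑ e ∈ (B.filter (fun e => e.1.1 = x)).filter (fun e => e.1.2 = b), p e := by
      rw [Finset.sum_fiberwise_of_maps_to]
      intro e he
      rw [Finset.mem_filter, hB, Finset.mem_filter] at he
      rw [← he.2]
      exact he.1.2.2.1
    rw [hfib]
    have hterm : ∀ b ∈ L x, ∑ e ∈ (B.filter (fun e => e.1.1 = x)).filter (fun e => e.1.2 = b),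
        p e ≤ M / (((L x).card : ℝ) * ℓ) := by
      intro b hb
      have hle : ∀ e ∈ (B.filter (fun e => e.1.1 = x)).filter (fun e => e.1.2 = b),
          p e ≤ 1 / (((L x).card : ℝ) * ℓ) := by
        intro e he
        rw [Finset.mem_filter, Finset.mem_filter] at he
        simp only [p, he.1.2]
        apply one_div_le_one_div_of_le
        · exact mul_pos (hLpos x) hℓ
        · exact mul_le_mul_of_nonneg_left (hL _) (hLpos x).le
      have hcard : (((B.filter (fun e => e.1.1 = x)).filter (fun e => e.1.2 = b)).card : ℝ) ≤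
          M := by
        refine le_trans ?_ (hM x b hb)
        rw [Set.ncard_eq_toFinset_card']
        have : ((B.filter (fun e => e.1.1 = x)).filter (fun e => e.1.2 = b)).card ≤
            (Set.toFinset {q : X × V | q.1 ≠ x ∧ q.2 ∈ L q.1 ∧ bad x b q.1 q.2}).card := by
          apply Finset.card_le_card_of_injOn Prod.snd
          · intro e he
            rw [Finset.mem_coe, Finset.mem_filter, Finset.mem_filter, hB,
              Finset.mem_filter] at he
            obtain ⟨⟨⟨-, g1, g2, g3, g4⟩, g5⟩, g6⟩ := he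
            rw [Finset.mem_coe, Set.mem_toFinset]
            refine ⟨fun h => g1 (g5.trans h.symm), g3, ?_⟩
            rw [← g5, ← g6]
            exact g4
          · intro e he e' he' h
            rw [Finset.mem_coe, Finset.mem_filter, Finset.mem_filter] at he he'
            exact Prod.ext (Prod.ext (he.1.2.trans he'.1.2.symm) (he.2.trans he'.2.symm)) h
        exact_mod_cast this
      refine (Finset.sum_le_card_nsmul _ _ _ hle).trans ?_
      rw [nsmul_eq_mul, mul_one_div]
      exact div_le_div_of_nonneg_right hcard (mul_pos (hLpos x) hℓ).le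
    refine (Finset.sum_le_sum hterm).trans (le_of_eq ?_)
    rw [Finset.sum_const, nsmul_eq_mul]
    have := (hLpos x).ne'
    field_simp
  have hw' : ∀ x, ∑ e ∈ B.filter (fun e => e.2.1 = x), p e ≤ M / ℓ := by
    intro x
    refine le_trans (le_of_eq ?_) (hw x)
    apply Finset.sum_nbij' (fun e => (e.2, e.1)) (fun e => (e.2, e.1))
    · intro e he
      rw [Finset.mem_filter, hB, Finset.mem_filter] at he ⊢
      obtain ⟨⟨-, g1, g2, g3, g4⟩, g5⟩ := he
      exact ⟨⟨Finset.mem_univ _, g1.symm, g3, g2, hbs _ _ _ _ g4⟩, g5⟩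
    · intro e he
      rw [Finset.mem_filter, hB, Finset.mem_filter] at he ⊢
      obtain ⟨⟨-, g1, g2, g3, g4⟩, g5⟩ := he
      exact ⟨⟨Finset.mem_univ _, g1.symm, g3, g2, hbs _ _ _ _ g4⟩, g5⟩
    · intro e _
      rfl
    · intro e _
      rfl
    · intro e _
      simp only [p]
      rw [mul_comm]
  let F : ((X × V) × (X × V) → Prop) → ℝ := fun P => ∑ j ∈ B.filter (fun j => P j), p j
  have hwF : ∀ x, F (fun j => j.1.1 = x) ≤ M / ℓ := by
    intro x
    refine le_trans (le_of_eq ?_) (hw x)
    exact Finset.sum_congr (by ext j; simp only [Finset.mem_filter]) (fun _ _ => rfl)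
  have hwF' : ∀ x, F (fun j => j.2.1 = x) ≤ M / ℓ := by
    intro x
    refine le_trans (le_of_eq ?_) (hw' x)
    exact Finset.sum_congr (by ext j; simp only [Finset.mem_filter]) (fun _ _ => rfl)
  have hor : ∀ (P Q : (X × V) × (X × V) → Prop), F (fun j => P j ∨ Q j) ≤ F P + F Q := by
    intro P Q
    have h1 : B.filter (fun j => P j ∨ Q j) = B.filter P ∪ B.filter Q := by
      ext j
      simp only [Finset.mem_filter, Finset.mem_union]
      tauto
    simp only [F]
    rw [h1]
    have := Finset.sum_union_inter (s₁ := B.filter P) (s₂ := B.filter Q) (f := p)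
    have h0 : 0 ≤ ∑ j ∈ B.filter P ∩ B.filter Q, p j :=
      Finset.sum_nonneg (fun j _ => hp j)
    linarith
  obtain ⟨f, hf⟩ := lll (evP L) B (fun e f => TchP e f) p hp
    (fun e => Or.inl (Or.inl rfl)) (by
      intro e he
      have hF : F (fun j => TchP e j) ≤ 1 / 4 := by
        have h := hor (fun j => j.1.1 = e.1.1 ∨ j.2.1 = e.1.1)
          (fun j => j.1.1 = e.2.1 ∨ j.2.1 = e.2.1)
        have h' := hor (fun j => j.1.1 = e.1.1) (fun j => j.2.1 = e.1.1)
        have h'' := hor (fun j => j.1.1 = e.2.1) (fun j => j.2.1 = e.2.1)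
        have h1 := hwF e.1.1
        have h2 := hwF' e.1.1
        have h3 := hwF e.2.1
        have h4 := hwF' e.2.1
        have heq : F (fun j => TchP e j) = F (fun j => (j.1.1 = e.1.1 ∨ j.2.1 = e.1.1) ∨
          (j.1.1 = e.2.1 ∨ j.2.1 = e.2.1)) := rfl
        rw [heq]
        linarith
      refine le_trans (le_of_eq ?_) hF
      exact Finset.sum_congr (by ext j; simp only [Finset.mem_filter]) (fun _ _ => rfl)) (by
      intro e he S _ hSe
      rw [hB, Finset.mem_filter] at he
      obtain ⟨-, g1, g2, g3, g4⟩ := he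
      have h := evP_bound L e g1 S hSe g2 g3
      simp only [p]
      rw [one_div, inv_mul_eq_div, le_div_iff₀ (mul_pos (hLpos _) (hLpos _)), mul_comm]
      exact_mod_cast h)
  refine ⟨fun x => (f x : V), fun x => (f x).2, ?_⟩
  intro x x' hxx hbad
  refine hf ((x, (f x : V)), (x', (f x' : V))) ?_ ?_
  · rw [hB, Finset.mem_filter]
    exact ⟨Finset.mem_univ _, hxx, (f x).2, (f x').2, hbad⟩
  · simp only [evP, Finset.mem_filter, Finset.mem_univ, true_and, and_self]

end

end Pool.Agent.H66.HW
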