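import Mathlib
import Pool.Agent.H66.HW.Assemble
import Pool.Agent.H66.HW.Partners

/-!
Partners for the vertices of large degree (helper66).
-/

set_option autoImplicit false

namespace Pool.Agent.H66.HW

open SimpleGraph Finset Pool.Agent.Lib.H80

variable {V : Type*}

open Classical in
/-- Partners for the vertices of large degree. -/
theorem hubs [Fintype V] (G : SimpleGraph V) (A : Finset V) (u : V → V)
    (hu1 : ∀ v ∈ A, u v ∈ A) (hu2 : ∀ v ∈ A, u (u v) = u v)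
    (Z X : Finset V) (hZ : ∀ z ∈ Z, z ∈ A ∧ u z ≠ z) (hX : ∀ x ∈ X, x ∈ A ∧ u x ≠ x ∧ x ∉ Z)
    (κ s : ℕ) (ℓ : ℝ) (hℓ : 0 < ℓ)
    (hL : ∀ x ∈ X, ℓ ≤ ((Z.filter (fun b => G.Adj x b ∧ ¬ HA G A (u x) b)).card : ℝ))
    (hκ : ∀ b ∈ Z, (X.filter (fun x => HA G A b x)).card ≤ κ)
    (hs : ∀ x ∈ X, ∀ b ∈ Z, (Z.filter (fun w => HA G A x w ∧ HA G A b w)).card ≤ s)
    (hnum : ((X.card : ℝ) + (κ : ℝ) * s) / ℓ ≤ 1 / 16) :
    ∃ β : V → V, (∀ x ∈ X, β x ∈ Z) ∧ (∀ x ∈ X, ∀ y ∈ X, β x = β y → x = y) ∧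
      (∀ x ∈ X, G.Adj x (β x)) ∧ (∀ x ∈ X, G.Adj (u x) x ∨ G.Adj (u x) (β x)) ∧
      (∀ x ∈ X, ∀ y ∈ X, x ≠ y → ¬ (HA G A x y ∧ HA G A x (β y) ∧ HA G A (β x) y ∧
        HA G A (β x) (β y))) := by
  obtain ⟨f, hf1, hf2⟩ := choose_gen (X := X)
    (fun x => Z.filter (fun b => G.Adj x.1 b ∧ ¬ HA G A (u x.1) b))
    (fun x b x' b' => b = b' ∨ (HA G A x.1 x'.1 ∧ HA G A x.1 b' ∧ HA G A b x'.1 ∧ HA G A b b'))
    (by
      rintro x b x' b' (h | ⟨h1, h2, h3, h4⟩)
      · exact Or.inl h.symm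
      · exact Or.inr ⟨h1.symm, h3.symm, h2.symm, h4.symm⟩) ℓ hℓ
    (fun x => hL x.1 x.2) ((X.card : ℝ) + (κ : ℝ) * s)
    (by
      intro x b hb
      rw [Finset.mem_filter] at hb
      have hsub : {q : X × V | q.1 ≠ x ∧
          q.2 ∈ Z.filter (fun b => G.Adj q.1.1 b ∧ ¬ HA G A (u q.1.1) b) ∧
          (b = q.2 ∨ (HA G A x.1 q.1.1 ∧ HA G A x.1 q.2 ∧ HA G A b q.1.1 ∧ HA G A b q.2))} ⊆
          (((univ : Finset X) ×ˢ {b}) ∪ ((univ.filter (fun x' : X => HA G A b x'.1)) ×ˢ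
            (Z.filter (fun w => HA G A x.1 w ∧ HA G A b w))) : Finset (X × V)) := by
        rintro ⟨x', b'⟩ ⟨h1, h2, h3⟩
        rw [Finset.mem_filter] at h2
        simp only [Finset.coe_union, Set.mem_union, Finset.mem_coe, Finset.mem_product,
          Finset.mem_univ, true_and, Finset.mem_singleton, Finset.mem_filter]
        rcases h3 with h3 | ⟨h3, h4, h5, h6⟩
        · exact Or.inl h3.symm
        · exact Or.inr ⟨h5, h2.1, h4, h6⟩
      have h1 := Set.ncard_le_ncard hsub (Finset.finite_toSet _)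
      rw [Set.ncard_coe_finset] at h1
      have h2 := h1.trans (Finset.card_union_le _ _)
      rw [Finset.card_product, Finset.card_product, Finset.card_singleton, Finset.card_univ,
        Fintype.card_coe, mul_one] at h2
      have h3 : (univ.filter (fun x' : X => HA G A b x'.1)).card ≤ κ := by
        refine le_trans ?_ (hκ b hb.1)
        apply Finset.card_le_card_of_injOn (fun x' : X => x'.1)
        · intro x' hx'
          rw [Finset.mem_coe, Finset.mem_filter] at hx'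
          rw [Finset.mem_coe, Finset.mem_filter]
          exact ⟨x'.2, hx'.2⟩
        · exact Subtype.val_injective.injOn
      have h4 := hs x.1 x.2 b hb.1
      have h5 := h2.trans (Nat.add_le_add_left (Nat.mul_le_mul h3 h4) _)
      exact_mod_cast h5) hnum
  refine ⟨fun v => if h : v ∈ X then f ⟨v, h⟩ else v, ?_, ?_, ?_, ?_, ?_⟩
  · intro x hx
    simp only [hx, dif_pos]
    exact (Finset.mem_filter.1 (hf1 ⟨x, hx⟩)).1
  · intro x hx y hy h
    simp only [hx, hy, dif_pos] at h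
    by_contra hxy
    exact hf2 ⟨x, hx⟩ ⟨y, hy⟩ (fun h' => hxy (congrArg Subtype.val h')) (Or.inl h)
  · intro x hx
    simp only [hx, dif_pos]
    exact (Finset.mem_filter.1 (hf1 ⟨x, hx⟩)).2.1
  · intro x hx
    simp only [hx, dif_pos]
    have h := Finset.mem_filter.1 (hf1 ⟨x, hx⟩)
    right
    by_contra hadj
    apply h.2.2
    refine ⟨hu1 x (hX x hx).1, (hZ _ h.1).1, ?_, hadj⟩
    intro h'
    apply (hZ _ h.1).2
    simp only at h'
    rw [← h']
    exact hu2 x (hX x hx).1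
  · intro x hx y hy hxy h
    simp only [hx, hy, dif_pos] at h
    exact hf2 ⟨x, hx⟩ ⟨y, hy⟩ (fun h' => hxy (congrArg Subtype.val h')) (Or.inr h)

end Pool.Agent.H66.HW
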