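import Mathlib
import Pool.Agent.H66.HW.Hubs

/-!
Clique minors in graphs whose complement has few vertices of large degree (helper66).
-/

set_option autoImplicit false

namespace Pool.Agent.H66.HW

open SimpleGraph Finset Pool.Agent.Lib.H80

variable {V : Type*}

open Classical in
/-- The number of non-neighbours in `A`. -/
noncomputable def dg (G : SimpleGraph V) (A : Finset V) (v : V) : ℕ :=
  (A.filter (fun w => HA G A v w)).card

open Classical in
/-- The main theorem with vertices of large degree. -/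
theorem main2 [Fintype V] (G : SimpleGraph V) (k : ℕ) (A : Finset V) (u : V → V)
    (hu1 : ∀ v ∈ A, u v ∈ A) (hu2 : ∀ v ∈ A, u (u v) = u v)
    (hu3 : ∀ v ∈ A, ∀ w ∈ A, v ≠ w → ¬ G.Adj v w → u v = u w)
    (hcard : 2 * (k + 1) ≤ A.card + (A.image u).card)
    (hdeg : ∀ v ∈ A, ∃ N : Finset V, k ≤ N.card ∧ ∀ w ∈ N, w ∈ A ∧ G.Adj v w)
    (hmin : ∀ v ∈ A, dg G A (u v) ≤ dg G A v)
    (t κ s r N : ℕ) (hN : N = (A.filter (fun v => u v ≠ v)).card) (hN0 : 1000 ≤ N)
    (U : Finset V) (hU : U = A.filter (fun v => t < dg G A v)) (ht : 400 * t ≤ N)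
    (hUc : 1000 * U.card ≤ N) (hκ : U.card ≤ κ ∨ t ≤ κ)
    (Z : Finset V) (hZ : Z = (A.filter (fun v => u v ≠ v)) \ U)
    (hs : ∀ x ∈ U, ∀ b ∈ Z, (Z.filter (fun w => HA G A x w ∧ HA G A b w)).card ≤ s)
    (hκs : 400 * (κ * s) ≤ N)
    (hP0 : ∀ z ∈ Z, 400 * (Z.filter (fun w => r < cod (HA G Z) z w)).card ≤ N)
    (hWt : ∀ z ∈ Z, 400 * (∑ w ∈ Z.filter (fun w => cod (HA G Z) z w ≤ r),
      cod (HA G Z) z w * cod (HA G Z) z w) ≤ N ^ 2) :
    Model G Set.univ (Fin (k + 1)) := by
  set Y := A.filter (fun v => u v ≠ v) with hY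
  set Rp := A.filter (fun v => u v = v) with hRp
  have hsplit : Rp.card + Y.card = A.card := Finset.card_filter_add_card_filter_not _
  have himg : (A.image u).card ≤ Rp.card := by
    apply Finset.card_le_card
    intro x hx
    obtain ⟨v, hv, rfl⟩ := Finset.mem_image.1 hx
    exact Finset.mem_filter.2 ⟨hu1 v hv, hu2 v hv⟩
  have hYm : ∀ v, v ∈ Y ↔ v ∈ A ∧ u v ≠ v := fun v => Finset.mem_filter
  have hUm : ∀ v, v ∈ U ↔ v ∈ A ∧ t < dg G A v := fun v => by rw [hU]; exact Finset.mem_filter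
  have hZm : ∀ v, v ∈ Z ↔ (v ∈ A ∧ u v ≠ v) ∧ v ∉ U := fun v => by
    rw [hZ, Finset.mem_sdiff, hYm]
  set X := Y ∩ U with hX
  have hXU : X ⊆ U := Finset.inter_subset_right
  have hXc : X.card ≤ U.card := Finset.card_le_card hXU
  have hZX : Z.card + X.card = Y.card := by
    rw [hZ, hX]
    have := Finset.card_sdiff_add_card_inter Y U
    exact this
  have hXm : ∀ x ∈ X, x ∈ A ∧ u x ≠ x ∧ x ∉ Z := by
    intro x hx
    rw [hX, Finset.mem_inter, hYm] at hx
    exact ⟨hx.1.1, hx.1.2, fun h => ((hZm x).1 h).2 hx.2⟩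
  have hZm' : ∀ z ∈ Z, z ∈ A ∧ u z ≠ z := fun z hz => ((hZm z).1 hz).1
  -- degrees
  have hdgZ : ∀ z ∈ Z, dg G A z ≤ t := by
    intro z hz
    by_contra hcon
    push Not at hcon
    exact ((hZm z).1 hz).2 ((hUm z).2 ⟨(hZm' z hz).1, hcon⟩)
  have hdgu : ∀ v ∈ A, 400 * dg G A (u v) ≤ N := by
    intro v hv
    by_cases h : dg G A (u v) ≤ t
    · omega
    · push Not at h
      have hsub : A.filter (fun w => HA G A (u v) w) ⊆ U := by
        intro w hw
        rw [Finset.mem_filter] at hw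
        rw [hUm]
        refine ⟨hw.1, lt_of_lt_of_le h ?_⟩
        have h3 := hu3 (u v) (hu1 v hv) w hw.1 hw.2.2.2.1 hw.2.2.2.2
        rw [hu2 v hv] at h3
        rw [h3]
        exact hmin w hw.1
      have h4 : dg G A (u v) ≤ U.card := Finset.card_le_card hsub
      omega
  -- the bound on the constraints, for any set of pairs at vertices of large degree
  have hPbd : ∀ (X' : Finset V) (β : V → V), X' ⊆ X → (∀ x ∈ X', β x ∈ Z) →
      (∀ x ∈ X', ∀ y ∈ X', β x = β y → x = y) → ∀ z ∈ Z,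
      ((Z.filter (fun w => HA G Z z w ∨
      ((HA G A (u z) z ∧ HA G A (u z) w) ∨
        ∃ x ∈ X', HA G A x z ∧ HA G A (β x) z ∧ HA G A x w ∧ HA G A (β x) w) ∨
      r < cod (HA G Z) z w)).card : ℝ) ≤ (N : ℝ) / 100 := by
    intro X' β hX' hβ1 hβ2 z hz
    set Xz := X'.filter (fun x => HA G A x z ∧ HA G A (β x) z) with hXz
    have hXzc : Xz.card ≤ κ := by
      rcases hκ with h | h
      · refine (Finset.card_le_card (Finset.filter_subset _ _)).trans ?_
        exact ((Finset.card_le_card hX').trans hXc).trans h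
      · refine le_trans ?_ ((hdgZ z hz).trans h)
        apply Finset.card_le_card_of_injOn β
        · intro x hx
          rw [Finset.mem_coe, hXz, Finset.mem_filter] at hx
          rw [Finset.mem_coe, Finset.mem_filter]
          exact ⟨hx.2.2.1, hx.2.2.symm⟩
        · intro x hx y hy h
          rw [Finset.mem_coe, hXz, Finset.mem_filter] at hx hy
          exact hβ2 x hx.1 y hy.1 h
    have hsub : Z.filter (fun w => HA G Z z w ∨
      ((HA G A (u z) z ∧ HA G A (u z) w) ∨
        ∃ x ∈ X', HA G A x z ∧ HA G A (β x) z ∧ HA G A x w ∧ HA G A (β x) w) ∨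
      r < cod (HA G Z) z w) ⊆ (A.filter (fun w => HA G A z w)) ∪
        ((A.filter (fun w => HA G A (u z) w)) ∪
          ((Xz.biUnion (fun x => Z.filter (fun w => HA G A x w ∧ HA G A (β x) w))) ∪
            (Z.filter (fun w => r < cod (HA G Z) z w)))) := by
      intro w hw
      rw [Finset.mem_filter] at hw
      simp only [Finset.mem_union, Finset.mem_filter, Finset.mem_biUnion]
      obtain ⟨hwZ, h | (h | ⟨x, hx, h1, h2, h3, h4⟩) | h⟩ := hw
      · exact Or.inl ⟨(hZm' w hwZ).1, (hZm' z hz).1, (hZm' w hwZ).1, h.2.2.1, h.2.2.2⟩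
      · exact Or.inr (Or.inl ⟨(hZm' w hwZ).1, h.2⟩)
      · refine Or.inr (Or.inr (Or.inl ⟨x, ?_, hwZ, h3, h4⟩))
        rw [hXz, Finset.mem_filter]
        exact ⟨hx, h1, h2⟩
      · exact Or.inr (Or.inr (Or.inr ⟨hwZ, h⟩))
    have h1 := Finset.card_le_card hsub
    have h2 := h1.trans ((Finset.card_union_le _ _).trans (Nat.add_le_add_left
      ((Finset.card_union_le _ _).trans (Nat.add_le_add_left (Finset.card_union_le _ _) _)) _))
    have h3 : (Xz.biUnion (fun x => Z.filter (fun w => HA G A x w ∧ HA G A (β x) w))).card ≤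
        κ * s := by
      refine (Finset.card_biUnion_le_card_mul _ _ s ?_).trans (Nat.mul_le_mul_right _ hXzc)
      intro x hx
      rw [hXz, Finset.mem_filter] at hx
      exact hs x (hXU (hX' hx.1)) (β x) (hβ1 x hx.1)
    have h4 : (A.filter (fun w => HA G A z w)).card ≤ t := hdgZ z hz
    have h5 : 400 * (A.filter (fun w => HA G A (u z) w)).card ≤ N := hdgu z (hZm' z hz).1
    have h6 := hP0 z hz
    have h7 : 100 * (Z.filter (fun w => HA G Z z w ∨
      ((HA G A (u z) z ∧ HA G A (u z) w) ∨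
        ∃ x ∈ X', HA G A x z ∧ HA G A (β x) z ∧ HA G A x w ∧ HA G A (β x) w) ∨
      r < cod (HA G Z) z w)).card ≤ N := by omega
    have h8 : (100 : ℝ) * ((Z.filter (fun w => HA G Z z w ∨
      ((HA G A (u z) z ∧ HA G A (u z) w) ∨
        ∃ x ∈ X', HA G A x z ∧ HA G A (β x) z ∧ HA G A x w ∧ HA G A (β x) w) ∨
      r < cod (HA G Z) z w)).card : ℝ) ≤ N := by exact_mod_cast h7
    linarith
  have hWbd : ∀ z ∈ Z, ((∑ w ∈ Z.filter (fun w => cod (HA G Z) z w ≤ r),
      cod (HA G Z) z w * cod (HA G Z) z w : ℕ) : ℝ) ≤ (N : ℝ) ^ 2 / 400 := by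
    intro z hz
    have h : (400 : ℝ) * ((∑ w ∈ Z.filter (fun w => cod (HA G Z) z w ≤ r),
      cod (HA G Z) z w * cod (HA G Z) z w : ℕ) : ℝ) ≤ (N : ℝ) ^ 2 := by exact_mod_cast hWt z hz
    linarith
  have hN0R : (1000 : ℝ) ≤ N := by exact_mod_cast hN0
  have hnumb : ∀ m : ℕ, 998 * N ≤ 2000 * m + 1000 → 2 ≤ m ∧
      (N : ℝ) / 100 / m + (N : ℝ) ^ 2 / 400 / ((m : ℝ) * ((m : ℝ) - 1)) ≤ 1 / 16 := by
    intro m hm
    have hmR : 998 * (N : ℝ) ≤ 2000 * m + 1000 := by exact_mod_cast hm
    have hm1 : (0.49 : ℝ) * N ≤ (m : ℝ) - 1 := by linarith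
    have hm2 : (0 : ℝ) < (m : ℝ) - 1 := by linarith
    have hm3 : (0 : ℝ) < (m : ℝ) := by linarith
    refine ⟨by omega, ?_⟩
    have e1 : (N : ℝ) / 100 / m ≤ 1 / 49 := by
      rw [div_div, div_le_div_iff₀ (by linarith) (by norm_num)]
      nlinarith
    have e2 : (N : ℝ) ^ 2 / 400 / ((m : ℝ) * ((m : ℝ) - 1)) ≤ 1 / 96 := by
      rw [div_div, div_le_div_iff₀ (mul_pos (by norm_num) (mul_pos hm3 hm2)) (by norm_num)]
      nlinarith [mul_le_mul hm1 hm1 (by positivity) hm2.le]
    norm_num at e1 e2 ⊢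
    linarith
  by_cases hcase : k + 1 ≤ Rp.card + Z.card / 2
  · -- the vertices of large degree are not needed
    obtain ⟨hm2, hnum⟩ := hnumb (Z.card / 2) (by omega)
    exact assemble G A u hu1 hu2 hu3 Z ∅ id hZm' (by simp) (by simp) (by simp) (by simp)
      (by simp) (by simp) (Z.card / 2) r _ _
      (hPbd ∅ id (Finset.empty_subset _) (by simp) (by simp)) hWbd hm2 hnum
      (by rw [Finset.card_empty]; omega) k (by rw [Finset.card_empty]; omega)
  · push Not at hcase
    -- degrees of the vertices of large degree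
    have hdgx : ∀ x ∈ A, dg G A x + 1 + k ≤ A.card := by
      intro x hx
      obtain ⟨Nx, hNx1, hNx2⟩ := hdeg x hx
      have hd1 : Disjoint (A.filter (fun w => HA G A x w)) ({x} ∪ Nx) := by
        rw [Finset.disjoint_left]
        intro w hw hw'
        rw [Finset.mem_filter] at hw
        rw [Finset.mem_union, Finset.mem_singleton] at hw'
        rcases hw' with h | h
        · exact hw.2.2.2.1 h.symm
        · exact hw.2.2.2.2 (hNx2 w h).2
      have hd2 : Disjoint ({x} : Finset V) Nx := by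
        rw [Finset.disjoint_singleton_left]
        intro h
        exact G.irrefl (hNx2 x h).2
      have h1 : (A.filter (fun w => HA G A x w)) ∪ ({x} ∪ Nx) ⊆ A := by
        intro w hw
        rw [Finset.mem_union, Finset.mem_union, Finset.mem_singleton, Finset.mem_filter] at hw
        rcases hw with h | h | h
        · exact h.1
        · rw [h]
          exact hx
        · exact (hNx2 w h).1
      have h2 := Finset.card_le_card h1
      rw [Finset.card_union_of_disjoint hd1, Finset.card_union_of_disjoint hd2,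
        Finset.card_singleton] at h2
      have h3 : dg G A x = (A.filter (fun w => HA G A x w)).card := rfl
      omega
    have hLx : ∀ x ∈ X, N ≤ 4 * (Z.filter (fun b => G.Adj x b ∧ ¬ HA G A (u x) b)).card := by
      intro x hx
      obtain ⟨hxA, hxu, hxZ⟩ := hXm x hx
      have hsub : Z ⊆ (Z.filter (fun b => G.Adj x b ∧ ¬ HA G A (u x) b)) ∪
          ((A.filter (fun w => HA G A x w)) ∪ (A.filter (fun w => HA G A (u x) w))) := by
        intro b hb
        rw [Finset.mem_union, Finset.mem_union, Finset.mem_filter, Finset.mem_filter,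
          Finset.mem_filter]
        have hbA := (hZm' b hb).1
        by_cases h1 : HA G A (u x) b
        · exact Or.inr (Or.inr ⟨hbA, h1⟩)
        · by_cases h2 : G.Adj x b
          · exact Or.inl ⟨hb, h2, h1⟩
          · exact Or.inr (Or.inl ⟨hbA, hxA, hbA, fun h => hxZ (h ▸ hb), h2⟩)
      have h1 := (Finset.card_le_card hsub).trans ((Finset.card_union_le _ _).trans
        (Nat.add_le_add_left (Finset.card_union_le _ _) _))
      have h2 := hdgx x hxA
      have h3 := hdgu x hxA
      have h4 : dg G A x = (A.filter (fun w => HA G A x w)).card := rfl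
      have h5 : dg G A (u x) = (A.filter (fun w => HA G A (u x) w)).card := rfl
      rw [← h4, ← h5] at h1
      omega
    have hX400 : (1000 : ℝ) * X.card ≤ N := by
      have : 1000 * X.card ≤ N := by omega
      exact_mod_cast this
    have hκsR : (400 : ℝ) * ((κ : ℝ) * s) ≤ N := by exact_mod_cast hκs
    obtain ⟨β, hβ1, hβ2, hβ3, hβ4, hβ5⟩ := hubs G A u hu1 hu2 Z X hZm' hXm κ s ((N : ℝ) / 4)
      (by linarith)
      (by
        intro x hx
        have h : (N : ℝ) ≤ 4 * ((Z.filter (fun b => G.Adj x b ∧ ¬ HA G A (u x) b)).card : ℝ) := by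
          exact_mod_cast hLx x hx
        linarith)
      (by
        intro b hb
        rcases hκ with h | h
        · exact ((Finset.card_le_card (Finset.filter_subset _ _)).trans hXc).trans h
        · refine le_trans ?_ ((hdgZ b hb).trans h)
          apply Finset.card_le_card
          intro x hx
          rw [Finset.mem_filter] at hx ⊢
          exact ⟨(hXm x hx.1).1, hx.2⟩)
      (fun x hx b hb => hs x (hXU hx) b hb)
      (by
        rw [div_le_iff₀ (by linarith)]
        linarith)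
    obtain ⟨hm2, hnum⟩ := hnumb ((Z.card - X.card) / 2) (by omega)
    exact assemble G A u hu1 hu2 hu3 Z X β hZm' hXm hβ1 hβ2 hβ3 hβ4 hβ5
      ((Z.card - X.card) / 2) r _ _
      (hPbd X β (Finset.Subset.refl _) hβ1 hβ2) hWbd hm2 hnum (by omega) k (by
        change k + 1 ≤ Rp.card + X.card + (Z.card - X.card) / 2
        omega)

end Pool.Agent.H66.HW
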