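import Mathlib
import Pool.Agent.H66.HW.Main2
import Pool.Agent.H66.HW.Final

/-!
The critical core of a counterexample to Hadwiger's conjecture (helper66).
-/

set_option autoImplicit false

namespace Pool.Agent.H66.HW

open SimpleGraph Finset Pool.Agent.Lib.H80

variable {V : Type*}

open Classical in
/-- The critical core of a counterexample. -/
theorem core2 [Fintype V] (G : SimpleGraph V) {k : ℕ}
    (hk : ¬ G.Colorable k) (hK : ¬ Model G Set.univ (Fin (k + 1))) :
    ∃ (A : Finset V) (u : V → V) (Q : Finset V) (j : ℕ), (∀ v ∈ A, u v ∈ A) ∧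
      (∀ v ∈ A, u (u v) = u v) ∧
      (∀ v ∈ A, ∀ w ∈ A, v ≠ w → ¬ G.Adj v w → u v = u w) ∧
      2 * (k + 1) ≤ A.card + (A.image u).card ∧
      (∀ v ∈ A, ∃ N : Finset V, k ≤ N.card ∧ ∀ w ∈ N, w ∈ A ∧ G.Adj v w) ∧
      (∀ v ∈ A, dg G A (u v) ≤ dg G A v) ∧
      Q ⊆ A ∧ (∀ v ∈ A, ∀ w ∈ A, v ≠ w → ¬ G.Adj v w → v ∈ Q) ∧
      Q.card ≤ 2 * (A.filter (fun v => u v ≠ v)).card ∧
      ¬ ColOn G (Q : Set V) j ∧
      ∀ t, Model G (Q : Set V) (Fin (j + 1 - t)) → Model G Set.univ (Fin (k + 1 - t)) := by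
  obtain ⟨A, u, hu1, hu2, hu3, hcard, hAcol, hdeg, hmin⟩ := struct2 G k hk (dg G)
  set N := A.filter (fun v => u v ≠ v) with hN
  -- the vertices with a non-neighbour
  set Q := A.filter (fun v => ∃ w ∈ A, v ≠ w ∧ ¬ G.Adj v w) with hQ
  have hQA : Q ⊆ A := Finset.filter_subset _ _
  have hQcard : Q.card ≤ 2 * N.card := card_Q_le G A u hu3 Q N
    (fun v hv => Finset.mem_filter.1 hv) (fun v hv hv' => Finset.mem_filter.2 ⟨hv, hv'⟩)
  set U := A \ Q with hU
  have hUc : U.card + Q.card = A.card := Finset.card_sdiff_add_card_eq_card hQA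
  have hUuniv : ∀ x ∈ U, ∀ v ∈ A, v ≠ x → G.Adj v x := by
    intro x hx v hv hvx
    rw [hU, Finset.mem_sdiff] at hx
    by_contra hadj
    exact hx.2 (Finset.mem_filter.2 ⟨hx.1, v, hv, hvx.symm, fun h => hadj h.symm⟩)
  have hdisj : Disjoint Q U := Finset.disjoint_sdiff
  have hadd : ∀ m, Model G (Q : Set V) (Fin m) → Model G Set.univ (Fin m ⊕ U) := by
    intro m hm
    refine model_add_universal G Q U m hdisj ?_ hm
    intro x hx v hv hvx
    apply hUuniv x hx v _ hvx
    rcases hv with hv | hv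
    · exact hQA hv
    · exact (Finset.mem_sdiff.1 hv).1
  have hUk : U.card ≤ k := by
    by_contra hcon
    push Not at hcon
    apply hK
    have hcl : Model G Set.univ U := model_clique U (by
      intro x hx y hy hxy
      exact hUuniv y hy x (Finset.mem_sdiff.1 hx).1 hxy) (fun _ _ => trivial)
    refine hcl.of_card ?_
    rw [Fintype.card_fin, Fintype.card_coe]
    omega
  refine ⟨A, u, Q, k - U.card, hu1, hu2, hu3, hcard, hdeg, hmin, hQA, ?_, hQcard, ?_, ?_⟩
  · intro v hv w hw hvw hadj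
    exact Finset.mem_filter.2 ⟨hv, w, hw, hvw, hadj⟩
  · rintro ⟨c, c1, c2⟩
    apply hAcol
    let e := U.equivFin
    refine ⟨fun v => if h : v ∈ U then (k - U.card) + (e ⟨v, h⟩ : ℕ) else c v, ?_, ?_⟩
    · intro v hv
      by_cases hvU : v ∈ U
      · simp only [hvU, dif_pos]
        have := (e ⟨v, hvU⟩).isLt
        omega
      · simp only [hvU, dif_neg, not_false_eq_true]
        have hvQ : v ∈ Q := by
          by_contra h
          exact hvU (Finset.mem_sdiff.2 ⟨hv, h⟩)
        have := c1 v hvQ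
        omega
    · have hmemQ : ∀ v ∈ A, v ∉ U → v ∈ Q := by
        intro v hv hvU
        by_contra h
        exact hvU (Finset.mem_sdiff.2 ⟨hv, h⟩)
      intro v hv w hw hvw h
      by_cases hvU : v ∈ U <;> by_cases hwU : w ∈ U
      · simp only [hvU, hwU, dif_pos] at h
        have h1 : e ⟨v, hvU⟩ = e ⟨w, hwU⟩ := Fin.ext (by omega)
        exact hvw.ne (Subtype.mk.inj (e.injective h1))
      · simp only [hvU, hwU, dif_pos, dif_neg, not_false_eq_true] at h
        have := c1 w (hmemQ w hw hwU)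
        omega
      · simp only [hvU, hwU, dif_pos, dif_neg, not_false_eq_true] at h
        have := c1 v (hmemQ v hv hvU)
        omega
      · simp only [hvU, hwU, dif_neg, not_false_eq_true] at h
        exact c2 v (hmemQ v hv hvU) w (hmemQ w hw hwU) hvw h
  · intro t ht
    refine (hadd _ ht).of_card ?_
    rw [Fintype.card_fin, Fintype.card_sum, Fintype.card_fin, Fintype.card_coe]
    omega

end Pool.Agent.H66.HW
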