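import Mathlib
import Pool.Agent.H66.HW.Core2

/-!
The numbers of non-neighbours in a critical counterexample to Hadwiger's conjecture (helper66).
-/

set_option autoImplicit false

namespace Pool.Agent.H66.HW

open SimpleGraph Finset Pool.Agent.Lib.H80

variable {V : Type*}

open Classical in
/-- The bounds for the random matching in a graph of small maximum degree. -/
lemma low_bounds [Fintype V] (G : SimpleGraph V) (Z : Finset V) (t N r : ℕ)
    (hd : ∀ v, (univ.filter (fun w => HA G Z v w)).card ≤ t) (hr : r = 400 * t ^ 2 / N)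
    (hN : 0 < N) (h4 : 160000 * t ^ 4 ≤ N ^ 3) (z : V) :
    400 * (Z.filter (fun w => r < cod (HA G Z) z w)).card ≤ N ∧
    400 * (∑ w ∈ Z.filter (fun w => cod (HA G Z) z w ≤ r),
      cod (HA G Z) z w * cod (HA G Z) z w) ≤ N ^ 2 := by
  have hsum : ∑ w ∈ Z, cod (HA G Z) z w ≤ t * t :=
    sum_cod_le (HA G Z) (fun v w h => h.symm) hd Z id (Function.injective_id.injOn) z
  constructor
  · set F := Z.filter (fun w => r < cod (HA G Z) z w) with hF
    have h1 : F.card * (r + 1) ≤ ∑ w ∈ F, cod (HA G Z) z w := by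
      rw [← smul_eq_mul]
      apply Finset.card_nsmul_le_sum
      intro w hw
      exact (Finset.mem_filter.1 hw).2
    have h2 : ∑ w ∈ F, cod (HA G Z) z w ≤ t * t :=
      (Finset.sum_le_sum_of_subset (Finset.filter_subset _ _)).trans hsum
    have h3 : 400 * t ^ 2 < N * (r + 1) := by
      rw [hr]
      exact Nat.lt_mul_div_succ _ hN
    by_contra hcon
    push Not at hcon
    have h5 : N * (r + 1) ≤ 400 * F.card * (r + 1) := Nat.mul_le_mul_right _ hcon.le
    nlinarith
  · have h1 : ∑ w ∈ Z.filter (fun w => cod (HA G Z) z w ≤ r),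
        cod (HA G Z) z w * cod (HA G Z) z w ≤ r * (t * t) := by
      calc ∑ w ∈ Z.filter (fun w => cod (HA G Z) z w ≤ r),
            cod (HA G Z) z w * cod (HA G Z) z w
          ≤ ∑ w ∈ Z.filter (fun w => cod (HA G Z) z w ≤ r), r * cod (HA G Z) z w := by
            apply Finset.sum_le_sum
            intro w hw
            exact Nat.mul_le_mul_right _ (Finset.mem_filter.1 hw).2
        _ = r * ∑ w ∈ Z.filter (fun w => cod (HA G Z) z w ≤ r), cod (HA G Z) z w := by
            rw [Finset.mul_sum]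
        _ ≤ r * (t * t) := Nat.mul_le_mul_left _
            ((Finset.sum_le_sum_of_subset (Finset.filter_subset _ _)).trans hsum)
    have h2 : r * N ≤ 400 * t ^ 2 := by
      rw [hr]
      exact Nat.div_mul_le_self _ _
    have h3 : 400 * (r * (t * t)) * N ≤ N ^ 2 * N := by
      calc 400 * (r * (t * t)) * N = 400 * t ^ 2 * (r * N) := by ring
        _ ≤ 400 * t ^ 2 * (400 * t ^ 2) := Nat.mul_le_mul_left _ h2
        _ = 160000 * t ^ 4 := by ring
        _ ≤ N ^ 3 := h4
        _ = N ^ 2 * N := by ring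
    have h5 : 400 * (r * (t * t)) ≤ N ^ 2 := Nat.le_of_mul_le_mul_right h3 hN
    exact (Nat.mul_le_mul_left _ h1).trans h5

lemma filter_HA_le [Fintype V] (G : SimpleGraph V) (A Z : Finset V) (hZA : Z ⊆ A) (t : ℕ)
    (hZ : ∀ z ∈ Z, dg G A z ≤ t) (v : V) :
    Set.ncard {w | HA G Z v w} ≤ t := by
  classical
  by_cases hv : v ∈ Z
  · refine le_trans ?_ (hZ v hv)
    unfold dg
    rw [← Set.ncard_coe_finset]
    apply Set.ncard_le_ncard _ (Finset.finite_toSet _)
    intro w hw
    have hw' : HA G Z v w := hw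
    rw [Finset.mem_coe, Finset.mem_filter]
    exact ⟨hZA hw'.2.1, hZA hv, hZA hw'.2.1, hw'.2.2⟩
  · have : {w | HA G Z v w} = ∅ := by
      ext w
      simp only [Set.mem_ofPred_eq, Set.mem_empty_iff_false, iff_false]
      exact fun h => hv h.1
    rw [this, Set.ncard_empty]
    exact Nat.zero_le _

open Classical in
/-- The degree sequence of the complement of a critical counterexample. -/
theorem degseq [Fintype V] (G : SimpleGraph V) {k : ℕ}
    (hk : ¬ G.Colorable k) (hK : ¬ Model G Set.univ (Fin (k + 1))) :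
    ∃ (S : Finset V) (j : ℕ), ¬ ColOn G (S : Set V) j ∧
      (∀ t, Model G (S : Set V) (Fin (j + 1 - t)) → Model G Set.univ (Fin (k + 1 - t))) ∧
      ∀ t, 1 ≤ t → 8000000000 * t ^ 4 < S.card ^ 3 →
        S.card ≤ 2000 * (t * (S.filter (fun v => t <
          (S.filter (fun w => v ≠ w ∧ ¬ G.Adj v w)).card)).card) ∧
        (800 * t ^ 2 ≤ S.card → S.card ≤ 2000 * (S.filter (fun v => t <
          (S.filter (fun w => v ≠ w ∧ ¬ G.Adj v w)).card)).card) := by
  obtain ⟨A, u, Q, j, hu1, hu2, hu3, hcard, hdeg, hmin, hQA, hQm, hQc, hcol, hdef⟩ :=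
    core2 G hk hK
  refine ⟨Q, j, hcol, hdef, ?_⟩
  intro t ht1 htC
  set h := (Q.filter (fun v => t < (Q.filter (fun w => v ≠ w ∧ ¬ G.Adj v w)).card)).card with hh
  obtain ⟨N, hN⟩ : ∃ N, N = (A.filter (fun v => u v ≠ v)).card := ⟨_, rfl⟩
  obtain ⟨U, hU⟩ : ∃ U, U = A.filter (fun v => t < dg G A v) := ⟨_, rfl⟩
  obtain ⟨Z, hZ⟩ : ∃ Z, Z = (A.filter (fun v => u v ≠ v)) \ U := ⟨_, rfl⟩
  rw [← hN] at hQc
  have hUh : U.card ≤ h := by
    apply Finset.card_le_card
    intro v hv
    rw [hU, Finset.mem_filter] at hv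
    obtain ⟨hvA, hvt⟩ := hv
    have hpos : 0 < (A.filter (fun w => HA G A v w)).card := lt_of_le_of_lt (Nat.zero_le _) hvt
    obtain ⟨w, hw⟩ := Finset.card_pos.1 hpos
    rw [Finset.mem_filter] at hw
    rw [Finset.mem_filter]
    refine ⟨hQm v hvA w hw.1 hw.2.2.2.1 hw.2.2.2.2, lt_of_lt_of_le hvt ?_⟩
    apply Finset.card_le_card
    intro w hw
    rw [Finset.mem_filter] at hw ⊢
    exact ⟨hQm w hw.1 v hvA hw.2.2.2.1.symm (fun h => hw.2.2.2.2 h.symm), hw.2.2.2.1,
      hw.2.2.2.2⟩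
  have hQN : Q.card ^ 3 ≤ 8 * N ^ 3 := by
    calc Q.card ^ 3 ≤ (2 * N) ^ 3 := Nat.pow_le_pow_left hQc 3
      _ = 8 * N ^ 3 := by ring
  have htN : 1000000000 * t ^ 4 < N ^ 3 := by omega
  have ht4 : 1 ≤ t ^ 4 := Nat.one_le_pow _ _ ht1
  have hN0 : 1000 ≤ N := by
    by_contra hcon
    push Not at hcon
    have : N ^ 3 ≤ 999 ^ 3 := Nat.pow_le_pow_left (by omega) 3
    omega
  have h400 : 400 * t ≤ N := by
    by_contra hcon
    push Not at hcon
    have h1 : N ^ 4 < (400 * t) ^ 4 := Nat.pow_lt_pow_left hcon (by norm_num)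
    have h2 : (400 * t) ^ 4 = 25600000000 * t ^ 4 := by ring
    have h3 : 1000 * N ^ 3 ≤ N ^ 4 := by
      calc 1000 * N ^ 3 ≤ N * N ^ 3 := Nat.mul_le_mul_right _ hN0
        _ = N ^ 4 := by ring
    omega
  have hZA : Z ⊆ A := by
    intro z hz
    rw [hZ, Finset.mem_sdiff, Finset.mem_filter] at hz
    exact hz.1.1
  have hdgZ : ∀ z ∈ Z, dg G A z ≤ t := by
    intro z hz
    by_contra hcon
    push Not at hcon
    rw [hZ, Finset.mem_sdiff] at hz
    apply hz.2
    rw [hU, Finset.mem_filter]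
    exact ⟨(Finset.mem_filter.1 hz.1).1, hcon⟩
  have hlow := low_bounds G Z t N (400 * t ^ 2 / N) (by
    intro v
    have := filter_HA_le G A Z hZA t hdgZ v
    rw [Set.ncard_eq_toFinset_card'] at this
    refine le_trans (Finset.card_le_card ?_) this
    intro w hw
    rw [Finset.mem_filter] at hw
    rw [Set.mem_toFinset]
    exact hw.2) rfl (by omega) (by omega)
  have hmain : ∀ κ, (U.card ≤ κ ∨ t ≤ κ) → 400 * (κ * t) ≤ N → 1000 * U.card ≤ N → False := by
    intro κ hκ hκt hUc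
    apply hK
    exact main2 G k A u hu1 hu2 hu3 hcard hdeg hmin t κ t (400 * t ^ 2 / N) N hN hN0 U hU h400
      hUc hκ Z hZ (by
        intro x _ b hb
        refine le_trans (Finset.card_le_card ?_) (hdgZ b hb)
        intro w hw
        rw [Finset.mem_filter] at hw ⊢
        exact ⟨hZA hw.1, hw.2.2⟩) hκt (fun z _ => (hlow z).1) (fun z _ => (hlow z).2)
  constructor
  · by_contra hcon
    push Not at hcon
    have h1 : t * U.card ≤ t * h := Nat.mul_le_mul_left _ hUh
    have h2 : 1 * U.card ≤ t * U.card := Nat.mul_le_mul_right _ ht1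
    exact hmain U.card (Or.inl le_rfl) (by rw [mul_comm U.card t]; omega) (by omega)
  · intro h800
    by_contra hcon
    push Not at hcon
    exact hmain t (Or.inr le_rfl) (by rw [← sq]; omega) (by omega)

end Pool.Agent.H66.HW
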