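import Mathlib
import Pool.Agent.H66.HW.Degseq

/-!
Common non-neighbours in a critical counterexample to Hadwiger's conjecture (helper66).
-/

set_option autoImplicit false

namespace Pool.Agent.H66.HW

open SimpleGraph Finset Pool.Agent.Lib.H80

variable {V : Type*}

/-- Few large sets with small pairwise intersections. -/
lemma few_large {α : Type*} [DecidableEq α] (U : Finset α) (Q : Finset V) (F : α → Finset V)
    [DecidableEq V] (N s M : ℕ)
    (hQ : Q.card ≤ 2 * N) (hF : ∀ x ∈ U, F x ⊆ Q) (hF1 : ∀ x ∈ U, N < 400 * (F x).card)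
    (hF2 : ∀ x ∈ U, ∀ y ∈ U, x ≠ y → (F x ∩ F y).card ≤ s) (hM : M = 1600)
    (hs : 1280000 * s < N) : U.card ≤ M := by
  by_contra hcon
  push Not at hcon
  obtain ⟨W, hWU, hWc⟩ := Finset.exists_subset_card_eq hcon.le
  -- inclusion and exclusion
  have key : ∀ W' : Finset α, W' ⊆ W →
      W'.card * N ≤ 400 * (W'.biUnion F).card + 400 * (W'.card * (M * s)) := by
    intro W'
    induction W' using Finset.induction_on with
    | empty => intro _; simp
    | insert x W' hx ih =>
      intro hsub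
      have hsub' : W' ⊆ W := (Finset.subset_insert _ _).trans hsub
      have hxU : x ∈ U := hWU (hsub (Finset.mem_insert_self _ _))
      have ih' := ih hsub'
      rw [Finset.card_insert_of_notMem hx, Finset.biUnion_insert]
      have h1 := Finset.card_union_add_card_inter (F x) (W'.biUnion F)
      have h2 : (F x ∩ W'.biUnion F).card ≤ M * s := by
        rw [Finset.inter_biUnion]
        refine (Finset.card_biUnion_le_card_mul _ _ s ?_).trans (Nat.mul_le_mul_right _ ?_)
        · intro y hy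
          exact hF2 x hxU y (hWU (hsub' hy)) (fun h => hx (h ▸ hy))
        · rw [← hWc]
          exact Finset.card_le_card hsub'
      have h3 := hF1 x hxU
      have e1 : (W'.card + 1) * N = W'.card * N + N := by ring
      have e2 : 400 * ((W'.card + 1) * (M * s)) = 400 * (W'.card * (M * s)) + 400 * (M * s) := by
        ring
      rw [e1, e2]
      omega
  have h1 := key W (Finset.Subset.refl _)
  have h2 : (W.biUnion F).card ≤ Q.card := by
    apply Finset.card_le_card
    intro z hz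
    obtain ⟨x, hx, hzx⟩ := Finset.mem_biUnion.1 hz
    exact hF x (hWU hx) hzx
  rw [hWc] at h1
  subst hM
  omega

open Classical in
/-- Two vertices with many common non-neighbours. -/
theorem comnon [Fintype V] (G : SimpleGraph V) {k : ℕ}
    (hk : ¬ G.Colorable k) (hK : ¬ Model G Set.univ (Fin (k + 1))) :
    ∃ (S : Finset V) (j : ℕ), ¬ ColOn G (S : Set V) j ∧
      (∀ t, Model G (S : Set V) (Fin (j + 1 - t)) → Model G Set.univ (Fin (k + 1 - t))) ∧
      ∃ v ∈ S, ∃ w ∈ S, v ≠ w ∧ S.card < 10000000 *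
        ((S.filter (fun z => (v ≠ z ∧ ¬ G.Adj v z) ∧ w ≠ z ∧ ¬ G.Adj w z)).card + 1) ^ 2 := by
  obtain ⟨A, u, Q, j, hu1, hu2, hu3, hcard, hdeg, hmin, hQA, hQm, hQc, hcol, hdef⟩ :=
    core2 G hk hK
  refine ⟨Q, j, hcol, hdef, ?_⟩
  by_contra hcon
  push Not at hcon
  -- there are two vertices
  obtain ⟨N, hN⟩ : ∃ N, N = (A.filter (fun v => u v ≠ v)).card := ⟨_, rfl⟩
  rw [← hN] at hQc
  have hQne : ∃ v ∈ Q, ∃ w ∈ Q, v ≠ w := by
    by_contra hno
    push Not at hno
    have hclA : ∀ v ∈ A, ∀ w ∈ A, v ≠ w → G.Adj v w := by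
      intro v hv w hw hvw
      by_contra hadj
      exact hvw (hno v (hQm v hv w hw hvw hadj) w
        (hQm w hw v hv hvw.symm (fun h => hadj h.symm)))
    apply hK
    have hcl : Model G Set.univ A := model_clique A hclA (fun _ _ => trivial)
    refine hcl.of_card ?_
    rw [Fintype.card_fin, Fintype.card_coe]
    have : (A.image u).card ≤ A.card := Finset.card_image_le
    omega
  obtain ⟨v0, hv0, w0, hw0, hvw0⟩ := hQne
  -- the largest number of common non-neighbours
  set c : V × V → ℕ := fun p =>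
    (Q.filter (fun z => (p.1 ≠ z ∧ ¬ G.Adj p.1 z) ∧ p.2 ≠ z ∧ ¬ G.Adj p.2 z)).card with hc
  obtain ⟨p, hp, hpmax⟩ := Finset.exists_max_image ((Q ×ˢ Q).filter (fun p => p.1 ≠ p.2)) c
    ⟨(v0, w0), Finset.mem_filter.2 ⟨Finset.mem_product.2 ⟨hv0, hw0⟩, hvw0⟩⟩
  rw [Finset.mem_filter, Finset.mem_product] at hp
  set s := c p with hs
  have hps : 10000000 * (s + 1) ^ 2 ≤ Q.card := hcon p.1 hp.1.1 p.2 hp.1.2 hp.2
  have hcs : ∀ v ∈ Q, ∀ w ∈ Q, v ≠ w → c (v, w) ≤ s := by
    intro v hv w hw hvw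
    exact hpmax (v, w) (Finset.mem_filter.2 ⟨Finset.mem_product.2 ⟨hv, hw⟩, hvw⟩)
  have hs1 : s + 1 ≤ (s + 1) ^ 2 := Nat.le_self_pow (by norm_num) _
  have hNs : 5000000 * (s + 1) ^ 2 ≤ N := by omega
  have hs2 : s ^ 2 ≤ (s + 1) ^ 2 := Nat.pow_le_pow_left (Nat.le_succ _) 2
  -- common non-neighbours in `A`
  have hcA : ∀ v ∈ A, ∀ w ∈ A, v ≠ w →
      (A.filter (fun z => HA G A v z ∧ HA G A w z)).card ≤ s := by
    intro v hv w hw hvw
    by_cases hne : (A.filter (fun z => HA G A v z ∧ HA G A w z)).Nonempty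
    · obtain ⟨z, hz⟩ := hne
      rw [Finset.mem_filter] at hz
      have hvQ : v ∈ Q := hQm v hv z hz.1 hz.2.1.2.2.1 hz.2.1.2.2.2
      have hwQ : w ∈ Q := hQm w hw z hz.1 hz.2.2.2.2.1 hz.2.2.2.2.2
      refine le_trans (Finset.card_le_card ?_) (hcs v hvQ w hwQ hvw)
      intro y hy
      rw [Finset.mem_filter] at hy ⊢
      exact ⟨hQm y hy.1 v hv hy.2.1.2.2.1.symm (fun h => hy.2.1.2.2.2 h.symm),
        hy.2.1.2.2, hy.2.2.2.2⟩
    · rw [Finset.not_nonempty_iff_eq_empty] at hne
      rw [hne, Finset.card_empty]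
      exact Nat.zero_le _
  obtain ⟨t, ht⟩ : ∃ t, t = N / 400 := ⟨_, rfl⟩
  obtain ⟨U, hU⟩ : ∃ U, U = A.filter (fun v => t < dg G A v) := ⟨_, rfl⟩
  obtain ⟨Z, hZ⟩ : ∃ Z, Z = (A.filter (fun v => u v ≠ v)) \ U := ⟨_, rfl⟩
  have hZA : Z ⊆ A := by
    intro z hz
    rw [hZ, Finset.mem_sdiff, Finset.mem_filter] at hz
    exact hz.1.1
  have hZU : ∀ z ∈ Z, z ∉ U := by
    intro z hz
    rw [hZ, Finset.mem_sdiff] at hz
    exact hz.2
  have hZN : Z.card ≤ N := by
    rw [hZ, hN]
    exact Finset.card_le_card Finset.sdiff_subset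
  have hUc : U.card ≤ 1600 := by
    refine few_large U Q (fun v => A.filter (fun w => HA G A v w)) N s 1600 hQc ?_ ?_ ?_ rfl
      (by omega)
    · intro x hx w hw
      rw [Finset.mem_filter] at hw
      exact hQm w hw.1 x hw.2.1 hw.2.2.2.1.symm (fun h => hw.2.2.2.2 h.symm)
    · intro x hx
      rw [hU, Finset.mem_filter] at hx
      have h1 : t < (A.filter (fun w => HA G A x w)).card := hx.2
      show N < 400 * (A.filter (fun w => HA G A x w)).card
      omega
    · intro x hx y hy hxy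
      rw [hU, Finset.mem_filter] at hx hy
      have : A.filter (fun w => HA G A x w) ∩ A.filter (fun w => HA G A y w) =
          A.filter (fun z => HA G A x z ∧ HA G A y z) := by
        ext z
        simp only [Finset.mem_inter, Finset.mem_filter]
        tauto
      rw [this]
      exact hcA x hx.1 y hy.1 hxy
  have hcod : ∀ z ∈ Z, ∀ w ∈ Z, z ≠ w → cod (HA G Z) z w ≤ s := by
    intro z hz w hw hzw
    refine le_trans ?_ (hcA z (hZA hz) w (hZA hw) hzw)
    unfold cod
    apply Finset.card_le_card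
    intro y hy
    rw [Finset.mem_filter] at hy ⊢
    exact ⟨hZA hy.2.1.2.1, ⟨hZA hz, hZA hy.2.1.2.1, hy.2.1.2.2⟩,
      ⟨hZA hw, hZA hy.2.1.2.1, hy.2.2.2.2⟩⟩
  apply hK
  refine main2 G k A u hu1 hu2 hu3 hcard hdeg hmin t 1600 s s N hN (by omega) U hU (by omega)
    (by omega) (Or.inl hUc) Z hZ ?_ (by omega) ?_ ?_
  · intro x hx b hb
    have hxA : x ∈ A := by
      rw [hU, Finset.mem_filter] at hx
      exact hx.1
    refine le_trans (Finset.card_le_card ?_) (hcA x hxA b (hZA hb)
      (fun h => hZU b hb (h ▸ hx)))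
    intro w hw
    rw [Finset.mem_filter] at hw ⊢
    exact ⟨hZA hw.1, hw.2⟩
  · intro z hz
    have h1 : (Z.filter (fun w => s < cod (HA G Z) z w)).card ≤ ({z} : Finset V).card := by
      apply Finset.card_le_card
      intro w hw
      rw [Finset.mem_filter] at hw
      rw [Finset.mem_singleton]
      by_contra hne
      have := hcod z hz w hw.1 (fun h => hne h.symm)
      omega
    rw [Finset.card_singleton] at h1
    omega
  · intro z hz
    have h1 : ∑ w ∈ Z.filter (fun w => cod (HA G Z) z w ≤ s),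
        cod (HA G Z) z w * cod (HA G Z) z w ≤ N * (s * s) := by
      calc ∑ w ∈ Z.filter (fun w => cod (HA G Z) z w ≤ s),
            cod (HA G Z) z w * cod (HA G Z) z w
          ≤ ∑ _w ∈ Z.filter (fun w => cod (HA G Z) z w ≤ s), s * s := by
            apply Finset.sum_le_sum
            intro w hw
            exact Nat.mul_le_mul (Finset.mem_filter.1 hw).2 (Finset.mem_filter.1 hw).2
        _ = (Z.filter (fun w => cod (HA G Z) z w ≤ s)).card * (s * s) := by
            rw [Finset.sum_const, smul_eq_mul]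
        _ ≤ N * (s * s) := Nat.mul_le_mul_right _
            ((Finset.card_le_card (Finset.filter_subset _ _)).trans hZN)
    have h2 : 400 * (s * s) ≤ N := by
      rw [← sq]
      omega
    calc 400 * ∑ w ∈ Z.filter (fun w => cod (HA G Z) z w ≤ s),
          cod (HA G Z) z w * cod (HA G Z) z w ≤ 400 * (N * (s * s)) := Nat.mul_le_mul_left _ h1
      _ = N * (400 * (s * s)) := by ring
      _ ≤ N * N := Nat.mul_le_mul_left _ h2
      _ = N ^ 2 := by ring

end Pool.Agent.H66.HW
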