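import Mathlib
import Pool.Agent.H66.HW.Assemble

/-!
Choosing partners one after the other, controlled by an exponential potential (helper66).
-/

set_option autoImplicit false

namespace Pool.Agent.H66.HW

open Finset

variable {V : Type*}

open Classical in
/-- The total weight of the pairs `x, β x` both related to `z`. -/
noncomputable def TT (H : V → V → Prop) (c : V → V → ℕ) (X : Finset V) (β : V → V) (z : V) : ℕ :=
  ∑ x ∈ X.filter (fun x => H x z ∧ H (β x) z), c x (β x)

lemma TT_insert [DecidableEq V] (H : V → V → Prop) (c : V → V → ℕ) (X : Finset V) (β : V → V)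
    (x b : V) (hx : x ∉ X) (z : V) [Decidable (H x z ∧ H b z)] :
    TT H c (insert x X) (Function.update β x b) z =
      TT H c X β z + (if H x z ∧ H b z then c x b else 0) := by
  classical
  have hup : ∀ y ∈ X, Function.update β x b y = β y := by
    intro y hy
    rw [Function.update_of_ne]
    rintro rfl
    exact hx hy
  unfold TT
  rw [Finset.filter_insert]
  have h1 : X.filter (fun y => H y z ∧ H (Function.update β x b y) z) =
      X.filter (fun y => H y z ∧ H (β y) z) := by
    apply Finset.filter_congr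
    intro y hy
    rw [hup y hy]
  have h2 : ∑ y ∈ X.filter (fun y => H y z ∧ H (β y) z), c y (Function.update β x b y) =
      ∑ y ∈ X.filter (fun y => H y z ∧ H (β y) z), c y (β y) := by
    apply Finset.sum_congr rfl
    intro y hy
    rw [hup y (Finset.mem_filter.1 hy).1]
  rw [Function.update_self]
  by_cases h : H x z ∧ H b z
  · rw [if_pos h, if_pos h, Finset.sum_insert (by
      rw [Finset.mem_filter]
      exact fun h' => hx h'.1), Function.update_self, h1, h2, add_comm]
  · rw [if_neg h, if_neg h, h1, h2, add_zero]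

lemma exp_sub_one_le {y : ℝ} (h0 : 0 ≤ y) (h1 : y ≤ 1) : Real.exp y ≤ 1 + 2 * y := by
  have h := Real.exp_bound' h0 h1 (n := 2) (by norm_num)
  norm_num [Finset.sum_range_succ] at h
  nlinarith

open Classical in
/-- Choosing partners one after the other. -/
theorem greedy [Fintype V] (H : V → V → Prop) (hsymm : ∀ v w, H v w → H w v)
    (Z X W : Finset V) (hXW : X ⊆ W) (hWne : W.Nonempty) (L : V → Finset V)
    (hLZ : ∀ x ∈ X, L x ⊆ Z) (c : V → V → ℕ)
    (hc : ∀ x ∈ X, ∀ b ∈ L x, c x b = (Z.filter (fun w => H x w ∧ H b w)).card)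
    (lam ℓ K : ℝ) (hlam : 0 < lam) (hℓ : 0 < ℓ)
    (hc1 : ∀ x ∈ X, ∀ b ∈ L x, lam * (c x b : ℝ) ≤ 1)
    (hL : ∀ x ∈ X, ℓ + X.card + K ≤ ((L x).card : ℝ))
    (μ : V → V → ℝ) (hμ0 : ∀ x z, 0 ≤ μ x z)
    (hμ : ∀ x ∈ X, ∀ z ∈ W, 2 * lam / ℓ * (∑ b ∈ (L x).filter (fun b => H x z ∧ H b z),
      (c x b : ℝ)) ≤ μ x z)
    (hK : ∀ z ∈ W, Real.log W.card + ∑ x ∈ X, μ x z ≤ lam * K) :
    ∃ β : V → V, (∀ x ∈ X, β x ∈ L x) ∧ (∀ x ∈ X, ∀ y ∈ X, β x = β y → x = y) ∧
      (∀ x ∈ X, ∀ y ∈ X, x ≠ y → ¬ (H x y ∧ H x (β y) ∧ H (β x) y ∧ H (β x) (β y))) ∧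
      ∀ z ∈ W, (TT H c X β z : ℝ) ≤ K := by
  have hWpos : (0 : ℝ) < W.card := by exact_mod_cast hWne.card_pos
  -- the potential bounds the sums
  have hpot : ∀ (X' : Finset V) (β : V → V), X' ⊆ X →
      ∑ z ∈ W, Real.exp (lam * (TT H c X' β z : ℝ) - ∑ x ∈ X', μ x z) ≤ W.card →
      ∀ z ∈ W, (TT H c X' β z : ℝ) ≤ K := by
    intro X' β hX' hΦ z hz
    have h1 : Real.exp (lam * (TT H c X' β z : ℝ) - ∑ x ∈ X', μ x z) ≤ W.card :=
      (Finset.single_le_sum (f := fun z => Real.exp (lam * (TT H c X' β z : ℝ) -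
        ∑ x ∈ X', μ x z)) (fun i _ => (Real.exp_pos _).le) hz).trans hΦ
    have h2 : lam * (TT H c X' β z : ℝ) - ∑ x ∈ X', μ x z ≤ Real.log W.card := by
      rw [Real.le_log_iff_exp_le hWpos]
      exact h1
    have h3 : ∑ x ∈ X', μ x z ≤ ∑ x ∈ X, μ x z :=
      Finset.sum_le_sum_of_subset_of_nonneg hX' (fun x _ _ => hμ0 x z)
    have h4 : lam * (TT H c X' β z : ℝ) ≤ lam * K := by
      have := hK z hz
      linarith
    exact le_of_mul_le_mul_left h4 hlam
  suffices hmain : ∀ X' : Finset V, X' ⊆ X → ∃ β : V → V, (∀ x ∈ X', β x ∈ L x) ∧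
      (∀ x ∈ X', ∀ y ∈ X', β x = β y → x = y) ∧
      (∀ x ∈ X', ∀ y ∈ X', x ≠ y → ¬ (H x y ∧ H x (β y) ∧ H (β x) y ∧ H (β x) (β y))) ∧
      ∑ z ∈ W, Real.exp (lam * (TT H c X' β z : ℝ) - ∑ x ∈ X', μ x z) ≤ W.card by
    obtain ⟨β, h1, h2, h3, h4⟩ := hmain X (Finset.Subset.refl _)
    exact ⟨β, h1, h2, h3, hpot X β (Finset.Subset.refl _) h4⟩
  intro X'
  induction X' using Finset.induction_on with
  | empty =>
    intro _
    refine ⟨id, by simp, by simp, by simp, ?_⟩
    simp [TT]
  | insert x X' hx ih =>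
    intro hsub
    have hsub' : X' ⊆ X := (Finset.subset_insert _ _).trans hsub
    have hxX : x ∈ X := hsub (Finset.mem_insert_self _ _)
    obtain ⟨β, h1, h2, h3, h4⟩ := ih hsub'
    -- the forbidden partners
    set Fb := (X'.filter (fun y => H y x ∧ H (β y) x)).biUnion
      (fun y => Z.filter (fun w => H y w ∧ H (β y) w)) with hFb
    have hFbc : (Fb.card : ℝ) ≤ K := by
      refine le_trans ?_ (hpot X' β hsub' h4 x (hXW hxX))
      have : Fb.card ≤ TT H c X' β x := by
        refine Finset.card_biUnion_le.trans ?_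
        unfold TT
        apply Finset.sum_le_sum
        intro y hy
        rw [Finset.mem_filter] at hy
        rw [hc y (hsub' hy.1) (β y) (h1 y hy.1)]
      exact_mod_cast this
    set Lx := (L x \ (X'.image β)) \ Fb with hLx
    have hLxc : ℓ ≤ (Lx.card : ℝ) := by
      have e1 : (L x).card ≤ (L x \ (X'.image β)).card + (X'.image β).card := by
        have := Finset.le_card_sdiff (X'.image β) (L x)
        omega
      have e2 : (L x \ (X'.image β)).card ≤ Lx.card + Fb.card := by
        have : (L x \ (X'.image β)).card - Fb.card ≤ Lx.card :=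
          Finset.le_card_sdiff Fb (L x \ (X'.image β))
        omega
      have e3 : (X'.image β).card ≤ X.card :=
        Finset.card_image_le.trans (Finset.card_le_card hsub')
      have e4 : ((L x).card : ℝ) ≤ Lx.card + Fb.card + X.card := by
        have : (L x).card ≤ Lx.card + Fb.card + X.card := by omega
        exact_mod_cast this
      have := hL x hxX
      linarith
    have hLxpos : (0 : ℝ) < Lx.card := lt_of_lt_of_le hℓ hLxc
    have hLxL : Lx ⊆ L x := fun b hb =>
      (Finset.mem_sdiff.1 (Finset.mem_sdiff.1 hb).1).1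
    -- the weights
    set w : V → ℝ := fun z => Real.exp (lam * (TT H c X' β z : ℝ) - ∑ y ∈ X', μ y z) with hw
    have hw0 : ∀ z, 0 < w z := fun z => Real.exp_pos _
    set g : V → V → ℝ := fun b z => Real.exp (lam * (if H x z ∧ H b z then (c x b : ℝ) else 0) -
      μ x z) with hg
    have havg : ∑ b ∈ Lx, ∑ z ∈ W, w z * g b z ≤ Lx.card * ∑ z ∈ W, w z := by
      rw [Finset.sum_comm, Finset.mul_sum]
      apply Finset.sum_le_sum
      intro z hz
      rw [← Finset.mul_sum, mul_comm]
      apply mul_le_mul_of_nonneg_right _ (hw0 z).le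
      -- the average over the choices
      have e1 : ∀ b ∈ Lx, g b z ≤ Real.exp (- μ x z) * (1 + 2 * lam *
          (if H x z ∧ H b z then (c x b : ℝ) else 0)) := by
        intro b hb
        simp only [hg]
        rw [sub_eq_add_neg, Real.exp_add, mul_comm]
        apply mul_le_mul_of_nonneg_left _ (Real.exp_pos _).le
        have := exp_sub_one_le (y := lam * (if H x z ∧ H b z then (c x b : ℝ) else 0))
          (by split_ifs <;> positivity)
          (by
            split_ifs
            · exact hc1 x hxX b (hLxL hb)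
            · simp)
        linarith
      have e2 : ∑ b ∈ Lx, (if H x z ∧ H b z then (c x b : ℝ) else 0) ≤
          ∑ b ∈ (L x).filter (fun b => H x z ∧ H b z), (c x b : ℝ) := by
        rw [Finset.sum_filter]
        apply Finset.sum_le_sum_of_subset_of_nonneg hLxL
        intro b _ _
        split_ifs <;> positivity
      have e3 := hμ x hxX z hz
      have e4 : ∑ b ∈ (L x).filter (fun b => H x z ∧ H b z), (c x b : ℝ) * (2 * lam) ≤
          ℓ * μ x z := by
        rw [← Finset.sum_mul]
        have : 2 * lam / ℓ * (∑ b ∈ (L x).filter (fun b => H x z ∧ H b z), (c x b : ℝ)) =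
          ((∑ b ∈ (L x).filter (fun b => H x z ∧ H b z), (c x b : ℝ)) * (2 * lam)) / ℓ := by
          ring
        rw [this, div_le_iff₀ hℓ] at e3
        linarith
      rw [← Finset.sum_mul] at e4
      calc ∑ b ∈ Lx, g b z
          ≤ ∑ b ∈ Lx, Real.exp (- μ x z) * (1 + 2 * lam *
            (if H x z ∧ H b z then (c x b : ℝ) else 0)) := Finset.sum_le_sum e1
        _ = Real.exp (- μ x z) * (Lx.card + 2 * lam *
            ∑ b ∈ Lx, (if H x z ∧ H b z then (c x b : ℝ) else 0)) := by
            rw [← Finset.mul_sum, Finset.sum_add_distrib, Finset.mul_sum]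
            simp
        _ ≤ Real.exp (- μ x z) * (Lx.card + ℓ * μ x z) := by
            apply mul_le_mul_of_nonneg_left _ (Real.exp_pos _).le
            have : 2 * lam * ∑ b ∈ Lx, (if H x z ∧ H b z then (c x b : ℝ) else 0) ≤
                2 * lam * ∑ b ∈ (L x).filter (fun b => H x z ∧ H b z), (c x b : ℝ) :=
              mul_le_mul_of_nonneg_left e2 (by positivity)
            linarith
        _ ≤ Real.exp (- μ x z) * (Lx.card * (1 + μ x z)) := by
            apply mul_le_mul_of_nonneg_left _ (Real.exp_pos _).le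
            have : ℓ * μ x z ≤ Lx.card * μ x z :=
              mul_le_mul_of_nonneg_right hLxc (hμ0 x z)
            linarith
        _ ≤ Real.exp (- μ x z) * (Lx.card * Real.exp (μ x z)) := by
            apply mul_le_mul_of_nonneg_left _ (Real.exp_pos _).le
            apply mul_le_mul_of_nonneg_left _ hLxpos.le
            have := Real.add_one_le_exp (μ x z)
            linarith
        _ = Lx.card := by
            rw [mul_left_comm, ← Real.exp_add]
            simp
    obtain ⟨b, hb, hbΦ⟩ : ∃ b ∈ Lx, ∑ z ∈ W, w z * g b z ≤ ∑ z ∈ W, w z := by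
      by_contra hno
      push Not at hno
      have hne : Lx.Nonempty := by
        rw [← Finset.card_pos]
        exact_mod_cast hLxpos
      have := Finset.sum_lt_sum_of_nonempty hne hno
      rw [Finset.sum_const, nsmul_eq_mul] at this
      linarith
    have hb1 : b ∈ L x := hLxL hb
    have hb2 : b ∉ X'.image β := (Finset.mem_sdiff.1 (Finset.mem_sdiff.1 hb).1).2
    have hb3 : b ∉ Fb := (Finset.mem_sdiff.1 hb).2
    have hup : ∀ y ∈ X', Function.update β x b y = β y := by
      intro y hy
      rw [Function.update_of_ne]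
      rintro rfl
      exact hx hy
    have hself : Function.update β x b x = b := Function.update_self _ _ _
    have hconf : ∀ y ∈ X', ¬ (H x y ∧ H x (β y) ∧ H b y ∧ H b (β y)) := by
      rintro y hy ⟨g1, g2, g3, g4⟩
      apply hb3
      rw [hFb, Finset.mem_biUnion]
      refine ⟨y, Finset.mem_filter.2 ⟨hy, hsymm _ _ g1, hsymm _ _ g2⟩, ?_⟩
      rw [Finset.mem_filter]
      exact ⟨hLZ x hxX hb1, hsymm _ _ g3, hsymm _ _ g4⟩
    refine ⟨Function.update β x b, ?_, ?_, ?_, ?_⟩
    · intro y hy
      rcases Finset.mem_insert.1 hy with rfl | hy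
      · rw [hself]
        exact hb1
      · rw [hup y hy]
        exact h1 y hy
    · intro y hy y' hy' h
      rcases Finset.mem_insert.1 hy with hyx | hy <;> rcases Finset.mem_insert.1 hy' with hyx' | hy'
      · rw [hyx, hyx']
      · rw [hyx, hself, hup y' hy'] at h
        exact absurd (h ▸ Finset.mem_image_of_mem β hy') hb2
      · rw [hyx', hself, hup y hy] at h
        exact absurd (h ▸ Finset.mem_image_of_mem β hy) hb2
      · rw [hup y hy, hup y' hy'] at h
        exact h2 y hy y' hy' h
    · intro y hy y' hy' hne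
      rcases Finset.mem_insert.1 hy with hyx | hy <;> rcases Finset.mem_insert.1 hy' with hyx' | hy'
      · exact absurd (hyx.trans hyx'.symm) hne
      · rw [hyx, hself, hup y' hy']
        exact hconf y' hy'
      · rw [hyx', hself, hup y hy]
        rintro ⟨g1, g2, g3, g4⟩
        exact hconf y hy ⟨hsymm _ _ g1, hsymm _ _ g3, hsymm _ _ g2, hsymm _ _ g4⟩
      · rw [hup y hy, hup y' hy']
        exact h3 y hy y' hy' hne
    · refine le_trans (le_of_eq ?_) (hbΦ.trans h4)
      apply Finset.sum_congr rfl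
      intro z _
      simp only [hw, hg]
      rw [TT_insert H c X' β x b hx z, Finset.sum_insert hx, ← Real.exp_add]
      congr 1
      push_cast
      ring

end Pool.Agent.H66.HW
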