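import Mathlib
import Pool.Agent.H66.HW.Greedy
import Pool.Agent.H66.HW.Main2

/-!
Clique minors in graphs whose complement has few vertices of large degree, second version
(helper66).
-/

set_option autoImplicit false

namespace Pool.Agent.H66.HW

open SimpleGraph Finset Pool.Agent.Lib.H80

variable {V : Type*}

open Classical in
/-- The number of common non-neighbours in `Z`. -/
noncomputable def cZ (G : SimpleGraph V) (A Z : Finset V) (x b : V) : ℕ :=
  (Z.filter (fun w => HA G A x w ∧ HA G A b w)).card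

open Classical in
/-- The main theorem with many vertices of large degree. -/
theorem main3 [Fintype V] (G : SimpleGraph V) (k : ℕ) (A : Finset V) (u : V → V)
    (hu1 : ∀ v ∈ A, u v ∈ A) (hu2 : ∀ v ∈ A, u (u v) = u v)
    (hu3 : ∀ v ∈ A, ∀ w ∈ A, v ≠ w → ¬ G.Adj v w → u v = u w)
    (hcard : 2 * (k + 1) ≤ A.card + (A.image u).card)
    (hdeg : ∀ v ∈ A, ∃ N : Finset V, k ≤ N.card ∧ ∀ w ∈ N, w ∈ A ∧ G.Adj v w)
    (hmin : ∀ v ∈ A, dg G A (u v) ≤ dg G A v)
    (t s r N M : ℕ) (hN : N = (A.filter (fun v => u v ≠ v)).card) (hN0 : 1000 ≤ N)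
    (U : Finset V) (hU : ∀ v ∈ A, t < dg G A v → v ∈ U) (ht : 400 * t ≤ N)
    (hUc : 1000 * U.card ≤ N) (hs0 : 0 < s)
    (Z : Finset V) (hZ : Z = (A.filter (fun v => u v ≠ v)) \ U)
    (hs : ∀ x ∈ A, x ∈ U → ∀ b ∈ Z, cZ G A Z x b ≤ s)
    (hM : ∀ z ∈ A, ∑ x ∈ ((A.filter (fun v => u v ≠ v)) ∩ U).filter (fun x => HA G A x z),
      ∑ b ∈ Z.filter (fun b => HA G A b z), cZ G A Z x b ≤ M)
    (hnumM : (s : ℝ) * Real.log N + 16 * M / N ≤ N / 400)
    (hP0 : ∀ z ∈ Z, 400 * (Z.filter (fun w => r < cod (HA G Z) z w)).card ≤ N)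
    (hWt : ∀ z ∈ Z, 400 * (∑ w ∈ Z.filter (fun w => cod (HA G Z) z w ≤ r),
      cod (HA G Z) z w * cod (HA G Z) z w) ≤ N ^ 2) :
    Model G Set.univ (Fin (k + 1)) := by
  set Y := A.filter (fun v => u v ≠ v) with hY
  set Rp := A.filter (fun v => u v = v) with hRp
  have hsplit : Rp.card + Y.card = A.card := Finset.card_filter_add_card_filter_not _
  have himg : (A.image u).card ≤ Rp.card := by
    apply Finset.card_le_card
    intro x hx
    obtain ⟨v, hv, rfl⟩ := Finset.mem_image.1 hx
    exact Finset.mem_filter.2 ⟨hu1 v hv, hu2 v hv⟩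
  have hYm : ∀ v, v ∈ Y ↔ v ∈ A ∧ u v ≠ v := fun v => Finset.mem_filter
  have hZm : ∀ v, v ∈ Z ↔ (v ∈ A ∧ u v ≠ v) ∧ v ∉ U := fun v => by
    rw [hZ, Finset.mem_sdiff, hYm]
  set X := Y ∩ U with hX
  have hXU : X ⊆ U := Finset.inter_subset_right
  have hXc : X.card ≤ U.card := Finset.card_le_card hXU
  have hZX : Z.card + X.card = Y.card := by
    rw [hZ, hX]
    have := Finset.card_sdiff_add_card_inter Y U
    exact this
  have hXm : ∀ x ∈ X, x ∈ A ∧ u x ≠ x ∧ x ∉ Z := by
    intro x hx
    rw [hX, Finset.mem_inter, hYm] at hx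
    exact ⟨hx.1.1, hx.1.2, fun h => ((hZm x).1 h).2 hx.2⟩
  have hZm' : ∀ z ∈ Z, z ∈ A ∧ u z ≠ z := fun z hz => ((hZm z).1 hz).1
  -- degrees
  have hdgZ : ∀ z ∈ Z, dg G A z ≤ t := by
    intro z hz
    by_contra hcon
    push Not at hcon
    exact ((hZm z).1 hz).2 (hU z (hZm' z hz).1 hcon)
  have hdgu : ∀ v ∈ A, 400 * dg G A (u v) ≤ N := by
    intro v hv
    by_cases h : dg G A (u v) ≤ t
    · omega
    · push Not at h
      have hsub : A.filter (fun w => HA G A (u v) w) ⊆ U := by
        intro w hw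
        rw [Finset.mem_filter] at hw
        refine hU w hw.1 (lt_of_lt_of_le h ?_)
        have h3 := hu3 (u v) (hu1 v hv) w hw.1 hw.2.2.2.1 hw.2.2.2.2
        rw [hu2 v hv] at h3
        rw [h3]
        exact hmin w hw.1
      have h4 : dg G A (u v) ≤ U.card := Finset.card_le_card hsub
      omega
  have hN0R : (1000 : ℝ) ≤ N := by exact_mod_cast hN0
  -- the bound on the constraints, for any set of pairs at vertices of large degree
  have hPbd : ∀ (X' : Finset V) (β : V → V), (∀ z ∈ Z,
      (((X'.filter (fun x => HA G A x z ∧ HA G A (β x) z)).biUnion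
        (fun x => Z.filter (fun w => HA G A x w ∧ HA G A (β x) w))).card : ℝ) ≤ (N : ℝ) / 400) →
      ∀ z ∈ Z,
      ((Z.filter (fun w => HA G Z z w ∨
      ((HA G A (u z) z ∧ HA G A (u z) w) ∨
        ∃ x ∈ X', HA G A x z ∧ HA G A (β x) z ∧ HA G A x w ∧ HA G A (β x) w) ∨
      r < cod (HA G Z) z w)).card : ℝ) ≤ (N : ℝ) / 100 := by
    intro X' β hT z hz
    have hsub : Z.filter (fun w => HA G Z z w ∨
      ((HA G A (u z) z ∧ HA G A (u z) w) ∨
        ∃ x ∈ X', HA G A x z ∧ HA G A (β x) z ∧ HA G A x w ∧ HA G A (β x) w) ∨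
      r < cod (HA G Z) z w) ⊆ (A.filter (fun w => HA G A z w)) ∪
        ((A.filter (fun w => HA G A (u z) w)) ∪
          (((X'.filter (fun x => HA G A x z ∧ HA G A (β x) z)).biUnion
            (fun x => Z.filter (fun w => HA G A x w ∧ HA G A (β x) w))) ∪
            (Z.filter (fun w => r < cod (HA G Z) z w)))) := by
      intro w hw
      rw [Finset.mem_filter] at hw
      simp only [Finset.mem_union, Finset.mem_filter, Finset.mem_biUnion]
      obtain ⟨hwZ, h | (h | ⟨x, hx, h1, h2, h3, h4⟩) | h⟩ := hw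
      · exact Or.inl ⟨(hZm' w hwZ).1, (hZm' z hz).1, (hZm' w hwZ).1, h.2.2.1, h.2.2.2⟩
      · exact Or.inr (Or.inl ⟨(hZm' w hwZ).1, h.2⟩)
      · exact Or.inr (Or.inr (Or.inl ⟨x, ⟨hx, h1, h2⟩, hwZ, h3, h4⟩))
      · exact Or.inr (Or.inr (Or.inr ⟨hwZ, h⟩))
    have h1 := Finset.card_le_card hsub
    have h2 := h1.trans ((Finset.card_union_le _ _).trans (Nat.add_le_add_left
      ((Finset.card_union_le _ _).trans (Nat.add_le_add_left (Finset.card_union_le _ _) _)) _))
    have h2R : ((Z.filter (fun w => HA G Z z w ∨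
      ((HA G A (u z) z ∧ HA G A (u z) w) ∨
        ∃ x ∈ X', HA G A x z ∧ HA G A (β x) z ∧ HA G A x w ∧ HA G A (β x) w) ∨
      r < cod (HA G Z) z w)).card : ℝ) ≤ ((A.filter (fun w => HA G A z w)).card : ℝ) +
        (((A.filter (fun w => HA G A (u z) w)).card : ℝ) +
          ((((X'.filter (fun x => HA G A x z ∧ HA G A (β x) z)).biUnion
            (fun x => Z.filter (fun w => HA G A x w ∧ HA G A (β x) w))).card : ℝ) +
            ((Z.filter (fun w => r < cod (HA G Z) z w)).card : ℝ))) := by
      exact_mod_cast h2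
    have h4 : ((A.filter (fun w => HA G A z w)).card : ℝ) ≤ (N : ℝ) / 400 := by
      have h : 400 * (A.filter (fun w => HA G A z w)).card ≤ N :=
        (Nat.mul_le_mul_left _ (hdgZ z hz)).trans ht
      have h' : (400 : ℝ) * ((A.filter (fun w => HA G A z w)).card : ℝ) ≤ N := by exact_mod_cast h
      linarith
    have h5 : ((A.filter (fun w => HA G A (u z) w)).card : ℝ) ≤ (N : ℝ) / 400 := by
      have h : 400 * (A.filter (fun w => HA G A (u z) w)).card ≤ N := hdgu z (hZm' z hz).1
      have h' : (400 : ℝ) * ((A.filter (fun w => HA G A (u z) w)).card : ℝ) ≤ N := by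
        exact_mod_cast h
      linarith
    have h6 : ((Z.filter (fun w => r < cod (HA G Z) z w)).card : ℝ) ≤ (N : ℝ) / 400 := by
      have h' : (400 : ℝ) * ((Z.filter (fun w => r < cod (HA G Z) z w)).card : ℝ) ≤ N := by
        exact_mod_cast hP0 z hz
      linarith
    have h7 := hT z hz
    linarith
  have hWbd : ∀ z ∈ Z, ((∑ w ∈ Z.filter (fun w => cod (HA G Z) z w ≤ r),
      cod (HA G Z) z w * cod (HA G Z) z w : ℕ) : ℝ) ≤ (N : ℝ) ^ 2 / 400 := by
    intro z hz
    have h : (400 : ℝ) * ((∑ w ∈ Z.filter (fun w => cod (HA G Z) z w ≤ r),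
      cod (HA G Z) z w * cod (HA G Z) z w : ℕ) : ℝ) ≤ (N : ℝ) ^ 2 := by exact_mod_cast hWt z hz
    linarith
  have hnumb : ∀ m : ℕ, 998 * N ≤ 2000 * m + 1000 → 2 ≤ m ∧
      (N : ℝ) / 100 / m + (N : ℝ) ^ 2 / 400 / ((m : ℝ) * ((m : ℝ) - 1)) ≤ 1 / 16 := by
    intro m hm
    have hmR : 998 * (N : ℝ) ≤ 2000 * m + 1000 := by exact_mod_cast hm
    have hm1 : (0.49 : ℝ) * N ≤ (m : ℝ) - 1 := by linarith
    have hm2 : (0 : ℝ) < (m : ℝ) - 1 := by linarith
    have hm3 : (0 : ℝ) < (m : ℝ) := by linarith
    refine ⟨by omega, ?_⟩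
    have e1 : (N : ℝ) / 100 / m ≤ 1 / 49 := by
      rw [div_div, div_le_div_iff₀ (by linarith) (by norm_num)]
      nlinarith
    have e2 : (N : ℝ) ^ 2 / 400 / ((m : ℝ) * ((m : ℝ) - 1)) ≤ 1 / 96 := by
      rw [div_div, div_le_div_iff₀ (mul_pos (by norm_num) (mul_pos hm3 hm2)) (by norm_num)]
      nlinarith [mul_le_mul hm1 hm1 (by positivity) hm2.le]
    norm_num at e1 e2 ⊢
    linarith
  by_cases hcase : k + 1 ≤ Rp.card + Z.card / 2
  · -- the vertices of large degree are not needed
    obtain ⟨hm2, hnum⟩ := hnumb (Z.card / 2) (by omega)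
    exact assemble G A u hu1 hu2 hu3 Z ∅ id hZm' (by simp) (by simp) (by simp) (by simp)
      (by simp) (by simp) (Z.card / 2) r _ _
      (hPbd ∅ id (by intro z _; simp; positivity)) hWbd hm2 hnum
      (by rw [Finset.card_empty]; omega) k (by
        rw [Finset.card_empty]
        change k + 1 ≤ Rp.card + 0 + Z.card / 2
        omega)
  · push Not at hcase
    -- degrees of the vertices of large degree
    have hdgx : ∀ x ∈ A, dg G A x + 1 + k ≤ A.card := by
      intro x hx
      obtain ⟨Nx, hNx1, hNx2⟩ := hdeg x hx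
      have hd1 : Disjoint (A.filter (fun w => HA G A x w)) ({x} ∪ Nx) := by
        rw [Finset.disjoint_left]
        intro w hw hw'
        rw [Finset.mem_filter] at hw
        rw [Finset.mem_union, Finset.mem_singleton] at hw'
        rcases hw' with h | h
        · exact hw.2.2.2.1 h.symm
        · exact hw.2.2.2.2 (hNx2 w h).2
      have hd2 : Disjoint ({x} : Finset V) Nx := by
        rw [Finset.disjoint_singleton_left]
        intro h
        exact G.irrefl (hNx2 x h).2
      have h1 : (A.filter (fun w => HA G A x w)) ∪ ({x} ∪ Nx) ⊆ A := by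
        intro w hw
        rw [Finset.mem_union, Finset.mem_union, Finset.mem_singleton, Finset.mem_filter] at hw
        rcases hw with h | h | h
        · exact h.1
        · rw [h]
          exact hx
        · exact (hNx2 w h).1
      have h2 := Finset.card_le_card h1
      rw [Finset.card_union_of_disjoint hd1, Finset.card_union_of_disjoint hd2,
        Finset.card_singleton] at h2
      have h3 : dg G A x = (A.filter (fun w => HA G A x w)).card := rfl
      omega
    have hLx : ∀ x ∈ X, N ≤ 4 * (Z.filter (fun b => G.Adj x b ∧ ¬ HA G A (u x) b)).card := by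
      intro x hx
      obtain ⟨hxA, hxu, hxZ⟩ := hXm x hx
      have hsub : Z ⊆ (Z.filter (fun b => G.Adj x b ∧ ¬ HA G A (u x) b)) ∪
          ((A.filter (fun w => HA G A x w)) ∪ (A.filter (fun w => HA G A (u x) w))) := by
        intro b hb
        rw [Finset.mem_union, Finset.mem_union, Finset.mem_filter, Finset.mem_filter,
          Finset.mem_filter]
        have hbA := (hZm' b hb).1
        by_cases h1 : HA G A (u x) b
        · exact Or.inr (Or.inr ⟨hbA, h1⟩)
        · by_cases h2 : G.Adj x b
          · exact Or.inl ⟨hb, h2, h1⟩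
          · exact Or.inr (Or.inl ⟨hbA, hxA, hbA, fun h => hxZ (h ▸ hb), h2⟩)
      have h1 := (Finset.card_le_card hsub).trans ((Finset.card_union_le _ _).trans
        (Nat.add_le_add_left (Finset.card_union_le _ _) _))
      have h2 := hdgx x hxA
      have h3 := hdgu x hxA
      have h4 : dg G A x = (A.filter (fun w => HA G A x w)).card := rfl
      have h5 : dg G A (u x) = (A.filter (fun w => HA G A (u x) w)).card := rfl
      rw [← h4, ← h5] at h1
      omega
    have hX400 : (1000 : ℝ) * X.card ≤ N := by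
      have : 1000 * X.card ≤ N := by omega
      exact_mod_cast this
    have hsR : (0 : ℝ) < s := by exact_mod_cast hs0
    have hNpos : (0 : ℝ) < N := by linarith
    have hYne : Y.Nonempty := by
      rw [← Finset.card_pos, ← hN]
      omega
    have hXY : X ⊆ Y := Finset.inter_subset_left
    have hYA : Y ⊆ A := Finset.filter_subset _ _
    obtain ⟨β, hβ1, hβ2, hβ5, hβ6⟩ := greedy (HA G A) (fun v w h => h.symm) Z X Y hXY hYne
      (fun x => Z.filter (fun b => G.Adj x b ∧ ¬ HA G A (u x) b))
      (fun x _ => Finset.filter_subset _ _) (cZ G A Z) (fun x _ b _ => rfl)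
      (1 / (s : ℝ)) ((N : ℝ) / 8) ((N : ℝ) / 400) (by positivity) (by positivity)
      (by
        intro x hx b hb
        have h1 : (cZ G A Z x b : ℝ) ≤ s := by
          exact_mod_cast hs x (hXm x hx).1 (hXU hx) b (Finset.mem_filter.1 hb).1
        rw [one_div, inv_mul_le_iff₀ hsR, mul_one]
        exact h1)
      (by
        intro x hx
        have h : (N : ℝ) ≤ 4 * ((Z.filter (fun b => G.Adj x b ∧ ¬ HA G A (u x) b)).card : ℝ) := by
          exact_mod_cast hLx x hx
        linarith)
      (fun x z => 16 / ((s : ℝ) * N) * (if HA G A x z then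
        ∑ b ∈ Z.filter (fun b => HA G A b z), (cZ G A Z x b : ℝ) else 0))
      (by
        intro x z
        apply mul_nonneg (by positivity)
        split_ifs <;> positivity)
      (by
        intro x hx z hz
        have e1 : 2 * (1 / (s : ℝ)) / ((N : ℝ) / 8) = 16 / ((s : ℝ) * N) := by
          field_simp
          norm_num
        rw [e1]
        apply mul_le_mul_of_nonneg_left _ (by positivity)
        by_cases h : HA G A x z
        · rw [if_pos h]
          apply Finset.sum_le_sum_of_subset_of_nonneg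
          · intro b hb
            rw [Finset.mem_filter, Finset.mem_filter] at hb
            rw [Finset.mem_filter]
            exact ⟨hb.1.1, hb.2.2⟩
          · intro b _ _
            positivity
        · rw [if_neg h]
          apply le_of_eq
          apply Finset.sum_eq_zero
          intro b hb
          rw [Finset.mem_filter] at hb
          exact absurd hb.2.1 h)
      (by
        intro z hz
        rw [← Finset.mul_sum, ← Finset.sum_filter, ← hN]
        have hMz := hM z (hYA hz)
        have hMz' : (∑ x ∈ X.filter (fun x => HA G A x z),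
            ∑ b ∈ Z.filter (fun b => HA G A b z), (cZ G A Z x b : ℝ)) ≤ M := by
          exact_mod_cast hMz
        have e1 : Real.log N + 16 / ((s : ℝ) * N) * (∑ x ∈ X.filter (fun x => HA G A x z),
            ∑ b ∈ Z.filter (fun b => HA G A b z), (cZ G A Z x b : ℝ)) ≤
            Real.log N + 16 / ((s : ℝ) * N) * M := by
          have := mul_le_mul_of_nonneg_left hMz' (by positivity : 0 ≤ 16 / ((s : ℝ) * N))
          linarith
        refine e1.trans ?_
        have e2 : Real.log N + 16 / ((s : ℝ) * N) * M =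
            1 / (s : ℝ) * ((s : ℝ) * Real.log N + 16 * M / N) := by
          field_simp
        rw [e2]
        exact mul_le_mul_of_nonneg_left hnumM (by positivity))
    obtain ⟨hm2, hnum⟩ := hnumb ((Z.card - X.card) / 2) (by omega)
    refine assemble G A u hu1 hu2 hu3 Z X β hZm' hXm
      (fun x hx => (Finset.mem_filter.1 (hβ1 x hx)).1) hβ2
      (fun x hx => (Finset.mem_filter.1 (hβ1 x hx)).2.1) ?_ hβ5
      ((Z.card - X.card) / 2) r _ _
      (hPbd X β ?_) hWbd hm2 hnum (by omega) k (by
        change k + 1 ≤ Rp.card + X.card + (Z.card - X.card) / 2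
        omega)
    · intro x hx
      have h := Finset.mem_filter.1 (hβ1 x hx)
      right
      by_contra hadj
      apply h.2.2
      refine ⟨hu1 x (hXm x hx).1, (hZm' _ h.1).1, ?_, hadj⟩
      intro h'
      apply (hZm' _ h.1).2
      rw [← h']
      exact hu2 x (hXm x hx).1
    · intro z hz
      have hzY : z ∈ Y := (hYm z).2 (hZm' z hz)
      refine le_trans ?_ (hβ6 z hzY)
      have : ((X.filter (fun x => HA G A x z ∧ HA G A (β x) z)).biUnion
          (fun x => Z.filter (fun w => HA G A x w ∧ HA G A (β x) w))).card ≤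
          TT (HA G A) (cZ G A Z) X β z := by
        refine Finset.card_biUnion_le.trans ?_
        unfold TT cZ
        exact le_rfl
      exact_mod_cast this

end Pool.Agent.H66.HW
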