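import Mathlib
import Pool.Agent.H66.HW.Main3
import Pool.Agent.H66.HW.Comnon

/-!
Many vertices with many common non-neighbours in a critical counterexample to Hadwiger's
conjecture (helper66).
-/

set_option autoImplicit false

namespace Pool.Agent.H66.HW

open SimpleGraph Finset Pool.Agent.Lib.H80

variable {V : Type*}

open Classical in
/-- Counting common neighbours by the third vertex. -/
lemma triple_sum (H : V → V → Prop) (P B Z : Finset V) :
    ∑ x ∈ P, ∑ b ∈ B, (Z.filter (fun w => H x w ∧ H b w)).card =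
      ∑ w ∈ Z, (P.filter (fun x => H x w)).card * (B.filter (fun b => H b w)).card := by
  have h1 : ∀ x b, (Z.filter (fun w => H x w ∧ H b w)).card =
      ∑ w ∈ Z, (if H x w then 1 else 0) * (if H b w then 1 else 0) := by
    intro x b
    rw [Finset.card_filter]
    apply Finset.sum_congr rfl
    intro w _
    by_cases h : H x w <;> by_cases h' : H b w <;> simp [h, h']
  calc ∑ x ∈ P, ∑ b ∈ B, (Z.filter (fun w => H x w ∧ H b w)).card
      = ∑ x ∈ P, ∑ b ∈ B, ∑ w ∈ Z, (if H x w then 1 else 0) * (if H b w then 1 else 0) := by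
        simp only [h1]
    _ = ∑ x ∈ P, ∑ w ∈ Z, ∑ b ∈ B, (if H x w then 1 else 0) * (if H b w then 1 else 0) := by
        apply Finset.sum_congr rfl
        intro x _
        rw [Finset.sum_comm]
    _ = ∑ w ∈ Z, ∑ x ∈ P, ∑ b ∈ B, (if H x w then 1 else 0) * (if H b w then 1 else 0) := by
        rw [Finset.sum_comm]
    _ = ∑ w ∈ Z, (P.filter (fun x => H x w)).card * (B.filter (fun b => H b w)).card := by
        apply Finset.sum_congr rfl
        intro w _
        rw [Finset.card_filter, Finset.card_filter, Finset.sum_mul_sum]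

lemma log_le_two_sqrt {x : ℝ} (hx : 0 < x) : Real.log x ≤ 2 * Real.sqrt x := by
  have hs : 0 < Real.sqrt x := Real.sqrt_pos.2 hx
  have h1 : Real.log x = 2 * Real.log (Real.sqrt x) := by
    rw [Real.log_sqrt hx.le]
    ring
  have h2 := Real.log_le_sub_one_of_pos hs
  linarith

open Classical in
/-- Many vertices have a partner with many common non-neighbours. -/
theorem comnon2 [Fintype V] (G : SimpleGraph V) {k : ℕ}
    (hk : ¬ G.Colorable k) (hK : ¬ Model G Set.univ (Fin (k + 1))) :
    ∃ (S : Finset V) (j : ℕ), ¬ ColOn G (S : Set V) j ∧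
      (∀ t, Model G (S : Set V) (Fin (j + 1 - t)) → Model G Set.univ (Fin (k + 1 - t))) ∧
      S.card ≤ 4000 * (S.filter (fun v => ∃ w ∈ S, v ≠ w ∧ S.card < 10000000 *
        ((S.filter (fun z => (v ≠ z ∧ ¬ G.Adj v z) ∧ w ≠ z ∧ ¬ G.Adj w z)).card + 1) ^ 2)).card := by
  obtain ⟨A, u, Q, j, hu1, hu2, hu3, hcard, hdeg, hmin, hQA, hQm, hQc, hcol, hdef⟩ :=
    core2 G hk hK
  refine ⟨Q, j, hcol, hdef, ?_⟩
  set c : V × V → ℕ := fun p =>
    (Q.filter (fun z => (p.1 ≠ z ∧ ¬ G.Adj p.1 z) ∧ p.2 ≠ z ∧ ¬ G.Adj p.2 z)).card with hc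
  by_contra hcon
  push Not at hcon
  obtain ⟨B, hB⟩ : ∃ B, B = Q.filter (fun v => ∃ w ∈ Q, v ≠ w ∧
    Q.card < 10000000 * (c (v, w) + 1) ^ 2) := ⟨_, rfl⟩
  have hBcard : 4000 * B.card < Q.card := by
    rw [hB]
    exact hcon
  have hBQ : B ⊆ Q := by
    rw [hB]
    exact Finset.filter_subset _ _
  obtain ⟨N, hN⟩ : ∃ N, N = (A.filter (fun v => u v ≠ v)).card := ⟨_, rfl⟩
  rw [← hN] at hQc
  -- a vertex outside `B`, and a second vertex
  obtain ⟨v0, hv0, hv0B⟩ : ∃ v ∈ Q, v ∉ B := by
    by_contra hno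
    push Not at hno
    have := Finset.card_le_card hno
    omega
  have hQne : ∃ w ∈ Q, v0 ≠ w := by
    by_contra hno
    push Not at hno
    have hclA : ∀ v ∈ A, ∀ w ∈ A, v ≠ w → G.Adj v w := by
      intro v hv w hw hvw
      by_contra hadj
      have h1 := hno v (hQm v hv w hw hvw hadj)
      have h2 := hno w (hQm w hw v hv hvw.symm (fun h => hadj h.symm))
      exact hvw (h1.symm.trans h2)
    apply hK
    have hcl : Model G Set.univ A := model_clique A hclA (fun _ _ => trivial)
    refine hcl.of_card ?_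
    rw [Fintype.card_fin, Fintype.card_coe]
    have : (A.image u).card ≤ A.card := Finset.card_image_le
    omega
  obtain ⟨w0, hw0, hvw0⟩ := hQne
  -- the largest number of common non-neighbours
  obtain ⟨p, hp, hpmax⟩ := Finset.exists_max_image (((Q \ B) ×ˢ Q).filter (fun p => p.1 ≠ p.2)) c
    ⟨(v0, w0), Finset.mem_filter.2 ⟨Finset.mem_product.2
      ⟨Finset.mem_sdiff.2 ⟨hv0, hv0B⟩, hw0⟩, hvw0⟩⟩
  rw [Finset.mem_filter, Finset.mem_product, Finset.mem_sdiff] at hp
  obtain ⟨s, hs⟩ : ∃ s, s = c p + 1 := ⟨_, rfl⟩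
  have hps : 10000000 * s ^ 2 ≤ Q.card := by
    by_contra hlt
    push Not at hlt
    apply hp.1.1.2
    rw [hB, Finset.mem_filter]
    refine ⟨hp.1.1.1, p.2, hp.1.2, hp.2, ?_⟩
    rw [hs] at hlt
    exact hlt
  have hcs : ∀ v ∈ Q, v ∉ B → ∀ w ∈ Q, v ≠ w → c (v, w) ≤ s := by
    intro v hv hvB w hw hvw
    have := hpmax (v, w) (Finset.mem_filter.2 ⟨Finset.mem_product.2
      ⟨Finset.mem_sdiff.2 ⟨hv, hvB⟩, hw⟩, hvw⟩)
    omega
  have hs0 : 0 < s := by omega
  have hs1 : s ≤ s ^ 2 := Nat.le_self_pow (by norm_num) _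
  have hNs : 5000000 * s ^ 2 ≤ N := by omega
  -- common non-neighbours in `A`
  have hcA : ∀ v ∈ A, v ∉ B → ∀ w ∈ A, v ≠ w →
      (A.filter (fun z => HA G A v z ∧ HA G A w z)).card ≤ s := by
    intro v hv hvB w hw hvw
    by_cases hne : (A.filter (fun z => HA G A v z ∧ HA G A w z)).Nonempty
    · obtain ⟨z, hz⟩ := hne
      rw [Finset.mem_filter] at hz
      have hvQ : v ∈ Q := hQm v hv z hz.1 hz.2.1.2.2.1 hz.2.1.2.2.2
      have hwQ : w ∈ Q := hQm w hw z hz.1 hz.2.2.2.2.1 hz.2.2.2.2.2
      refine le_trans (Finset.card_le_card ?_) (hcs v hvQ hvB w hwQ hvw)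
      intro y hy
      rw [Finset.mem_filter] at hy ⊢
      exact ⟨hQm y hy.1 v hv hy.2.1.2.2.1.symm (fun h => hy.2.1.2.2.2 h.symm),
        hy.2.1.2.2, hy.2.2.2.2⟩
    · rw [Finset.not_nonempty_iff_eq_empty] at hne
      rw [hne, Finset.card_empty]
      exact Nat.zero_le _
  obtain ⟨t, ht⟩ : ∃ t, t = N / 400 := ⟨_, rfl⟩
  obtain ⟨D, hD⟩ : ∃ D, D = (A.filter (fun v => t < dg G A v)) \ B := ⟨_, rfl⟩
  obtain ⟨U, hU⟩ : ∃ U, U = B ∪ D := ⟨_, rfl⟩
  obtain ⟨Z, hZ⟩ : ∃ Z, Z = (A.filter (fun v => u v ≠ v)) \ U := ⟨_, rfl⟩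
  have hZA : Z ⊆ A := by
    intro z hz
    rw [hZ, Finset.mem_sdiff, Finset.mem_filter] at hz
    exact hz.1.1
  have hZU : ∀ z ∈ Z, z ∉ U := by
    intro z hz
    rw [hZ, Finset.mem_sdiff] at hz
    exact hz.2
  have hZB : ∀ z ∈ Z, z ∉ B := by
    intro z hz h
    exact hZU z hz (by rw [hU]; exact Finset.mem_union_left _ h)
  have hZN : Z.card ≤ N := by
    rw [hZ, hN]
    exact Finset.card_le_card Finset.sdiff_subset
  have hUA : ∀ v ∈ A, t < dg G A v → v ∈ U := by
    intro v hv hvt
    rw [hU, Finset.mem_union]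
    by_cases hvB : v ∈ B
    · exact Or.inl hvB
    · right
      rw [hD, Finset.mem_sdiff, Finset.mem_filter]
      exact ⟨⟨hv, hvt⟩, hvB⟩
  have hdgZ : ∀ z ∈ Z, dg G A z ≤ t := by
    intro z hz
    by_contra hlt
    push Not at hlt
    exact hZU z hz (hUA z (hZA hz) hlt)
  have hDc : D.card ≤ 1600 := by
    have hDm : ∀ x ∈ D, (x ∈ A ∧ t < dg G A x) ∧ x ∉ B := by
      intro x hx
      rw [hD, Finset.mem_sdiff, Finset.mem_filter] at hx
      exact hx
    refine few_large D Q (fun v => A.filter (fun w => HA G A v w)) N s 1600 hQc ?_ ?_ ?_ rfl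
      (by omega)
    · intro x hx w hw
      rw [Finset.mem_filter] at hw
      exact hQm w hw.1 x hw.2.1 hw.2.2.2.1.symm (fun h => hw.2.2.2.2 h.symm)
    · intro x hx
      have h1 : t < (A.filter (fun w => HA G A x w)).card := (hDm x hx).1.2
      show N < 400 * (A.filter (fun w => HA G A x w)).card
      omega
    · intro x hx y hy hxy
      have : A.filter (fun w => HA G A x w) ∩ A.filter (fun w => HA G A y w) =
          A.filter (fun z => HA G A x z ∧ HA G A y z) := by
        ext z
        simp only [Finset.mem_inter, Finset.mem_filter]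
        tauto
      rw [this]
      exact hcA x (hDm x hx).1.1 (hDm x hx).2 y (hDm y hy).1.1 hxy
  have hUc : 1000 * U.card ≤ N := by
    have : U.card ≤ B.card + D.card := by
      rw [hU]
      exact Finset.card_union_le _ _
    omega
  have hcod : ∀ z ∈ Z, ∀ w ∈ Z, z ≠ w → cod (HA G Z) z w ≤ s := by
    intro z hz w hw hzw
    refine le_trans ?_ (hcA z (hZA hz) (hZB z hz) w (hZA hw) hzw)
    unfold cod
    apply Finset.card_le_card
    intro y hy
    rw [Finset.mem_filter] at hy ⊢
    exact ⟨hZA hy.2.1.2.1, ⟨hZA hz, hZA hy.2.1.2.1, hy.2.1.2.2⟩,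
      ⟨hZA hw, hZA hy.2.1.2.1, hy.2.2.2.2⟩⟩
  -- the numbers
  have hnum : (s : ℝ) * Real.log N + 16 * ((N * (s * s) + U.card * t : ℕ) : ℝ) / N ≤ N / 400 := by
    have hNpos : (0 : ℝ) < N := by
      have : 0 < N := by omega
      exact_mod_cast this
    have hNsR : 5000000 * (s : ℝ) ^ 2 ≤ N := by exact_mod_cast hNs
    have hq := Real.sqrt_pos.2 hNpos
    have hq2 := Real.sq_sqrt hNpos.le
    have hsq : (s : ℝ) ≤ Real.sqrt N / 2000 := by
      by_contra hlt
      push Not at hlt
      have h0 : 0 ≤ Real.sqrt N / 2000 := by positivity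
      have : (Real.sqrt N / 2000) ^ 2 < (s : ℝ) ^ 2 := pow_lt_pow_left₀ hlt h0 (by norm_num)
      rw [div_pow, hq2] at this
      norm_num at this
      linarith
    have h1 : (s : ℝ) * Real.log N ≤ N / 1000 := by
      calc (s : ℝ) * Real.log N ≤ (Real.sqrt N / 2000) * (2 * Real.sqrt N) := by
            apply mul_le_mul hsq (log_le_two_sqrt hNpos) _ (by positivity)
            apply Real.log_nonneg
            have : 1 ≤ N := by omega
            exact_mod_cast this
        _ = (Real.sqrt N) ^ 2 / 1000 := by ring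
        _ = N / 1000 := by rw [hq2]
    have h2 : ((N * (s * s) + U.card * t : ℕ) : ℝ) ≤ N * (N / 400000) + N * (N / 5000000) := by
      have e1 : (1000 : ℝ) * U.card ≤ N := by exact_mod_cast hUc
      have e2 : (400 : ℝ) * t ≤ N := by
        have : 400 * t ≤ N := by omega
        exact_mod_cast this
      have e3 : (U.card : ℝ) * t ≤ (N / 1000) * (N / 400) := by
        apply mul_le_mul
        · linarith
        · linarith
        · positivity
        · positivity
      push_cast
      nlinarith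
    have h3 : 16 * ((N * (s * s) + U.card * t : ℕ) : ℝ) / N ≤ 16 * (N / 400000 + N / 5000000) := by
      rw [div_le_iff₀ hNpos]
      linarith
    linarith
  apply hK
  refine main3 G k A u hu1 hu2 hu3 hcard hdeg hmin t s s N (N * (s * s) + U.card * t) hN (by omega)
    U hUA (by omega) hUc hs0 Z hZ ?_ ?_ hnum ?_ ?_
  · intro x hxA hxU b hb
    refine le_trans (Finset.card_le_card ?_) (hcA b (hZA hb) (hZB b hb) x hxA
      (fun h => hZU b hb (h ▸ hxU)))
    intro w hw
    rw [Finset.mem_filter] at hw ⊢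
    exact ⟨hZA hw.1, hw.2.2, hw.2.1⟩
  · intro z hz
    unfold cZ
    rw [triple_sum (HA G A)]
    have hterm : ∀ w ∈ Z, w ≠ z →
        ((((A.filter (fun v => u v ≠ v)) ∩ U).filter (fun x => HA G A x z)).filter
          (fun x => HA G A x w)).card *
        ((Z.filter (fun b => HA G A b z)).filter (fun b => HA G A b w)).card ≤ s * s := by
      intro w hw hwz
      have h0 := hcA w (hZA hw) (hZB w hw) z hz hwz
      apply Nat.mul_le_mul
      · refine le_trans (Finset.card_le_card ?_) h0
        intro x hx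
        rw [Finset.mem_filter, Finset.mem_filter] at hx
        rw [Finset.mem_filter]
        exact ⟨hx.2.1, hx.2.symm, hx.1.2.symm⟩
      · refine le_trans (Finset.card_le_card ?_) h0
        intro x hx
        rw [Finset.mem_filter, Finset.mem_filter] at hx
        rw [Finset.mem_filter]
        exact ⟨hx.2.1, hx.2.symm, hx.1.2.symm⟩
    have hsumerase : ∑ w ∈ Z.erase z,
        ((((A.filter (fun v => u v ≠ v)) ∩ U).filter (fun x => HA G A x z)).filter
          (fun x => HA G A x w)).card *
        ((Z.filter (fun b => HA G A b z)).filter (fun b => HA G A b w)).card ≤ N * (s * s) := by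
      calc _ ≤ ∑ _w ∈ Z.erase z, s * s := by
            apply Finset.sum_le_sum
            intro w hw
            rw [Finset.mem_erase] at hw
            exact hterm w hw.2 hw.1
        _ = (Z.erase z).card * (s * s) := by rw [Finset.sum_const, smul_eq_mul]
        _ ≤ N * (s * s) := Nat.mul_le_mul_right _
            ((Finset.card_le_card (Finset.erase_subset _ _)).trans hZN)
    by_cases hzZ : z ∈ Z
    · rw [← Finset.add_sum_erase _ _ hzZ, add_comm]
      apply Nat.add_le_add hsumerase
      apply Nat.mul_le_mul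
      · refine (Finset.card_le_card (Finset.filter_subset _ _)).trans
          ((Finset.card_le_card (Finset.filter_subset _ _)).trans ?_)
        exact Finset.card_le_card Finset.inter_subset_right
      · refine le_trans (Finset.card_le_card ?_) (hdgZ z hzZ)
        intro x hx
        rw [Finset.mem_filter, Finset.mem_filter] at hx
        rw [Finset.mem_filter]
        exact ⟨hx.2.1, hx.2.symm⟩
    · rw [Finset.erase_eq_of_notMem hzZ] at hsumerase
      exact hsumerase.trans (Nat.le_add_right _ _)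
  · intro z hz
    have h1 : (Z.filter (fun w => s < cod (HA G Z) z w)).card ≤ ({z} : Finset V).card := by
      apply Finset.card_le_card
      intro w hw
      rw [Finset.mem_filter] at hw
      rw [Finset.mem_singleton]
      by_contra hne
      have := hcod z hz w hw.1 (fun h => hne h.symm)
      omega
    rw [Finset.card_singleton] at h1
    omega
  · intro z hz
    have h1 : ∑ w ∈ Z.filter (fun w => cod (HA G Z) z w ≤ s),
        cod (HA G Z) z w * cod (HA G Z) z w ≤ N * (s * s) := by
      calc ∑ w ∈ Z.filter (fun w => cod (HA G Z) z w ≤ s),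
            cod (HA G Z) z w * cod (HA G Z) z w
          ≤ ∑ _w ∈ Z.filter (fun w => cod (HA G Z) z w ≤ s), s * s := by
            apply Finset.sum_le_sum
            intro w hw
            exact Nat.mul_le_mul (Finset.mem_filter.1 hw).2 (Finset.mem_filter.1 hw).2
        _ = (Z.filter (fun w => cod (HA G Z) z w ≤ s)).card * (s * s) := by
            rw [Finset.sum_const, smul_eq_mul]
        _ ≤ N * (s * s) := Nat.mul_le_mul_right _
            ((Finset.card_le_card (Finset.filter_subset _ _)).trans hZN)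
    have h2 : 400 * (s * s) ≤ N := by
      rw [← sq]
      omega
    calc 400 * ∑ w ∈ Z.filter (fun w => cod (HA G Z) z w ≤ s),
          cod (HA G Z) z w * cod (HA G Z) z w ≤ 400 * (N * (s * s)) := Nat.mul_le_mul_left _ h1
      _ = N * (400 * (s * s)) := by ring
      _ ≤ N * N := Nat.mul_le_mul_left _ h2
      _ = N ^ 2 := by ring

end Pool.Agent.H66.HW
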