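import Mathlib
import Pool.Agent.H66.HW.Final

/-!
Every counterexample to Hadwiger's conjecture contains one with a vertex of many non-neighbours
(helper66).
-/

set_option autoImplicit false

namespace Pool.Agent.H66.HW

open SimpleGraph Finset Pool.Agent.Lib.H80

variable {V : Type*}

/-- Passing to an induced subgraph. -/
lemma model_induce {G : SimpleGraph V} {S : Set V} {T : Set S} {ι : Type*}
    (h : Model G (Subtype.val '' T) ι) : Model (G.induce S) T ι := by
  obtain ⟨f, h1, h2, h3, h4⟩ := h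
  refine ⟨fun i => {x | x.1 ∈ f i}, ?_, ?_, ?_, ?_⟩
  · intro i x hx
    obtain ⟨y, hy, hyx⟩ := h1 i hx
    have : y = x := Subtype.ext hyx
    exact this ▸ hy
  · intro i
    have hS : ∀ x ∈ f i, x ∈ S := by
      intro x hx
      obtain ⟨y, -, rfl⟩ := h1 i hx
      exact y.2
    let φ : G.induce (f i) →g (G.induce S).induce {x : S | x.1 ∈ f i} :=
      { toFun := fun x => ⟨⟨x.1, hS x.1 x.2⟩, x.2⟩
        map_rel' := by
          intro x y h
          exact h }
    refine (h2 i).map φ ?_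
    rintro ⟨⟨y, hy⟩, hx⟩
    exact ⟨⟨y, hx⟩, rfl⟩
  · intro i j hij
    rw [Set.disjoint_left]
    intro x hx hx'
    exact Set.disjoint_left.1 (h3 i j hij) hx hx'
  · intro i j hij
    obtain ⟨u, hu, v, hv, huv⟩ := h4 i j hij
    obtain ⟨u', -, rfl⟩ := h1 i hu
    obtain ⟨v', -, rfl⟩ := h1 j hv
    exact ⟨u', hu, v', hv, huv⟩

/-- Every counterexample contains one with at least the same deficiency, in which some vertex has
many non-neighbours. -/
theorem core [Fintype V] [DecidableEq V] (G : SimpleGraph V) {k : ℕ}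
    (hk : ¬ G.Colorable k) (hK : ¬ Model G Set.univ (Fin (k + 1))) :
    ∃ (S : Finset V) (j : ℕ), ¬ ColOn G (S : Set V) j ∧
      (∀ t, Model G (S : Set V) (Fin (j + 1 - t)) → Model G Set.univ (Fin (k + 1 - t))) ∧
      ∃ v ∈ S, S.card ^ 3 < 2097152 * (Set.ncard {w | w ∈ S ∧ v ≠ w ∧ ¬ G.Adj v w}) ^ 4 := by
  classical
  have hne : (univ.filter (fun S : Finset V => ∃ j, ¬ ColOn G (S : Set V) j ∧
      ∀ t, Model G (S : Set V) (Fin (j + 1 - t)) →
        Model G Set.univ (Fin (k + 1 - t)))).Nonempty := by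
    refine ⟨univ, Finset.mem_filter.2 ⟨Finset.mem_univ _, k, ?_, ?_⟩⟩
    · rw [Finset.coe_univ, colOn_univ]
      exact hk
    · intro t ht
      rwa [Finset.coe_univ] at ht
  obtain ⟨S, hS, hSmin⟩ := Finset.exists_min_image _ (fun S : Finset V => S.card) hne
  simp only [Finset.mem_filter, Finset.mem_univ, true_and] at hS hSmin
  obtain ⟨j, hj1, hj2⟩ := hS
  refine ⟨S, j, hj1, hj2, ?_⟩
  -- the largest number of non-neighbours in `S`
  have hSne : S.Nonempty := by
    rw [Finset.nonempty_iff_ne_empty]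
    rintro rfl
    apply hj1
    refine ⟨fun _ => 0, ?_, ?_⟩
    · intro v hv
      simp at hv
    · intro v hv
      simp at hv
  obtain ⟨v, hvS, hvmax⟩ := Finset.exists_max_image S
    (fun v => Set.ncard {w | w ∈ S ∧ v ≠ w ∧ ¬ G.Adj v w}) hSne
  refine ⟨v, hvS, ?_⟩
  set d := Set.ncard {w | w ∈ S ∧ v ≠ w ∧ ¬ G.Adj v w} with hd
  set G' := G.induce (S : Set V) with hG'
  have hd' : ∀ x : ↥(S : Set V), Set.ncard {y : ↥(S : Set V) | x ≠ y ∧ ¬ G'.Adj x y} ≤ d := by
    intro x
    refine le_trans ?_ (hvmax x.1 x.2)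
    rw [← Set.ncard_image_of_injective _ (Subtype.val_injective (p := fun z => z ∈ (S : Set V)))]
    apply Set.ncard_le_ncard _ (Set.toFinite _)
    rintro _ ⟨y, ⟨h1, h2⟩, rfl⟩
    exact ⟨y.2, fun h => h1 (Subtype.ext h), h2⟩
  have hk' : ¬ G'.Colorable j := fun h => hj1 (colOn_iff_induce.2 h)
  have hlift : ∀ m, Model G' Set.univ (Fin m) → Model G (S : Set V) (Fin m) := fun m h =>
    model_of_hasK_induce h.hasK
  have hK' : ¬ Model G' Set.univ (Fin (j + 1)) := fun h => hK (hj2 0 (hlift _ h))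
  obtain ⟨T, i, hT1, hT2, hT3⟩ := small_counterexample G' hd' hk' hK'
  set T' : Finset V := T.map ⟨Subtype.val, Subtype.val_injective⟩ with hT'
  have hT'coe : (T' : Set V) = Subtype.val '' (T : Set ↥(S : Set V)) := by
    rw [hT', Finset.coe_map]
    rfl
  have hmem := hSmin T' ⟨i, ?_, ?_⟩
  · rw [hT', Finset.card_map] at hmem
    exact lt_of_le_of_lt (Nat.pow_le_pow_left hmem 3) hT1
  · rintro ⟨c, c1, c2⟩
    apply hT2
    refine ⟨fun x => c x.1, ?_, ?_⟩
    · intro x hx
      apply c1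
      rw [hT'coe]
      exact ⟨x, hx, rfl⟩
    · intro x hx y hy hxy
      apply c2 x.1 _ y.1 _ hxy
      · rw [hT'coe]
        exact ⟨x, hx, rfl⟩
      · rw [hT'coe]
        exact ⟨y, hy, rfl⟩
  · intro t ht
    rw [hT'coe] at ht
    exact hj2 t (hlift _ (hT3 t (model_induce ht)))

end Pool.Agent.H66.HW
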