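import Mathlib
import Pool.Agent.H66.HW.Comnon2

/-!
The degree sequence of the complement of a critical counterexample to Hadwiger's conjecture, second
version (helper66).
-/

set_option autoImplicit false

namespace Pool.Agent.H66.HW

open SimpleGraph Finset Pool.Agent.Lib.H80

variable {V : Type*}

lemma t_log_le {t N : ℕ} (hN : 0 < N) (h : 1000000000000000 * t ^ 4 < 8 * N ^ 3) :
    (t : ℝ) * Real.log N ≤ N / 800 := by
  have hNpos : (0 : ℝ) < N := by exact_mod_cast hN
  have hR : 1000000000000000 * (t : ℝ) ^ 4 < 8 * (N : ℝ) ^ 3 := by exact_mod_cast h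
  have hq1 := Real.sqrt_pos.2 hNpos
  have hq2 := Real.sq_sqrt hNpos.le
  set q := Real.sqrt (Real.sqrt N) with hq
  have hq3 : 0 < q := Real.sqrt_pos.2 hq1
  have hq4 : q ^ 2 = Real.sqrt N := Real.sq_sqrt hq1.le
  have hq5 : q ^ 4 = (N : ℝ) := by
    have e : q ^ 4 = (q ^ 2) ^ 2 := by ring
    rw [e, hq4, hq2]
  have hlog : Real.log N ≤ 4 * q := by
    have h1 : Real.log N = 4 * Real.log q := by
      rw [← hq5, Real.log_pow]
      norm_num
    have h2 := Real.log_le_sub_one_of_pos hq3
    linarith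
  have ht : (t : ℝ) ≤ q ^ 3 / 3300 := by
    by_contra hlt
    push Not at hlt
    have h0 : 0 ≤ q ^ 3 / 3300 := by positivity
    have h1 : (q ^ 3 / 3300) ^ 4 < (t : ℝ) ^ 4 := pow_lt_pow_left₀ hlt h0 (by norm_num)
    have h2 : (q ^ 3 / 3300) ^ 4 = (N : ℝ) ^ 3 / 3300 ^ 4 := by
      rw [← hq5]
      ring
    rw [h2] at h1
    have h3 : (0 : ℝ) < (N : ℝ) ^ 3 := by positivity
    norm_num at h1
    nlinarith
  calc (t : ℝ) * Real.log N ≤ (q ^ 3 / 3300) * (4 * q) := by
        apply mul_le_mul ht hlog _ (by positivity)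
        apply Real.log_nonneg
        exact_mod_cast hN
    _ = q ^ 4 * 4 / 3300 := by ring
    _ = N * 4 / 3300 := by rw [hq5]
    _ ≤ N / 800 := by linarith

open Classical in
/-- The degree sequence of the complement of a critical counterexample. -/
theorem degseq2 [Fintype V] (G : SimpleGraph V) {k : ℕ}
    (hk : ¬ G.Colorable k) (hK : ¬ Model G Set.univ (Fin (k + 1))) :
    ∃ (S : Finset V) (j : ℕ), ¬ ColOn G (S : Set V) j ∧
      (∀ t, Model G (S : Set V) (Fin (j + 1 - t)) → Model G Set.univ (Fin (k + 1 - t))) ∧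
      ∀ t, 1 ≤ t → 1000000000000000 * t ^ 4 < S.card ^ 3 →
        S.card ≤ 2000 * (S.filter (fun v => t <
          (S.filter (fun w => v ≠ w ∧ ¬ G.Adj v w)).card)).card ∨
        (S.card < 800 * t ^ 2 ∧ S.card ^ 2 ≤ 60000 * (t *
          ∑ v ∈ S.filter (fun v => t < (S.filter (fun w => v ≠ w ∧ ¬ G.Adj v w)).card),
            (S.filter (fun w => v ≠ w ∧ ¬ G.Adj v w)).card)) := by
  obtain ⟨A, u, Q, j, hu1, hu2, hu3, hcard, hdeg, hmin, hQA, hQm, hQc, hcol, hdef⟩ :=
    core2 G hk hK
  refine ⟨Q, j, hcol, hdef, ?_⟩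
  intro t ht1 htC
  set h := (Q.filter (fun v => t < (Q.filter (fun w => v ≠ w ∧ ¬ G.Adj v w)).card)).card with hh
  set E := ∑ v ∈ Q.filter (fun v => t < (Q.filter (fun w => v ≠ w ∧ ¬ G.Adj v w)).card),
            (Q.filter (fun w => v ≠ w ∧ ¬ G.Adj v w)).card with hE
  by_contra hcon
  rw [not_or] at hcon
  obtain ⟨hcon1, hcon2⟩ := hcon
  push Not at hcon1
  obtain ⟨N, hN⟩ : ∃ N, N = (A.filter (fun v => u v ≠ v)).card := ⟨_, rfl⟩
  obtain ⟨U, hU⟩ : ∃ U, U = A.filter (fun v => t < dg G A v) := ⟨_, rfl⟩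
  obtain ⟨Z, hZ⟩ : ∃ Z, Z = (A.filter (fun v => u v ≠ v)) \ U := ⟨_, rfl⟩
  rw [← hN] at hQc
  have hdgQ : ∀ v, A.filter (fun w => HA G A v w) ⊆ Q.filter (fun w => v ≠ w ∧ ¬ G.Adj v w) := by
    intro v w hw
    rw [Finset.mem_filter] at hw ⊢
    exact ⟨hQm w hw.1 v hw.2.1 hw.2.2.2.1.symm (fun h => hw.2.2.2.2 h.symm), hw.2.2.2.1,
      hw.2.2.2.2⟩
  have hUQ : U ⊆ Q.filter (fun v => t < (Q.filter (fun w => v ≠ w ∧ ¬ G.Adj v w)).card) := by
    intro v hv
    rw [hU, Finset.mem_filter] at hv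
    obtain ⟨hvA, hvt⟩ := hv
    have hpos : 0 < (A.filter (fun w => HA G A v w)).card := lt_of_le_of_lt (Nat.zero_le _) hvt
    obtain ⟨w, hw⟩ := Finset.card_pos.1 hpos
    rw [Finset.mem_filter] at hw
    rw [Finset.mem_filter]
    exact ⟨hQm v hvA w hw.1 hw.2.2.2.1 hw.2.2.2.2, lt_of_lt_of_le hvt
      (Finset.card_le_card (hdgQ v))⟩
  have hUh : U.card ≤ h := Finset.card_le_card hUQ
  have hEU : ∑ v ∈ U, dg G A v ≤ E := by
    refine le_trans ?_ (Finset.sum_le_sum_of_subset hUQ)
    apply Finset.sum_le_sum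
    intro v _
    exact Finset.card_le_card (hdgQ v)
  have hQN : Q.card ^ 3 ≤ 8 * N ^ 3 := by
    calc Q.card ^ 3 ≤ (2 * N) ^ 3 := Nat.pow_le_pow_left hQc 3
      _ = 8 * N ^ 3 := by ring
  have htN : 1000000000000000 * t ^ 4 < 8 * N ^ 3 := by omega
  have ht4 : 1 ≤ t ^ 4 := Nat.one_le_pow _ _ ht1
  have hN0 : 1000 ≤ N := by
    by_contra hlt
    push Not at hlt
    have : N ^ 3 ≤ 999 ^ 3 := Nat.pow_le_pow_left (by omega) 3
    omega
  have h400 : 400 * t ≤ N := by
    by_contra hlt
    push Not at hlt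
    have h1 : N ^ 4 < (400 * t) ^ 4 := Nat.pow_lt_pow_left hlt (by norm_num)
    have h2 : (400 * t) ^ 4 = 25600000000 * t ^ 4 := by ring
    have h3 : 1000 * N ^ 3 ≤ N ^ 4 := by
      calc 1000 * N ^ 3 ≤ N * N ^ 3 := Nat.mul_le_mul_right _ hN0
        _ = N ^ 4 := by ring
    omega
  have hZA : Z ⊆ A := by
    intro z hz
    rw [hZ, Finset.mem_sdiff, Finset.mem_filter] at hz
    exact hz.1.1
  have hUm : ∀ v ∈ A, t < dg G A v → v ∈ U := by
    intro v hv hvt
    rw [hU, Finset.mem_filter]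
    exact ⟨hv, hvt⟩
  have hdgZ : ∀ z ∈ Z, dg G A z ≤ t := by
    intro z hz
    by_contra hlt
    push Not at hlt
    have := hUm z (hZA hz) hlt
    rw [hZ, Finset.mem_sdiff] at hz
    exact hz.2 this
  have hlow := low_bounds G Z t N (400 * t ^ 2 / N) (by
    intro v
    have := filter_HA_le G A Z hZA t hdgZ v
    rw [Set.ncard_eq_toFinset_card'] at this
    refine le_trans (Finset.card_le_card ?_) this
    intro w hw
    rw [Finset.mem_filter] at hw
    rw [Set.mem_toFinset]
    exact hw.2) rfl (by omega) (by omega)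
  have hUc : 1000 * U.card ≤ N := by omega
  -- the case of few non-neighbours
  by_cases h800 : 800 * t ^ 2 ≤ Q.card
  · apply hK
    exact main2 G k A u hu1 hu2 hu3 hcard hdeg hmin t t t (400 * t ^ 2 / N) N hN hN0 U hU h400
      hUc (Or.inr le_rfl) Z hZ (by
        intro x _ b hb
        refine le_trans (Finset.card_le_card ?_) (hdgZ b hb)
        intro w hw
        rw [Finset.mem_filter] at hw ⊢
        exact ⟨hZA hw.1, hw.2.2⟩) (by rw [← sq]; omega) (fun z _ => (hlow z).1)
      (fun z _ => (hlow z).2)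
  · push Not at h800
    have hE2 : 60000 * (t * E) < Q.card ^ 2 := by
      by_contra hlt
      push Not at hlt
      exact hcon2 ⟨h800, hlt⟩
    have hE3 : 60000 * (t * E) < 4 * N ^ 2 := by
      refine lt_of_lt_of_le hE2 ?_
      calc Q.card ^ 2 ≤ (2 * N) ^ 2 := Nat.pow_le_pow_left hQc 2
        _ = 4 * N ^ 2 := by ring
    have hNpos : (0 : ℝ) < N := by
      have : 0 < N := by omega
      exact_mod_cast this
    apply hK
    refine main3 G k A u hu1 hu2 hu3 hcard hdeg hmin t t (400 * t ^ 2 / N) N (t * E) hN hN0 U hUm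
      h400 hUc (by omega) Z hZ ?_ ?_ ?_ (fun z _ => (hlow z).1) (fun z _ => (hlow z).2)
    · intro x _ _ b hb
      refine le_trans (Finset.card_le_card ?_) (hdgZ b hb)
      intro w hw
      rw [Finset.mem_filter] at hw ⊢
      exact ⟨hZA hw.1, hw.2.2⟩
    · intro z hz
      unfold cZ
      rw [triple_sum (HA G A)]
      set P := ((A.filter (fun v => u v ≠ v)) ∩ U).filter (fun x => HA G A x z) with hP
      have hPU : P ⊆ U := (Finset.filter_subset _ _).trans Finset.inter_subset_right
      calc ∑ w ∈ Z, (P.filter (fun x => HA G A x w)).card *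
            ((Z.filter (fun b => HA G A b z)).filter (fun b => HA G A b w)).card
          ≤ ∑ w ∈ Z, (P.filter (fun x => HA G A x w)).card * t := by
            apply Finset.sum_le_sum
            intro w hw
            apply Nat.mul_le_mul_left
            refine le_trans (Finset.card_le_card ?_) (hdgZ w hw)
            intro b hb
            rw [Finset.mem_filter, Finset.mem_filter] at hb
            rw [Finset.mem_filter]
            exact ⟨hb.2.1, hb.2.symm⟩
        _ = t * ∑ w ∈ Z, (P.filter (fun x => HA G A x w)).card := by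
            rw [← Finset.sum_mul, mul_comm]
        _ = t * ∑ x ∈ P, (Z.filter (fun w => HA G A x w)).card := by
            congr 1
            have h2 := Finset.sum_card_bipartiteAbove_eq_sum_card_bipartiteBelow
              (s := P) (t := Z) (fun x w => HA G A x w)
            unfold Finset.bipartiteAbove Finset.bipartiteBelow at h2
            exact h2.symm
        _ ≤ t * ∑ x ∈ P, dg G A x := by
            apply Nat.mul_le_mul_left
            apply Finset.sum_le_sum
            intro x _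
            apply Finset.card_le_card
            intro w hw
            rw [Finset.mem_filter] at hw ⊢
            exact ⟨hZA hw.1, hw.2⟩
        _ ≤ t * ∑ x ∈ U, dg G A x := Nat.mul_le_mul_left _ (Finset.sum_le_sum_of_subset hPU)
        _ ≤ t * E := Nat.mul_le_mul_left _ hEU
    · have h1 := t_log_le (by omega : 0 < N) htN
      have h2 : 16 * ((t * E : ℕ) : ℝ) / N ≤ N / 800 := by
        have : 60000 * ((t * E : ℕ) : ℝ) < 4 * (N : ℝ) ^ 2 := by exact_mod_cast hE3
        rw [div_le_iff₀ hNpos]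
        nlinarith
      linarith

end Pool.Agent.H66.HW
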