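import Mathlib
import Pool.Agent.Lib.H80HC
import Pool.Agent.H66.HW.Bags3

/-!
Clique minors of very dense graphs (helper66).
-/

set_option autoImplicit false

namespace Pool.Agent.H66.HW

open SimpleGraph Finset Pool.Agent.Lib.H80

variable {V : Type*}

lemma const_bound (r : ℕ) (hr : 2 ≤ r) :
    64 * (64 * (r : ℝ) * 2 ^ r) ^ (r - 1) * 4 ^ r ≤ (256 * (r : ℝ) ^ 2) ^ (r ^ 2) := by
  have hr1 : (2 : ℝ) ≤ r := by exact_mod_cast hr
  have hrpos : (0 : ℝ) < r := by linarith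
  have h2r : (1 : ℝ) ≤ 2 ^ r := one_le_pow₀ (by norm_num)
  have hX : (64 : ℝ) ≤ 64 * (r : ℝ) * 2 ^ r := by nlinarith
  have h1 : 64 * (64 * (r : ℝ) * 2 ^ r) ^ (r - 1) ≤ (64 * (r : ℝ) * 2 ^ r) ^ r := by
    obtain ⟨s, rfl⟩ : ∃ s, r = s + 1 := ⟨r - 1, by omega⟩
    rw [Nat.add_sub_cancel, pow_succ (64 * ((s + 1 : ℕ) : ℝ) * 2 ^ (s + 1)) s, mul_comm (64 : ℝ)]
    exact mul_le_mul_of_nonneg_left hX (by positivity)
  have h2 : 64 * (64 * (r : ℝ) * 2 ^ r) ^ (r - 1) * 4 ^ r ≤ (256 * (r : ℝ) * 2 ^ r) ^ r := by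
    calc 64 * (64 * (r : ℝ) * 2 ^ r) ^ (r - 1) * 4 ^ r
        ≤ (64 * (r : ℝ) * 2 ^ r) ^ r * 4 ^ r := mul_le_mul_of_nonneg_right h1 (by positivity)
      _ = (256 * (r : ℝ) * 2 ^ r) ^ r := by
          rw [← mul_pow]
          congr 1
          ring
  refine h2.trans ?_
  have h3 : 256 * (r : ℝ) * 2 ^ r ≤ (256 * (r : ℝ) ^ 2) ^ r := by
    obtain ⟨s, rfl⟩ : ∃ s, r = s + 2 := ⟨r - 2, by omega⟩
    have h4 : (2 : ℝ) ^ (s + 2) ≤ (256 * (((s + 2 : ℕ) : ℝ)) ^ 2) ^ (s + 1) := by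
      have h5 : (4 : ℝ) ≤ 256 * (((s + 2 : ℕ) : ℝ)) ^ 2 := by nlinarith
      calc (2 : ℝ) ^ (s + 2) ≤ (4 : ℝ) ^ (s + 1) := by
            have : (4 : ℝ) = 2 ^ 2 := by norm_num
            rw [this, ← pow_mul]
            exact pow_le_pow_right₀ (by norm_num) (by omega)
        _ ≤ _ := pow_le_pow_left₀ (by norm_num) h5 _
    rw [pow_succ (256 * (((s + 2 : ℕ) : ℝ)) ^ 2) (s + 1)]
    have h6 : 256 * ((s + 2 : ℕ) : ℝ) ≤ 256 * (((s + 2 : ℕ) : ℝ)) ^ 2 := by nlinarith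
    calc 256 * ((s + 2 : ℕ) : ℝ) * 2 ^ (s + 2)
        ≤ 256 * (((s + 2 : ℕ) : ℝ)) ^ 2 * (256 * (((s + 2 : ℕ) : ℝ)) ^ 2) ^ (s + 1) :=
          mul_le_mul h6 h4 (by positivity) (by positivity)
      _ = _ := by ring
  calc (256 * (r : ℝ) * 2 ^ r) ^ r ≤ ((256 * (r : ℝ) ^ 2) ^ r) ^ r :=
        pow_le_pow_left₀ (by positivity) h3 _
    _ = (256 * (r : ℝ) ^ 2) ^ (r ^ 2) := by
        rw [← pow_mul, sq r]

/-- The numbers in the sparse partition lemma. -/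
lemma numbers {m r d : ℕ} (hr : 2 ≤ r) (hm : 0 < m) (hd : 0 < d)
    (h : (256 * (r : ℝ) ^ 2 * d) ^ (r ^ 2) ≤ ((m : ℝ) * r) ^ (r ^ 2 - 1)) :
    ∃ K : ℝ, 0 < K ∧
    ((m : ℝ) * r * (r * d)) * (2 / ((m : ℝ) * r)) ^ 2 ≤ 1 / (64 * (r : ℝ)) ∧
    ((m : ℝ) * r * ((d : ℝ) ^ r / K)) * (2 / ((m : ℝ) * r)) ^ r ≤ 1 / (64 * (r : ℝ)) ∧
    ((m : ℝ) * r * (m * (K ^ (r - 1) * (d : ℝ) ^ r))) * (2 / ((m : ℝ) * r)) ^ (2 * r) ≤
      1 / (64 * (r : ℝ)) := by
  have hr1 : (2 : ℝ) ≤ r := by exact_mod_cast hr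
  have hrpos : (0 : ℝ) < r := by linarith
  have hmpos : (0 : ℝ) < m := by exact_mod_cast hm
  have hm1 : (1 : ℝ) ≤ m := by exact_mod_cast hm
  have hdpos : (0 : ℝ) < d := by exact_mod_cast hd
  set N : ℝ := (m : ℝ) * r with hN
  have hNpos : 0 < N := by positivity
  have hN1 : 1 ≤ N := by nlinarith
  set q : ℝ := d / N with hq
  have hqpos : 0 < q := by positivity
  have hdq : (d : ℝ) = q * N := by
    rw [hq]
    field_simp
  -- the main inequality in terms of `q`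
  have hmain : N * (256 * (r : ℝ) ^ 2 * q) ^ (r ^ 2) ≤ 1 := by
    have hr2 : 1 ≤ r ^ 2 := Nat.one_le_pow _ _ (by omega)
    have e1 : (256 * (r : ℝ) ^ 2 * d) ^ (r ^ 2) =
        (256 * (r : ℝ) ^ 2 * q) ^ (r ^ 2) * N ^ (r ^ 2) := by
      rw [← mul_pow, hdq]
      congr 1
      ring
    rw [e1] at h
    obtain ⟨t, ht⟩ : ∃ t, r ^ 2 = t + 1 := ⟨r ^ 2 - 1, by omega⟩
    rw [ht] at h ⊢
    rw [Nat.add_sub_cancel, pow_succ N t] at h
    have hNt : 0 < N ^ t := by positivity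
    have h2 : (N * (256 * (r : ℝ) ^ 2 * q) ^ (t + 1)) * N ^ t ≤ 1 * N ^ t := by
      calc (N * (256 * (r : ℝ) ^ 2 * q) ^ (t + 1)) * N ^ t
          = (256 * (r : ℝ) ^ 2 * q) ^ (t + 1) * (N ^ t * N) := by ring
        _ ≤ N ^ t := h
        _ = 1 * N ^ t := by ring
    exact le_of_mul_le_mul_right h2 hNt
  have hq1 : 256 * (r : ℝ) ^ 2 * q ≤ 1 := by
    by_contra hcon
    push Not at hcon
    have h2 : 1 < (256 * (r : ℝ) ^ 2 * q) ^ (r ^ 2) :=
      one_lt_pow₀ hcon (by positivity)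
    nlinarith
  refine ⟨64 * (r : ℝ) * 2 ^ r * (N * q ^ r), by positivity, ?_, ?_, ?_⟩
  · have e1 : (N * (r * d)) * (2 / N) ^ 2 = 4 * r * q := by
      rw [hdq]
      field_simp
      ring
    rw [e1, le_div_iff₀ (by positivity)]
    nlinarith
  · have e1 : (N * ((d : ℝ) ^ r / (64 * (r : ℝ) * 2 ^ r * (N * q ^ r)))) * (2 / N) ^ r =
        1 / (64 * (r : ℝ)) := by
      rw [hdq, mul_pow]
      field_simp
      rw [← mul_pow]
      congr 1
      field_simp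
    rw [e1]
  · have hsr : r = (r - 1) + 1 := by omega
    have e0 : N * N ^ (r - 1) = N ^ r := by
      conv_rhs => rw [hsr]
      rw [pow_succ, mul_comm]
    have e0' : (q ^ r) ^ (r - 1) * q ^ r = q ^ (r ^ 2) := by
      rw [← pow_succ, ← hsr, ← pow_mul, sq r]
    have e1 : (N * (m * ((64 * (r : ℝ) * 2 ^ r * (N * q ^ r)) ^ (r - 1) * (d : ℝ) ^ r))) *
        (2 / N) ^ (2 * r) =
        m * ((64 * (r : ℝ) * 2 ^ r) ^ (r - 1) * 4 ^ r * q ^ (r ^ 2)) := by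
      have h4 : (2 / N) ^ (2 * r) = 4 ^ r / (N ^ r * N ^ r) := by
        rw [pow_mul, div_pow, div_pow, ← mul_pow]
        congr 1
        · norm_num
        · rw [sq]
      rw [hdq, mul_pow (64 * (r : ℝ) * 2 ^ r), mul_pow N, mul_pow q, h4, ← e0', ← e0]
      have hN0 : N ≠ 0 := hNpos.ne'
      have hNs : N ^ (r - 1) ≠ 0 := by positivity
      generalize (q ^ r) ^ (r - 1) = A
      generalize q ^ r = B
      generalize (64 * (r : ℝ) * 2 ^ r) ^ (r - 1) = C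
      generalize (4 : ℝ) ^ r = D
      generalize N ^ (r - 1) = E at hNs ⊢
      field_simp
    rw [e1]
    have hc := const_bound r hr
    have h5 : 64 * (64 * (r : ℝ) * 2 ^ r) ^ (r - 1) * 4 ^ r * (N * q ^ (r ^ 2)) ≤ 1 := by
      refine le_trans (mul_le_mul_of_nonneg_right hc (by positivity)) ?_
      calc (256 * (r : ℝ) ^ 2) ^ (r ^ 2) * (N * q ^ (r ^ 2))
          = N * (256 * (r : ℝ) ^ 2 * q) ^ (r ^ 2) := by
            rw [mul_pow (256 * (r : ℝ) ^ 2) q]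
            ring
        _ ≤ 1 := hmain
    rw [le_div_iff₀ (by positivity)]
    calc m * ((64 * (r : ℝ) * 2 ^ r) ^ (r - 1) * 4 ^ r * q ^ (r ^ 2)) * (64 * (r : ℝ))
        = 64 * (64 * (r : ℝ) * 2 ^ r) ^ (r - 1) * 4 ^ r * (N * q ^ (r ^ 2)) := by
          rw [hN]
          ring
      _ ≤ 1 := h5

/-- A nonempty set of pairwise adjacent vertices is connected. -/
lemma conn_clique {G : SimpleGraph V} {S : Set V} (hne : S.Nonempty)
    (h : ∀ u ∈ S, ∀ v ∈ S, u ≠ v → G.Adj u v) : (G.induce S).Connected := by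
  have : Nonempty S := hne.to_subtype
  refine ⟨?_⟩
  intro u v
  by_cases huv : u = v
  · rw [huv]
  · exact SimpleGraph.Adj.reachable (h u.1 u.2 v.1 v.2 (fun h => huv (Subtype.ext h)))

/-- Graphs on `n` vertices with few non-neighbours at every vertex have a minor `K_{n/r}`. -/
theorem dense_minor [Fintype V] [DecidableEq V] (G : SimpleGraph V) {d r : ℕ} (hr : 1 ≤ r)
    (hd : ∀ v, (Set.ncard {w | v ≠ w ∧ ¬ G.Adj v w}) ≤ d)
    (hbig : (512 * r ^ 2 * d) ^ (r ^ 2) ≤ (Fintype.card V) ^ (r ^ 2 - 1)) :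
    Model G Set.univ (Fin (Fintype.card V / r)) := by
  classical
  have hdH : ∀ v, (univ.filter (fun w => v ≠ w ∧ ¬ G.Adj v w)).card ≤ d := by
    intro v
    have := hd v
    rw [Set.ncard_eq_toFinset_card'] at this
    refine le_trans (Finset.card_le_card ?_) this
    intro w hw
    rw [Finset.mem_filter] at hw
    rw [Set.mem_toFinset]
    exact hw.2
  rcases Nat.eq_zero_or_pos d with rfl | hdpos
  · have hall : ∀ u v, u ≠ v → G.Adj u v := by
      intro u v huv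
      by_contra hadj
      have h1 := hdH u
      rw [Nat.le_zero, Finset.card_eq_zero, Finset.eq_empty_iff_forall_notMem] at h1
      exact h1 v (Finset.mem_filter.2 ⟨Finset.mem_univ _, huv, hadj⟩)
    have hcl : Model G Set.univ (univ : Finset V) := model_clique univ
      (fun u _ v _ huv => hall u v huv) (fun _ _ => trivial)
    refine hcl.of_card ?_
    rw [Fintype.card_fin, Fintype.card_coe, Finset.card_univ]
    exact Nat.div_le_self _ _
  set n := Fintype.card V with hn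
  have hr2 : 2 ≤ r := by
    by_contra hcon
    have hr1 : r = 1 := by omega
    subst hr1
    simp only [one_pow, mul_one, pow_one, Nat.sub_self, pow_zero] at hbig
    omega
  have hr2' : 4 ≤ r ^ 2 := by nlinarith
  have hn512 : 512 * r ^ 2 ≤ n := by
    by_contra hcon
    push Not at hcon
    have h1 : n ^ (r ^ 2 - 1) ≤ (512 * r ^ 2) ^ (r ^ 2 - 1) :=
      Nat.pow_le_pow_left hcon.le _
    have h2 : (512 * r ^ 2) ^ (r ^ 2 - 1) < (512 * r ^ 2) ^ (r ^ 2) :=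
      Nat.pow_lt_pow_right (by omega) (by omega)
    have h3 : (512 * r ^ 2) ^ (r ^ 2) ≤ (512 * r ^ 2 * d) ^ (r ^ 2) :=
      Nat.pow_le_pow_left (Nat.le_mul_of_pos_right _ hdpos) _
    omega
  set m := n / r with hm
  have hmr : m * r ≤ n := Nat.div_mul_le_self n r
  have hmr' : n < m * r + r := by
    have h1 := Nat.div_add_mod n r
    have h2 := Nat.mod_lt n (show 0 < r by omega)
    have h3 : r * m = m * r := mul_comm _ _
    rw [← hm] at h1
    omega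
  have hrr : r ≤ r ^ 2 := by nlinarith
  have hhalf : n ≤ 2 * (m * r) := by omega
  have hm4 : 4 ≤ m := by
    rw [hm, Nat.le_div_iff_mul_le (by omega)]
    omega
  have hbig' : (256 * r ^ 2 * d) ^ (r ^ 2) ≤ (m * r) ^ (r ^ 2 - 1) := by
    obtain ⟨t, ht⟩ : ∃ t, r ^ 2 = t + 1 := ⟨r ^ 2 - 1, by omega⟩
    rw [ht] at hbig ⊢
    rw [Nat.add_sub_cancel] at hbig ⊢
    have h1 : (512 * (t + 1) * d) ^ (t + 1) = 2 ^ (t + 1) * (256 * (t + 1) * d) ^ (t + 1) := by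
      rw [← mul_pow]
      congr 1
      ring
    have h2 : n ^ t ≤ 2 ^ t * (m * r) ^ t := by
      rw [← mul_pow]
      exact Nat.pow_le_pow_left hhalf _
    rw [h1] at hbig
    have h3 : 2 ^ t * (256 * (t + 1) * d) ^ (t + 1) ≤ 2 ^ t * (m * r) ^ t := by
      refine le_trans ?_ (hbig.trans h2)
      apply Nat.mul_le_mul_right
      exact Nat.pow_le_pow_right (by norm_num) (by omega)
    exact Nat.le_of_mul_le_mul_left h3 (by positivity)
  have hbigR : (256 * (r : ℝ) ^ 2 * d) ^ (r ^ 2) ≤ ((m : ℝ) * r) ^ (r ^ 2 - 1) := by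
    exact_mod_cast hbig'
  obtain ⟨K, hK, k1, k2, k3⟩ := numbers hr2 (by omega) hdpos hbigR
  obtain ⟨e⟩ : Nonempty (Fin m × Fin r ↪ V) := by
    apply Function.Embedding.nonempty_of_card_le
    rw [Fintype.card_prod, Fintype.card_fin, Fintype.card_fin]
    exact hmr
  obtain ⟨π, hπ1, hπ2⟩ := bags (by omega) (fun x y => e x ≠ e y ∧ ¬ G.Adj (e x) (e y))
    (fun u v h => ⟨h.1.symm, fun h' => h.2 h'.symm⟩) (fun u h => h.1 rfl) (d := d) (by
      intro v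
      refine le_trans ?_ (hdH (e v))
      apply Finset.card_le_card_of_injOn e
      · intro w hw
        rw [Finset.mem_coe, Finset.mem_filter] at hw ⊢
        exact ⟨Finset.mem_univ _, hw.2⟩
      · exact e.injective.injOn) hm4 K hK k1 k2 k3
  refine ⟨fun i => Set.range (fun s => e (π (i, s))), fun _ => Set.subset_univ _, ?_, ?_, ?_⟩
  · intro i
    refine conn_clique ⟨_, ⟨⟨0, by omega⟩, rfl⟩⟩ ?_
    rintro _ ⟨s, rfl⟩ _ ⟨s', rfl⟩ hne
    have hss : s ≠ s' := fun h => hne (by rw [h])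
    by_contra hadj
    exact hπ1 i s s' hss ⟨hne, hadj⟩
  · intro i j hij
    rw [Set.disjoint_left]
    rintro _ ⟨s, rfl⟩ ⟨s', h⟩
    have := π.injective (e.injective h)
    exact hij (congrArg Prod.fst this).symm
  · intro i j hij
    obtain ⟨s, s', h⟩ := hπ2 i j hij
    refine ⟨_, ⟨s, rfl⟩, _, ⟨s', rfl⟩, ?_⟩
    by_contra hadj
    apply h
    refine ⟨?_, hadj⟩
    intro h'
    have := π.injective (e.injective h')
    exact hij (congrArg Prod.fst this)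

end Pool.Agent.H66.HW
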